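import Pool.Agent.Lib.MP_f3fa2b_pr.Defs

/-!
Internal notions: paths, pipes, stays, good points.
-/

namespace Pool.Agent.MP_f3fa2b_pr

open MeasureTheory ProbabilityTheory Filter Topology
open scoped ENNReal

variable {d : ℕ}

/-- Real indicator of a proposition. -/
noncomputable def ind (p : Prop) : ℝ := by
  classical exact if p then 1 else 0

theorem ind_pos {p : Prop} (h : p) : ind p = 1 := by simp [ind, h]
theorem ind_neg {p : Prop} (h : ¬ p) : ind p = 0 := by simp [ind, h]
theorem ind_nonneg (p : Prop) : 0 ≤ ind p := by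
  by_cases h : p
  · rw [ind_pos h]; exact zero_le_one
  · rw [ind_neg h]
theorem ind_le_one (p : Prop) : ind p ≤ 1 := by
  by_cases h : p
  · rw [ind_pos h]
  · rw [ind_neg h]; exact zero_le_one
theorem ind_not (p : Prop) : ind (¬ p) = 1 - ind p := by
  by_cases h : p
  · rw [ind_pos h, ind_neg (not_not.mpr h)]; norm_num
  · rw [ind_neg h, ind_pos h]; norm_num
theorem ind_mono {p q : Prop} (h : p → q) : ind p ≤ ind q := by
  by_cases hp : p
  · rw [ind_pos hp, ind_pos (h hp)]
  · rw [ind_neg hp]; exact ind_nonneg q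
theorem ind_congr {p q : Prop} (h : p ↔ q) : ind p = ind q := by rw [propext h]

/-- `l = (x_1, ..., x_n)` is an open path starting at `x`. -/
def Pth (η : Cfg d) : Vx d → List (Vx d) → Prop
  | _, [] => True
  | x, y :: l => (∃ s : Step d, η (bond x s) = true ∧ y = x + vec s) ∧ Pth η y l

/-- Last point of the path `l` which starts at `x`. -/
def lst (x : Vx d) (l : List (Vx d)) : Vx d := l.getLastD x

theorem lst_nil (x : Vx d) : lst x [] = x := rfl
theorem lst_cons (x y : Vx d) (l : List (Vx d)) : lst x (y :: l) = lst y l := by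
  unfold lst
  exact List.getLastD_cons
theorem lst_append (x : Vx d) (l l' : List (Vx d)) : lst x (l ++ l') = lst (lst x l) l' := by
  induction l generalizing x with
  | nil => rfl
  | cons y l ih => rw [List.cons_append, lst_cons, lst_cons, ih]

theorem pth_append (η : Cfg d) (x : Vx d) (l l' : List (Vx d)) :
    Pth η x (l ++ l') ↔ Pth η x l ∧ Pth η (lst x l) l' := by
  induction l generalizing x with
  | nil => simp [Pth, lst_nil]
  | cons y l ih => rw [List.cons_append, lst_cons]; simp only [Pth]; rw [ih]; tauto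

/-- First unit vector. -/
def e1 [NeZero d] : Vx d := ev 0

/-- Pipe of length `L` at `v`: at each of the vertices `v + k e_1`, `1 ≤ k ≤ L`, exactly the two
bonds in direction `e_1` are open. -/
def Pipe [NeZero d] (η : Cfg d) (L : ℕ) (v : Vx d) : Prop :=
  ∀ k : ℕ, 1 ≤ k → k ≤ L → ∀ s : Step d, η (bond (v + (k : ℤ) • e1) s) = true ↔ s.1 = 0

/-- The vertices of a pipe. -/
def PB [NeZero d] (L : ℕ) (v : Vx d) : Finset (Vx d) :=
  (Finset.Icc 1 L).image fun k : ℕ => v + (k : ℤ) • e1

theorem card_PB_le [NeZero d] (L : ℕ) (v : Vx d) : (PB L v).card ≤ L := by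
  refine Finset.card_image_le.trans ?_
  simp

/-- The path `l` contains `T` consecutive points in one pipe of length `L`. -/
def HasStay [NeZero d] (η : Cfg d) (L T : ℕ) (l : List (Vx d)) : Prop :=
  ∃ v, Pipe η L v ∧ ∃ l1 l2 l3 : List (Vx d), l = l1 ++ l2 ++ l3 ∧ l2.length = T ∧
    ∀ y ∈ l2, y ∈ PB L v

/-- There is an open path with at most `R` steps from `x` to a point of a pipe. -/
def Good [NeZero d] (η : Cfg d) (L R : ℕ) (x : Vx d) : Prop :=
  ∃ l : List (Vx d), l.length ≤ R ∧ Pth η x l ∧ ∃ v, Pipe η L v ∧ lst x l ∈ PB L v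

/-- Expected number of bad starting points of the first `K` blocks of length `tb`. -/
noncomputable def cb [NeZero d] (η : Cfg d) (L R tb : ℕ) : ℕ → Vx d → ℝ
  | 0, _ => 0
  | K + 1, x => ind (¬ Good η L R x) + walkE η tb x fun l => cb η L R tb K (lst x l)

/-- Infinite cluster. -/
def InfC (η : Cfg d) (x : Vx d) : Prop := (cluster η x).Infinite

/-- The cluster of `x` is infinite and has at least one and at most `M` pipes. -/
def FewPipes [NeZero d] (L M : ℕ) (η : Cfg d) (x : Vx d) : Prop :=
  InfC η x ∧ (∃ v, Pipe η L v ∧ v + e1 ∈ cluster η x) ∧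
    ∃ A : Finset (Vx d), A.card ≤ M ∧ ∀ v, Pipe η L v → v + e1 ∈ cluster η x → v ∈ A

/-- Set the bonds of `S` to the pattern `O`. -/
def modify (S O : Finset (Bond d)) (η : Cfg d) : Cfg d := fun b => if b ∈ S then decide (b ∈ O) else η b

end Pool.Agent.MP_f3fa2b_pr
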