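import Pool.Agent.Lib.MP_f3fa2b_pr.Defs

/-!
Bernoulli percolation is a translation invariant probability measure with finite energy.
-/

namespace Pool.Agent.MP_f3fa2b_pr

open MeasureTheory ProbabilityTheory Filter Topology
open scoped ENNReal

variable {d : ℕ}

/-- Law of one bond. -/
noncomputable def bm (p : ℝ) : Measure Bool :=
  ENNReal.ofReal p • Measure.dirac true + ENNReal.ofReal (1 - p) • Measure.dirac false

theorem bm_prob {p : ℝ} (h0 : 0 < p) (h1 : p < 1) : IsProbabilityMeasure (bm p) := by
  constructor
  rw [bm, Measure.add_apply, Measure.smul_apply, Measure.smul_apply, measure_univ, measure_univ,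
    smul_eq_mul, smul_eq_mul, mul_one, mul_one, ← ENNReal.ofReal_add h0.le (by linarith)]
  simp

private theorem bern_eq (p : ℝ) : bernoulli d p = Measure.infinitePi fun _ : Bond d => bm p := rfl

theorem bern_prob {p : ℝ} (h0 : 0 < p) (h1 : p < 1) : IsProbabilityMeasure (bernoulli d p) := by
  have := bm_prob h0 h1
  rw [bern_eq]
  infer_instance

theorem bern_inv {p : ℝ} (h0 : 0 < p) (h1 : p < 1) : TransInv (bernoulli d p) := by
  have := bm_prob h0 h1
  intro a
  rw [bern_eq]
  have hf : Function.Injective (fun b : Bond d => ((b.1 + a, b.2) : Bond d)) := by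
    intro b c h
    have h1 := congrArg Prod.fst h
    have h2 := congrArg Prod.snd h
    exact Prod.ext (add_right_cancel h1) h2
  exact Measure.map_infinitePi_infinitePi_of_inj (P := fun _ : Bond d => bm p) hf

private theorem bern_ind {p : ℝ} (h0 : 0 < p) (h1 : p < 1) :
    iIndepFun (fun (b : Bond d) (η : Cfg d) => η b) (bernoulli d p) := by
  have := bm_prob h0 h1
  rw [bern_eq]
  exact iIndepFun_infinitePi (P := fun _ : Bond d => bm p) (X := fun _ x => x)
    (fun _ => measurable_id)

/-- `{η | update η b v ∈ N}` does not depend on the coordinate `b`. -/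
theorem bern_indep {p : ℝ} (h0 : 0 < p) (h1 : p < 1) (b : Bond d) (v : Bool) {N : Set (Cfg d)}
    (hN : MeasurableSet N) :
    bernoulli d p ({η | Function.update η b v ∈ N} ∩ {η | η b = v}) =
      bernoulli d p {η | Function.update η b v ∈ N} * bernoulli d p {η | η b = v} := by
  have hi : iIndep (fun c : Bond d => MeasurableSpace.comap (fun η : Cfg d => η c) inferInstance)
      (bernoulli d p) := bern_ind h0 h1
  have hd : Disjoint ({b}ᶜ : Set (Bond d)) {b} := disjoint_compl_left
  have hI := indep_iSup_of_disjoint
    (fun c => (measurable_pi_apply c).comap_le) hi hd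
  rw [Indep_iff] at hI
  refine hI _ _ ?_ ?_
  · have hm : @Measurable _ _ (⨆ i ∈ ({b}ᶜ : Set (Bond d)),
        MeasurableSpace.comap (fun η : Cfg d => η i) inferInstance) _
        (fun η : Cfg d => Function.update η b v) := by
      refine (@measurable_pi_iff (Cfg d) (Bond d) (fun _ => Bool) (⨆ i ∈ ({b}ᶜ : Set (Bond d)),
        MeasurableSpace.comap (fun η : Cfg d => η i) inferInstance) _ _).mpr fun c => ?_
      by_cases hc : c = b
      · subst hc
        simp only [Function.update_self]
        exact @measurable_const _ _ _ _ _
      · simp only [Function.update_of_ne hc]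
        have hle : MeasurableSpace.comap (fun η : Cfg d => η c) inferInstance ≤
            ⨆ i ∈ ({b}ᶜ : Set (Bond d)),
              MeasurableSpace.comap (fun η : Cfg d => η i) inferInstance :=
          le_iSup₂_of_le (f := fun (i : Bond d) (_ : i ∈ ({b}ᶜ : Set (Bond d))) =>
            MeasurableSpace.comap (fun η : Cfg d => η i) inferInstance) c hc le_rfl
        exact (comap_measurable _).mono hle le_rfl
    exact hm hN
  · have hle : MeasurableSpace.comap (fun η : Cfg d => η b) inferInstance ≤
        ⨆ i ∈ ({b} : Set (Bond d)),
          MeasurableSpace.comap (fun η : Cfg d => η i) inferInstance :=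
      le_iSup₂_of_le (f := fun (i : Bond d) (_ : i ∈ ({b} : Set (Bond d))) =>
        MeasurableSpace.comap (fun η : Cfg d => η i) inferInstance) b rfl le_rfl
    exact hle _ ⟨{v}, measurableSet_singleton v, rfl⟩

theorem bern_fe {p : ℝ} (h0 : 0 < p) (h1 : p < 1) : FiniteEnergy (bernoulli d p) := by
  have := bm_prob h0 h1
  intro b v
  have hu : Measurable (fun η : Cfg d => Function.update η b v) := by
    refine measurable_pi_iff.mpr fun c => ?_
    by_cases hc : c = b
    · subst hc
      simp only [Function.update_self]
      exact measurable_const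
    · simp only [Function.update_of_ne hc]
      exact measurable_pi_apply c
  refine Measure.AbsolutelyContinuous.mk fun N hN h => ?_
  rw [Measure.map_apply hu hN]
  have h2 := bern_indep (d := d) h0 h1 b v hN
  have h3 : bernoulli d p ({η | Function.update η b v ∈ N} ∩ {η | η b = v}) = 0 := by
    refine measure_mono_null ?_ h
    rintro η ⟨h4, h5⟩
    have h6 : Function.update η b v = η := by
      rw [← h5]
      exact Function.update_eq_self b η
    have h7 : Function.update η b v ∈ N := h4
    rwa [h6] at h7
  rw [h3] at h2
  have h8 : bernoulli d p {η | η b = v} ≠ 0 := by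
    have h9 : bernoulli d p {η | η b = v} = bm p {v} := by
      rw [bern_eq, ← Measure.infinitePi_map_eval (fun _ : Bond d => bm p) b,
        Measure.map_apply (measurable_pi_apply b) (measurableSet_singleton v)]
      rw [Measure.infinitePi_map_eval]
      rfl
    rw [h9, bm, Measure.add_apply, Measure.smul_apply, Measure.smul_apply, smul_eq_mul,
      smul_eq_mul]
    cases v
    · simp [h1]
    · simp [h0]
  exact (mul_eq_zero.mp h2.symm).resolve_right h8

end Pool.Agent.MP_f3fa2b_pr
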