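import Pool.Agent.Lib.MP_f3fa2b_pr.Success

/-!
Many blocks: the probability that there is no stay.
-/

namespace Pool.Agent.MP_f3fa2b_pr

open MeasureTheory ProbabilityTheory Filter Topology
open scoped ENNReal

variable {d : ℕ} [NeZero d]

/-- Product bound for the blocks without a stay. -/
private noncomputable def blk_nb (η : Cfg d) (L T tb : ℕ) : ℕ → Vx d → ℝ
  | 0, _ => 1
  | K + 1, x => walkE η tb x fun l => ind (¬ HasStay η L T l) * blk_nb η L T tb K (lst x l)

open Classical in
/-- One if `x` is good, zero otherwise. -/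
private noncomputable def blk_g (η : Cfg d) (L R : ℕ) (x : Vx d) : ℕ :=
  if Good η L R x then 1 else 0

/-- No stay and at least `j` good starts. -/
private noncomputable def blk_aa (η : Cfg d) (L R T tb : ℕ) : ℕ → Vx d → ℕ → ℝ
  | 0, _, j => ind (j = 0)
  | K + 1, x, j => walkE η tb x fun l =>
      ind (¬ HasStay η L T l) * blk_aa η L R T tb K (lst x l) (j - blk_g η L R x)

/-- Fewer than `j` good starts. -/
private noncomputable def blk_bb (η : Cfg d) (L R tb : ℕ) : ℕ → Vx d → ℕ → ℝ
  | 0, _, j => ind (j ≠ 0)
  | K + 1, x, j => walkE η tb x fun l => blk_bb η L R tb K (lst x l) (j - blk_g η L R x)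

private theorem blk_nostay_le (η : Cfg d) (L T tb K : ℕ) (x : Vx d) :
    (walkE η (K * tb) x fun l => ind (¬ HasStay η L T l)) ≤ blk_nb η L T tb K x := by
  induction K generalizing x with
  | zero =>
    refine (walkE_mono η _ x (G := fun _ => (1 : ℝ)) fun l _ _ => ind_le_one _).trans ?_
    exact walkE_const_le η _ x zero_le_one
  | succ K ih =>
    rw [show (K + 1) * tb = tb + K * tb by ring, walkE_append]
    show _ ≤ walkE η tb x fun l => ind (¬ HasStay η L T l) * blk_nb η L T tb K (lst x l)
    refine walkE_mono η tb x fun l _ _ => ?_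
    refine le_trans ?_ (mul_le_mul_of_nonneg_left (ih (lst x l)) (ind_nonneg _))
    rw [← walkE_mul]
    refine walkE_mono η _ _ fun l' _ _ => ?_
    by_cases h1 : HasStay η L T l
    · rw [ind_neg (not_not.mpr (hasStay_append_left l' h1))]
      exact mul_nonneg (ind_nonneg _) (ind_nonneg _)
    · by_cases h2 : HasStay η L T l'
      · rw [ind_neg (not_not.mpr (hasStay_append_right l h2))]
        exact mul_nonneg (ind_nonneg _) (ind_nonneg _)
      · rw [ind_pos h1, ind_pos h2, one_mul]
        exact ind_le_one _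

private theorem blk_aa_nonneg (η : Cfg d) (L R T tb K : ℕ) (x : Vx d) (j : ℕ) :
    0 ≤ blk_aa η L R T tb K x j := by
  induction K generalizing x j with
  | zero => exact ind_nonneg _
  | succ K ih => exact walkE_nonneg η tb x fun l => mul_nonneg (ind_nonneg _) (ih _ _)

private theorem blk_bb_nonneg (η : Cfg d) (L R tb K : ℕ) (x : Vx d) (j : ℕ) :
    0 ≤ blk_bb η L R tb K x j := by
  induction K generalizing x j with
  | zero => exact ind_nonneg _
  | succ K ih => exact walkE_nonneg η tb x fun l => ih _ _

private theorem blk_bb_le_one (η : Cfg d) (L R tb K : ℕ) (x : Vx d) (j : ℕ) :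
    blk_bb η L R tb K x j ≤ 1 := by
  induction K generalizing x j with
  | zero => exact ind_le_one _
  | succ K ih =>
    exact (walkE_mono η tb x (G := fun _ => (1 : ℝ)) fun l _ _ => ih _ _).trans
      (walkE_const_le η tb x zero_le_one)

private theorem blk_bb_zero (η : Cfg d) (L R tb K : ℕ) (x : Vx d) :
    blk_bb η L R tb K x 0 = 0 := by
  refine le_antisymm ?_ (blk_bb_nonneg _ _ _ _ _ _ _)
  induction K generalizing x with
  | zero =>
    show ind ((0 : ℕ) ≠ 0) ≤ 0
    rw [ind_neg (by simp)]
  | succ K ih =>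
    refine (walkE_mono η tb x (G := fun _ => (0 : ℝ)) fun l _ _ => ?_).trans
      (walkE_const_le η tb x le_rfl)
    rw [Nat.zero_sub]
    exact ih _

private theorem blk_split (η : Cfg d) (L R T tb K : ℕ) (x : Vx d) (j : ℕ) :
    blk_nb η L T tb K x ≤ blk_aa η L R T tb K x j + blk_bb η L R tb K x j := by
  induction K generalizing x j with
  | zero =>
    show (1 : ℝ) ≤ ind (j = 0) + ind (j ≠ 0)
    rw [show ind (j ≠ 0) = 1 - ind (j = 0) from ind_not _]
    linarith
  | succ K ih =>
    show (walkE η tb x fun l => ind (¬ HasStay η L T l) * blk_nb η L T tb K (lst x l)) ≤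
      (walkE η tb x fun l =>
        ind (¬ HasStay η L T l) * blk_aa η L R T tb K (lst x l) (j - blk_g η L R x)) +
      (walkE η tb x fun l => blk_bb η L R tb K (lst x l) (j - blk_g η L R x))
    rw [← walkE_add]
    refine walkE_mono η tb x fun l _ _ => ?_
    have h1 := mul_le_mul_of_nonneg_left (ih (lst x l) (j - blk_g η L R x))
      (ind_nonneg (¬ HasStay η L T l))
    have h2 := mul_le_mul_of_nonneg_right (ind_le_one (¬ HasStay η L T l))
      (blk_bb_nonneg η L R tb K (lst x l) (j - blk_g η L R x))
    rw [mul_add] at h1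
    linarith

private theorem blk_aa_le (η : Cfg d) (L R T tb : ℕ) {q : ℝ} (hq1 : q ≤ 1)
    (hs : ∀ x, Good η L R x → q ≤ walkE η tb x fun l => ind (HasStay η L T l))
    (K : ℕ) (x : Vx d) (j : ℕ) : blk_aa η L R T tb K x j ≤ (1 - q) ^ j := by
  have hq : 0 ≤ 1 - q := by linarith
  induction K generalizing x j with
  | zero =>
    show ind (j = 0) ≤ _
    by_cases h : j = 0
    · rw [ind_pos h, h, pow_zero]
    · rw [ind_neg h]
      exact pow_nonneg hq _
  | succ K ih =>
    have h1 : blk_aa η L R T tb (K + 1) x j ≤ (1 - q) ^ (j - blk_g η L R x) *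
        walkE η tb x fun l => ind (¬ HasStay η L T l) := by
      rw [← walkE_mul]
      refine walkE_mono η tb x fun l _ _ => ?_
      rw [mul_comm ((1 - q) ^ (j - blk_g η L R x))]
      exact mul_le_mul_of_nonneg_left (ih _ _) (ind_nonneg _)
    have h2 : (walkE η tb x fun l => ind (¬ HasStay η L T l)) ≤ 1 :=
      (walkE_mono η tb x (G := fun _ => (1 : ℝ)) fun l _ _ => ind_le_one _).trans
        (walkE_const_le η tb x zero_le_one)
    refine h1.trans ?_
    by_cases hg : Good η L R x
    · have hg1 : blk_g η L R x = 1 := by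
        unfold blk_g
        rw [if_pos hg]
      have h3 : (walkE η tb x fun l => ind (¬ HasStay η L T l)) ≤ 1 - q := by
        have h4 : (walkE η tb x fun l => ind (¬ HasStay η L T l)) +
            (walkE η tb x fun l => ind (HasStay η L T l)) ≤ 1 := by
          rw [← walkE_add]
          refine (walkE_mono η tb x (G := fun _ => (1 : ℝ)) fun l _ _ => ?_).trans
            (walkE_const_le η tb x zero_le_one)
          rw [ind_not]
          linarith
        have h5 := hs x hg
        linarith
      rw [hg1]
      rcases Nat.eq_zero_or_pos j with h0 | hpos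
      · subst h0
        rw [Nat.zero_sub, pow_zero, one_mul]
        exact h2
      · obtain ⟨i, rfl⟩ : ∃ i, j = i + 1 := ⟨j - 1, by omega⟩
        rw [Nat.add_sub_cancel, pow_succ]
        exact mul_le_mul_of_nonneg_left h3 (pow_nonneg hq _)
    · have hg0 : blk_g η L R x = 0 := by
        unfold blk_g
        rw [if_neg hg]
      rw [hg0, Nat.sub_zero]
      exact mul_le_of_le_one_right (pow_nonneg hq _) h2

private theorem blk_cb_nonneg (η : Cfg d) (L R tb K : ℕ) (x : Vx d) : 0 ≤ cb η L R tb K x := by
  induction K generalizing x with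
  | zero => exact le_rfl
  | succ K ih =>
    exact add_nonneg (ind_nonneg _) (walkE_nonneg η tb x fun l => ih _)

private theorem blk_bb_le (η : Cfg d) (L R tb K : ℕ) (x : Vx d) (j : ℕ) :
    ((K : ℝ) + 1 - j) * blk_bb η L R tb K x j ≤ cb η L R tb K x := by
  induction K generalizing x j with
  | zero =>
    show (((0 : ℕ) : ℝ) + 1 - j) * ind (j ≠ 0) ≤ 0
    by_cases h : j = 0
    · rw [ind_neg (not_not.mpr h), mul_zero]
    · have h1 : (1 : ℝ) ≤ j := by exact_mod_cast Nat.one_le_iff_ne_zero.mpr h
      rw [ind_pos h, mul_one]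
      push_cast
      linarith
  | succ K ih =>
    have hstep : blk_bb η L R tb (K + 1) x j =
        walkE η tb x fun l => blk_bb η L R tb K (lst x l) (j - blk_g η L R x) := rfl
    have hcb : cb η L R tb (K + 1) x = ind (¬ Good η L R x) +
        walkE η tb x fun l => cb η L R tb K (lst x l) := rfl
    have hcbn : 0 ≤ walkE η tb x fun l => cb η L R tb K (lst x l) :=
      walkE_nonneg η tb x fun l => blk_cb_nonneg η L R tb K _
    by_cases hg : Good η L R x
    · have hg1 : blk_g η L R x = 1 := by
        unfold blk_g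
        rw [if_pos hg]
      rcases Nat.eq_zero_or_pos j with h0 | hpos
      · subst h0
        rw [blk_bb_zero, mul_zero]
        exact blk_cb_nonneg _ _ _ _ _ _
      · obtain ⟨i, rfl⟩ : ∃ i, j = i + 1 := ⟨j - 1, by omega⟩
        rw [hstep, hcb, hg1, Nat.add_sub_cancel, ← walkE_mul]
        have h1 : (walkE η tb x fun l => (((K + 1 : ℕ) : ℝ) + 1 - ((i + 1 : ℕ) : ℝ)) *
            blk_bb η L R tb K (lst x l) i) ≤ walkE η tb x fun l => cb η L R tb K (lst x l) := by
          refine walkE_mono η tb x fun l _ _ => ?_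
          refine le_trans (le_of_eq ?_) (ih (lst x l) i)
          push_cast
          ring
        have h2 := ind_nonneg (¬ Good η L R x)
        linarith
    · have hg0 : blk_g η L R x = 0 := by
        unfold blk_g
        rw [if_neg hg]
      rw [hstep, hcb, hg0, Nat.sub_zero, ind_pos hg]
      have h1 : (walkE η tb x fun l => ((K : ℝ) + 1 - j) * blk_bb η L R tb K (lst x l) j) ≤
          walkE η tb x fun l => cb η L R tb K (lst x l) :=
        walkE_mono η tb x fun l _ _ => ih (lst x l) j
      rw [walkE_mul] at h1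
      have h2 : (walkE η tb x fun l => blk_bb η L R tb K (lst x l) j) ≤ 1 :=
        (walkE_mono η tb x (G := fun _ => (1 : ℝ)) fun l _ _ => blk_bb_le_one _ _ _ _ _ _ _).trans
          (walkE_const_le η tb x zero_le_one)
      push_cast
      have h3 : ((K : ℝ) + 1 + 1 - j) * (walkE η tb x fun l => blk_bb η L R tb K (lst x l) j) =
          ((K : ℝ) + 1 - j) * (walkE η tb x fun l => blk_bb η L R tb K (lst x l) j) +
            walkE η tb x fun l => blk_bb η L R tb K (lst x l) j := by ring
      rw [h3]
      linarith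

/-- If every good starting point gives a stay in its block with probability at least `q`, then the
probability of no stay in `K` blocks is at most `(1-q)^j + (expected number of bad starts)/(K+1-j)`.
PROOF. Recursions (natural subtraction, `g = 1` if the start `x` is good, else `0`):
`nb (K+1) x = E[ind(no stay in the block) * nb K (lst x l)]`,
`aa (K+1) x j = E[ind(no stay in the block) * aa K (lst x l) (j - g)]`, `aa 0 x j = ind (j = 0)`,
`bb (K+1) x j = E[bb K (lst x l) (j - g)]`, `bb 0 x j = ind (j ≠ 0)`.
Then no-stay probability `≤ nb K x ≤ aa K x j + bb K x j`, `aa K x j ≤ (1-q)^j`, `0 ≤ bb ≤ 1`,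
`bb K x 0 = 0` and `(K + 1 - j) * bb K x j ≤ cb η L R tb K x` (all real, any `j`), each by induction
on `K`. -/
theorem nostay_le (η : Cfg d) (L R T tb : ℕ) {q : ℝ} (hq0 : 0 ≤ q) (hq1 : q ≤ 1)
    (hs : ∀ x, Good η L R x → q ≤ walkE η tb x fun l => ind (HasStay η L T l))
    (K j : ℕ) (hj : j ≤ K) (x : Vx d) :
    (walkE η (K * tb) x fun l => ind (¬ HasStay η L T l)) ≤
      (1 - q) ^ j + cb η L R tb K x / ((K : ℝ) + 1 - j) := by
  have _ := hq0
  have hj' : (j : ℝ) ≤ K := by exact_mod_cast hj
  have hpos : (0 : ℝ) < (K : ℝ) + 1 - j := by linarith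
  have h1 := blk_nostay_le η L T tb K x
  have h2 := blk_split η L R T tb K x j
  have h3 := blk_aa_le η L R T tb hq1 hs K x j
  have h4 : blk_bb η L R tb K x j ≤ cb η L R tb K x / ((K : ℝ) + 1 - j) := by
    rw [le_div_iff₀ hpos, mul_comm]
    exact blk_bb_le η L R tb K x j
  linarith

end Pool.Agent.MP_f3fa2b_pr
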