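import Pool.Agent.Lib.MP_f3fa2b_pr.Prod

/-!
(B) Chernoff bounds for the sums of centred indicators in a box.
-/

namespace Pool.Agent.MP_f3fa2b_pr

open MeasureTheory ProbabilityTheory Filter Topology
open scoped ENNReal

variable {d : ℕ} {Ω : Type*} [MeasurableSpace Ω] {P : Measure Ω} [IsProbabilityMeasure P]

/-- Sum of the centred indicators over the times `t + 1, ..., t + T` and the points of `B`. -/
noncomputable def YY (c q : ℝ) (ω : ℕ → Vx d → Ω → ℝ) (t T : ℕ) (B : Finset (Vx d)) (a : Ω) : ℝ :=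
  ∑ z ∈ Finset.Ioc t (t + T) ×ˢ B, cen c q (ω z.1 z.2 a)

theorem meas_YY {ω : ℕ → Vx d → Ω → ℝ} (h : IIDField P ω) (c q : ℝ) (t T : ℕ)
    (B : Finset (Vx d)) : Measurable (YY c q ω t T B) := by
  unfold YY
  exact Finset.measurable_sum _ fun z _ => (meas_cen c q).comp (h.meas z.1 z.2)

private theorem chern_card_win (t T : ℕ) {L : ℕ} {B : Finset (Vx d)} (hB : B.card ≤ L) :
    ((Finset.Ioc t (t + T) ×ˢ B).card : ℝ) ≤ T * L := by
  rw [Finset.card_product, Nat.card_Ioc, Nat.add_sub_cancel_left, Nat.cast_mul]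
  have : (B.card : ℝ) ≤ L := by exact_mod_cast hB
  exact mul_le_mul_of_nonneg_left this (Nat.cast_nonneg T)

private theorem chern_int_exp {c q s : ℝ} {X : Ω → ℝ} (hX : Measurable X) (hq0 : 0 ≤ q)
    (hq1 : q ≤ 1) : Integrable (fun a => Real.exp (s * cen c q (X a))) P := by
  have hm : Measurable fun a => Real.exp (s * cen c q (X a)) :=
    (((meas_cen c q).comp hX).const_mul s).exp
  refine Integrable.of_bound hm.aestronglyMeasurable (Real.exp |s|)
    (Eventually.of_forall fun a => ?_)
  rw [Real.norm_eq_abs, abs_of_pos (Real.exp_pos _)]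
  refine Real.exp_le_exp.2 ((le_abs_self _).trans ?_)
  rw [abs_mul]
  exact mul_le_of_le_one_right (abs_nonneg s) (cen_abs hq0 hq1 _)

/-- Chernoff bound without path, `s = κ / (2 |B|)`. -/
theorem YY_tail {ω : ℕ → Vx d → Ω → ℝ} (h : IIDField P ω) {c q κ : ℝ} (hq0 : 0 ≤ q) (hq1 : q ≤ 1)
    (hκ0 : 0 < κ) (hκ1 : κ ≤ 1) (h0 : ∫ a, cen c q (ω 1 0 a) ∂P = 0) (t T : ℕ) {L : ℕ}
    {B : Finset (Vx d)} (hB : B.card ≤ L) :
    P.real {a | κ * T ≤ YY c q ω t T B a} ≤ Real.exp (-(κ ^ 2 * T / (4 * L))) := by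
  rcases Nat.eq_zero_or_pos L with rfl | hL
  · simp
  have hL' : (1 : ℝ) ≤ L := by exact_mod_cast hL
  have hL0 : (0 : ℝ) < L := by linarith
  set s : ℝ := κ / (2 * L) with hs
  have hs0 : 0 ≤ s := by positivity
  have hs1 : |s| ≤ 1 := by
    rw [abs_of_nonneg hs0, hs, div_le_one (by positivity)]
    linarith
  have key := int_prod h (Finset.Ioc t (t + T) ×ˢ B)
    (φ := fun _ x => Real.exp (s * cen c q x))
    (fun _ => ((meas_cen c q).const_mul s).exp) (fun _ _ => (Real.exp_pos _).le)
    (fun _ _ => chern_int_exp (h.meas 1 0) hq0 hq1)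
  have hexp : ∀ a, ∏ z ∈ Finset.Ioc t (t + T) ×ˢ B, Real.exp (s * cen c q (ω z.1 z.2 a)) =
      Real.exp (s * YY c q ω t T B a) := by
    intro a
    rw [YY, Finset.mul_sum, Real.exp_sum]
  simp only [hexp] at key
  have h1 := measure_ge_le_exp_mul_mgf (μ := P) (X := YY c q ω t T B) (κ * T) hs0 key.1
  have h2 : mgf (YY c q ω t T B) P s ≤ Real.exp (s ^ 2 * (T * L)) := by
    have : mgf (YY c q ω t T B) P s = ∫ a, Real.exp (s * YY c q ω t T B a) ∂P := rfl
    rw [this, key.2]
    calc ∏ _z ∈ Finset.Ioc t (t + T) ×ˢ B, ∫ a, Real.exp (s * cen c q (ω 1 0 a)) ∂P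
        ≤ ∏ _z ∈ Finset.Ioc t (t + T) ×ˢ B, Real.exp (s ^ 2) := by
          refine Finset.prod_le_prod (fun _ _ => integral_nonneg fun a => (Real.exp_pos _).le)
            fun _ _ => site_free (h.meas 1 0) hq0 hq1 hs1 h0
      _ = Real.exp (s ^ 2 * ((Finset.Ioc t (t + T) ×ˢ B).card : ℝ)) := by
          rw [Finset.prod_const, ← Real.exp_nat_mul, mul_comm]
      _ ≤ Real.exp (s ^ 2 * (T * L)) :=
          Real.exp_le_exp.2 (mul_le_mul_of_nonneg_left (chern_card_win t T hB) (sq_nonneg s))
  refine h1.trans ((mul_le_mul_of_nonneg_left h2 (Real.exp_pos _).le).trans ?_)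
  rw [← Real.exp_add]
  refine Real.exp_le_exp.2 (le_of_eq ?_)
  rw [hs]
  field_simp
  ring

private theorem chern_sites (l1 l2 l3 : List (Vx d)) {B : Finset (Vx d)}
    (hl : ∀ y ∈ l2, y ∈ B) :
    l2.length ≤ ((Finset.Ioc l1.length (l1.length + l2.length) ×ˢ B).filter
      fun z => z ∈ sites (l1 ++ l2 ++ l3)).card := by
  classical
  have hinj : ((Finset.range l2.length).image
      fun i => ((l1.length + i + 1 : ℕ), l2.getD i 0)).card = l2.length := by
    rw [Finset.card_image_of_injective, Finset.card_range]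
    intro i j hij
    have := (Prod.mk.inj hij).1
    omega
  refine hinj.symm.le.trans (Finset.card_le_card fun z hz => ?_)
  obtain ⟨i, hi, rfl⟩ := Finset.mem_image.1 hz
  rw [Finset.mem_range] at hi
  have hmem : l2.getD i 0 ∈ l2 := by
    rw [List.getD_eq_getElem _ _ hi]
    exact List.getElem_mem hi
  refine Finset.mem_filter.2 ⟨Finset.mem_product.2 ⟨Finset.mem_Ioc.2 ⟨?_, ?_⟩, hl _ hmem⟩, ?_⟩
  · show l1.length < l1.length + i + 1
    omega
  · show l1.length + i + 1 ≤ l1.length + l2.length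
    omega
  · refine Finset.mem_image.2 ⟨l1.length + i, ?_, ?_⟩
    · rw [Finset.mem_range]
      simp only [List.length_append]
      omega
    · show ((l1.length + i + 1 : ℕ), (l1 ++ l2 ++ l3).getD (l1.length + i) 0) = _
      rw [List.getD_append _ _ _ _ (by rw [List.length_append]; omega),
        List.getD_append_right _ _ _ _ (by omega), Nat.add_sub_cancel_left]

/-- Chernoff bound for the tilted measure of a path which is in `B` at the times
`t + 1, ..., t + T`. -/
theorem YY_tilt {ω : ℕ → Vx d → Ω → ℝ} (h : IIDField P ω) {β c q κ : ℝ}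
    (hi : Integrable (fun a => Real.exp (β * ω 1 0 a)) P) (hq0 : 0 ≤ q) (hq1 : q ≤ 1)
    (hκ0 : 0 < κ) (hκ1 : κ ≤ 1) (h0 : ∫ a, cen c q (ω 1 0 a) ∂P = 0)
    (h2 : ∫ a, gw β (cgf (ω 1 0) P β) (ω 1 0 a) * cen c q (ω 1 0 a) ∂P = 2 * κ) {L : ℕ}
    {B : Finset (Vx d)} (hB : B.card ≤ L) (l1 l2 l3 : List (Vx d)) (hl : ∀ y ∈ l2, y ∈ B) :
    ∫ a, wt β (cgf (ω 1 0) P β) ω (l1 ++ l2 ++ l3) a *
        ind (YY c q ω l1.length l2.length B a < κ * l2.length) ∂P ≤
      Real.exp (-(κ ^ 2 * l2.length / (4 * L))) := by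
  classical
  have hwt := wt_int h hi (l1 ++ l2 ++ l3)
  have hwt0 : ∀ a, 0 ≤ wt β (cgf (ω 1 0) P β) ω (l1 ++ l2 ++ l3) a := fun a =>
    (Real.exp_pos _).le
  rcases Nat.eq_zero_or_pos L with rfl | hL
  · calc ∫ a, wt β (cgf (ω 1 0) P β) ω (l1 ++ l2 ++ l3) a *
          ind (YY c q ω l1.length l2.length B a < κ * l2.length) ∂P
        ≤ ∫ a, wt β (cgf (ω 1 0) P β) ω (l1 ++ l2 ++ l3) a ∂P := by
          refine integral_mono_of_nonneg (Eventually.of_forall fun a =>
            mul_nonneg (hwt0 a) (ind_nonneg _)) hwt.1 (Eventually.of_forall fun a =>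
            mul_le_of_le_one_right (hwt0 a) (ind_le_one _))
      _ = 1 := hwt.2
      _ ≤ _ := by simp
  have hL' : (1 : ℝ) ≤ L := by exact_mod_cast hL
  have hL0 : (0 : ℝ) < L := by linarith
  set s : ℝ := κ / (2 * L) with hs
  have hs0 : 0 ≤ s := by positivity
  have hs1 : s ≤ 1 := by
    rw [hs, div_le_one (by positivity)]
    linarith
  set l := l1 ++ l2 ++ l3 with hldef
  set W := Finset.Ioc l1.length (l1.length + l2.length) ×ˢ B with hW
  set lam := cgf (ω 1 0) P β with hlam
  set φ : ℕ × Vx d → ℝ → ℝ := fun z x => (if z ∈ sites l then gw β lam x else 1) *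
    (if z ∈ W then Real.exp (-s * cen c q x) else 1) with hφ
  have hφm : ∀ z, Measurable (φ z) := by
    intro z
    by_cases h1 : z ∈ sites l <;> by_cases h2 : z ∈ W <;> simp only [hφ, h1, h2, if_true, if_false]
    · exact (meas_gw β lam).mul (((meas_cen c q).const_mul (-s)).exp)
    · exact (meas_gw β lam).mul measurable_const
    · exact measurable_const.mul (((meas_cen c q).const_mul (-s)).exp)
    · exact measurable_const
  have hφ0 : ∀ z x, 0 ≤ φ z x := by
    intro z x
    refine mul_nonneg ?_ ?_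
    · split_ifs
      · exact (Real.exp_pos _).le
      · exact zero_le_one
    · split_ifs
      · exact (Real.exp_pos _).le
      · exact zero_le_one
  have hgw := gw_integrable hi lam
  have hφi : ∀ z, Integrable (fun a => φ z (ω 1 0 a)) P := by
    intro z
    have hb : Integrable (fun a => gw β lam (ω 1 0 a) * Real.exp (-s * cen c q (ω 1 0 a))) P := by
      refine hgw.mul_bdd (c := Real.exp |s|) ?_ ?_
      · exact ((((meas_cen c q).comp (h.meas 1 0)).const_mul (-s)).exp).aestronglyMeasurable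
      · refine Eventually.of_forall fun a => ?_
        rw [Real.norm_eq_abs, abs_of_pos (Real.exp_pos _)]
        refine Real.exp_le_exp.2 ((le_abs_self _).trans ?_)
        rw [abs_mul, abs_neg]
        exact mul_le_of_le_one_right (abs_nonneg s) (cen_abs hq0 hq1 _)
    by_cases h1 : z ∈ sites l <;> by_cases h2 : z ∈ W <;> simp only [hφ, h1, h2, if_true, if_false]
    · exact hb
    · simpa using hgw
    · simpa using (chern_int_exp (s := -s) (P := P) (c := c) (h.meas 1 0) hq0 hq1)
    · simp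
  -- the product
  have key := int_prod h (sites l ∪ W) hφm hφ0 (fun z _ => hφi z)
  have hprod : ∀ a, ∏ z ∈ sites l ∪ W, φ z (ω z.1 z.2 a) =
      wt β lam ω l a * Real.exp (-s * YY c q ω l1.length l2.length B a) := by
    intro a
    simp only [hφ]
    rw [Finset.prod_mul_distrib, wt_eq_prod]
    congr 1
    · rw [Finset.prod_ite_mem]
      congr 1
      exact Finset.union_inter_cancel_left
    · rw [Finset.prod_ite_mem, Finset.union_inter_cancel_right, YY, Finset.mul_sum, Real.exp_sum]
  simp only [hprod] at key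
  have hfac : ∀ z ∈ sites l ∪ W, ∫ a, φ z (ω 1 0 a) ∂P ≤
      (if z ∈ W then Real.exp (s ^ 2) else 1) *
        (if z ∈ W.filter (fun z => z ∈ sites l) then Real.exp (-2 * κ * s) else 1) := by
    intro z _
    by_cases h1 : z ∈ sites l <;> by_cases h3 : z ∈ W <;>
      simp only [hφ, h1, h3, if_true, if_false, Finset.mem_filter, and_true, and_false, one_mul,
        mul_one]
    · refine (site_path (h.meas 1 0) hi hq0 hq1 hs0 hs1 h2).trans (le_of_eq ?_)
      rw [← Real.exp_add, add_comm]
    · exact (gw_integral (h.meas 1 0) hi).le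
    · refine (site_free (h.meas 1 0) hq0 hq1 (s := -s) ?_ h0).trans (le_of_eq ?_)
      · rwa [abs_neg, abs_of_nonneg hs0]
      · rw [neg_sq]
    · simp
  have hbound : ∏ z ∈ sites l ∪ W, ∫ a, φ z (ω 1 0 a) ∂P ≤
      Real.exp (s ^ 2 * (l2.length * L)) * Real.exp (-2 * κ * s * l2.length) := by
    refine (Finset.prod_le_prod (fun z _ => integral_nonneg fun a => hφ0 z _) hfac).trans ?_
    rw [Finset.prod_mul_distrib, Finset.prod_ite_mem, Finset.prod_ite_mem,
      Finset.union_inter_cancel_right, Finset.prod_const, Finset.prod_const,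
      ← Real.exp_nat_mul, ← Real.exp_nat_mul]
    have hsub : (sites l ∪ W) ∩ W.filter (fun z => z ∈ sites l) =
        W.filter (fun z => z ∈ sites l) := by
      refine Finset.inter_eq_right.2 fun z hz => ?_
      exact Finset.mem_union_right _ (Finset.mem_filter.1 hz).1
    rw [hsub]
    refine mul_le_mul ?_ ?_ (Real.exp_pos _).le (Real.exp_pos _).le
    · refine Real.exp_le_exp.2 ?_
      rw [mul_comm]
      exact mul_le_mul_of_nonneg_left (chern_card_win _ _ hB) (sq_nonneg s)
    · refine Real.exp_le_exp.2 ?_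
      have hc : (l2.length : ℝ) ≤ ((W.filter (fun z => z ∈ sites l)).card : ℝ) := by
        exact_mod_cast chern_sites l1 l2 l3 hl
      have : 0 ≤ 2 * κ * s := by positivity
      nlinarith
  have hpt : ∀ a, wt β lam ω l a * ind (YY c q ω l1.length l2.length B a < κ * l2.length) ≤
      Real.exp (s * (κ * l2.length)) *
        (wt β lam ω l a * Real.exp (-s * YY c q ω l1.length l2.length B a)) := by
    intro a
    have hind : ind (YY c q ω l1.length l2.length B a < κ * l2.length) ≤
        Real.exp (s * (κ * l2.length)) * Real.exp (-s * YY c q ω l1.length l2.length B a) := by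
      rw [← Real.exp_add]
      by_cases hy : YY c q ω l1.length l2.length B a < κ * l2.length
      · rw [ind_pos hy]
        refine Real.one_le_exp ?_
        nlinarith
      · rw [ind_neg hy]
        exact (Real.exp_pos _).le
    calc _ ≤ wt β lam ω l a * (Real.exp (s * (κ * l2.length)) *
          Real.exp (-s * YY c q ω l1.length l2.length B a)) :=
          mul_le_mul_of_nonneg_left hind (hwt0 a)
      _ = _ := by ring
  calc ∫ a, wt β lam ω l a * ind (YY c q ω l1.length l2.length B a < κ * l2.length) ∂P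
      ≤ ∫ a, Real.exp (s * (κ * l2.length)) *
        (wt β lam ω l a * Real.exp (-s * YY c q ω l1.length l2.length B a)) ∂P :=
        integral_mono_of_nonneg (Eventually.of_forall fun a =>
          mul_nonneg (hwt0 a) (ind_nonneg _)) (key.1.const_mul _) (Eventually.of_forall hpt)
    _ = Real.exp (s * (κ * l2.length)) * ∏ z ∈ sites l ∪ W, ∫ a, φ z (ω 1 0 a) ∂P := by
        rw [integral_const_mul, key.2]
    _ ≤ Real.exp (s * (κ * l2.length)) *
        (Real.exp (s ^ 2 * (l2.length * L)) * Real.exp (-2 * κ * s * l2.length)) :=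
        mul_le_mul_of_nonneg_left hbound (Real.exp_pos _).le
    _ = Real.exp (-(κ ^ 2 * l2.length / (4 * L))) := by
        rw [← Real.exp_add, ← Real.exp_add]
        congr 1
        rw [hs]
        field_simp
        ring

end Pool.Agent.MP_f3fa2b_pr
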