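import Pool.Agent.Lib.MP_f3fa2b_pr.Block

/-!
(C) The probability of no stay in `4^m` blocks, for a fixed configuration.
-/

namespace Pool.Agent.MP_f3fa2b_pr

open MeasureTheory ProbabilityTheory Filter Topology
open scoped ENNReal

variable {d : ℕ} [NeZero d]

/-- Block length. -/
def tb (j m : ℕ) : ℕ := 10 * j ^ 2 * m + m + 1

/-- Probability of no stay of length `10 j^2 m` in a pipe of length `10 j - 1` in `4^m` blocks. -/
noncomputable def hm (η : Cfg d) (j m : ℕ) : ℝ :=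
  walkE η (4 ^ m * tb j m) 0 fun l => ind (¬ HasStay η (10 * j - 1) (10 * j ^ 2 * m) l)

private theorem hm_cb_nonneg (η : Cfg d) (L R tb K : ℕ) : ∀ x : Vx d, 0 ≤ cb η L R tb K x := by
  induction K with
  | zero => intro x; exact le_rfl
  | succ K ih =>
    intro x
    exact add_nonneg (ind_nonneg _) (walkE_nonneg η tb x fun l => ih _)

theorem hm_le {j : ℕ} (hj : 1 ≤ j) (R : ℕ) : ∃ c : ℝ, 0 < c ∧ ∀ (η : Cfg d) (m : ℕ), R ≤ m →
    hm η j m ≤ Real.exp (-(c * 2 ^ m)) + 2 / 4 ^ m * cb η (10 * j - 1) R (tb j m) (4 ^ m) 0 := by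
  have hj' : (1 : ℝ) ≤ j := by exact_mod_cast hj
  have hd : (1 : ℝ) ≤ d := by exact_mod_cast Nat.one_le_iff_ne_zero.2 (NeZero.ne d)
  set s : ℝ := Real.sin (Real.pi / (10 * j)) with hs
  set a : ℝ := (1 / (2 * d) : ℝ) ^ R with ha
  have hs0 : 0 < s := by
    apply Real.sin_pos_of_pos_of_lt_pi
    · positivity
    · rw [div_lt_iff₀ (by positivity)]
      nlinarith [Real.pi_pos]
  have hs1 : s ≤ 1 := Real.sin_le_one _
  have ha0 : 0 < a := by positivity
  have ha1 : a ≤ 1 := by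
    apply pow_le_one₀ (by positivity)
    rw [div_le_one (by positivity)]
    linarith
  refine ⟨a * s / 2, by positivity, fun η m hRm => ?_⟩
  set q : ℝ := a * ((1 / 2) ^ m * s) with hq
  have hb0 : (0 : ℝ) < (1 / 2) ^ m := by positivity
  have hb1 : ((1 : ℝ) / 2) ^ m ≤ 1 := pow_le_one₀ (by norm_num) (by norm_num)
  have hq0 : 0 ≤ q := by positivity
  have hq1 : q ≤ 1 := by
    have h1 : (1 / 2 : ℝ) ^ m * s ≤ 1 := mul_le_one₀ hb1 hs0.le hs1
    exact mul_le_one₀ ha1 (by positivity) h1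
  have hL : (((10 * j - 1 : ℕ) : ℝ) + 1) = 10 * j := by
    rw [Nat.cast_sub (by omega)]
    push_cast
    ring
  have hsuc : ∀ x, Good η (10 * j - 1) R x →
      q ≤ walkE η (tb j m) x fun l => ind (HasStay η (10 * j - 1) (10 * j ^ 2 * m) l) := by
    intro x hx
    have h1 := success η (L := 10 * j - 1) (R := R) (T := 10 * j ^ 2 * m) (tb := tb j m) (x := x)
      (by omega) hx (by unfold tb; omega)
    rw [hL] at h1
    refine le_trans ?_ h1
    rw [hq]
    have h2 := num_cos hj m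
    gcongr
  set J : ℕ := (4 ^ m + 1) / 2 with hJ
  have hK1 : 1 ≤ 4 ^ m := Nat.one_le_pow _ _ (by norm_num)
  have hJK : J ≤ 4 ^ m := by omega
  have hJ2 : 4 ^ m ≤ 2 * J := by omega
  have hJ3 : 2 * J ≤ 4 ^ m + 1 := by omega
  have hJ2' : (4 : ℝ) ^ m ≤ 2 * J := by exact_mod_cast hJ2
  have hJ3' : 2 * (J : ℝ) ≤ 4 ^ m + 1 := by exact_mod_cast hJ3
  have hmain := nostay_le η (10 * j - 1) R (10 * j ^ 2 * m) (tb j m) hq0 hq1 hsuc (4 ^ m) J hJK 0
  have h4 : (0 : ℝ) < 4 ^ m := by positivity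
  have hcb := hm_cb_nonneg η (10 * j - 1) R (tb j m) (4 ^ m) (0 : Vx d)
  have hfirst : (1 - q) ^ J ≤ Real.exp (-(a * s / 2 * 2 ^ m)) := by
    have h1 : 1 - q ≤ Real.exp (-q) := by
      have := Real.add_one_le_exp (-q)
      linarith
    calc (1 - q) ^ J ≤ (Real.exp (-q)) ^ J := by
          apply pow_le_pow_left₀ (by linarith) h1
      _ = Real.exp (J * -q) := by rw [← Real.exp_nat_mul]
      _ ≤ _ := by
        rw [Real.exp_le_exp]
        have h2 : (4 : ℝ) ^ m = 2 ^ m * 2 ^ m := by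
          rw [← mul_pow]
          norm_num
        have h3 : ((1 : ℝ) / 2) ^ m * 2 ^ m = 1 := by
          rw [← mul_pow]
          norm_num
        have h5 : q * 4 ^ m = a * s * 2 ^ m := by
          rw [hq, h2]
          calc a * ((1 / 2) ^ m * s) * (2 ^ m * 2 ^ m)
              = a * s * 2 ^ m * ((1 / 2) ^ m * 2 ^ m) := by ring
            _ = a * s * 2 ^ m := by rw [h3, mul_one]
        nlinarith
  have hsecond : cb η (10 * j - 1) R (tb j m) (4 ^ m) 0 / (((4 ^ m : ℕ) : ℝ) + 1 - J)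
      ≤ 2 / 4 ^ m * cb η (10 * j - 1) R (tb j m) (4 ^ m) 0 := by
    have h1 : (((4 ^ m : ℕ) : ℝ)) = 4 ^ m := by push_cast; ring
    rw [h1, div_eq_mul_inv, mul_comm]
    apply mul_le_mul_of_nonneg_right _ hcb
    rw [inv_eq_one_div, div_le_div_iff₀ (by linarith) h4]
    linarith
  calc hm η j m ≤ _ := hmain
    _ ≤ _ := add_le_add hfirst hsecond

end Pool.Agent.MP_f3fa2b_pr
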