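import Pool.Agent.Lib.MP_f3fa2b_pr.Stat

/-!
(C) The expected number of bad starts.
-/

namespace Pool.Agent.MP_f3fa2b_pr

open MeasureTheory ProbabilityTheory Filter Topology
open scoped ENNReal

variable {d : ℕ} [NeZero d]

omit [NeZero d] in
private theorem statB_pth (a : Vx d) (η : Cfg d) (x : Vx d) (l : List (Vx d))
    (h : Pth (shift a η) x l) : Pth η (x + a) (l.map fun y => y + a) := by
  induction l generalizing x with
  | nil => trivial
  | cons y l ih =>
    obtain ⟨⟨s, hs, rfl⟩, hl⟩ := h
    refine ⟨⟨s, ?_, ?_⟩, ih _ hl⟩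
    · rw [shift_bond] at hs; exact hs
    · exact add_right_comm _ _ _

omit [NeZero d] in
private theorem statB_lst (a : Vx d) (x : Vx d) (l : List (Vx d)) :
    lst (x + a) (l.map fun y => y + a) = lst x l + a := by
  induction l generalizing x with
  | nil => rfl
  | cons y l ih => rw [List.map_cons, lst_cons, lst_cons, ih]

private theorem statB_pipe (L : ℕ) (a : Vx d) (η : Cfg d) (v : Vx d)
    (h : Pipe (shift a η) L v) : Pipe η L (v + a) := by
  intro k h1 h2 s
  rw [← h k h1 h2 s, shift_bond]
  have : v + a + (k : ℤ) • (e1 : Vx d) = v + (k : ℤ) • (e1 : Vx d) + a := add_right_comm _ _ _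
  rw [this]

private theorem statB_PB (L : ℕ) (a v y : Vx d) (h : y ∈ PB L v) : y + a ∈ PB L (v + a) := by
  unfold PB at h ⊢
  rw [Finset.mem_image] at h ⊢
  obtain ⟨k, hk, rfl⟩ := h
  exact ⟨k, hk, add_right_comm _ _ _⟩

private theorem statB_good (L R : ℕ) (a : Vx d) (η : Cfg d) (x : Vx d)
    (h : Good (shift a η) L R x) : Good η L R (x + a) := by
  obtain ⟨l, hl, hp, v, hv, hy⟩ := h
  refine ⟨l.map fun y => y + a, by rw [List.length_map]; exact hl, statB_pth a η x l hp,
    v + a, statB_pipe L a η v hv, ?_⟩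
  rw [statB_lst]
  exact statB_PB L a v _ hy

omit [NeZero d] in
private theorem statB_neg (a : Vx d) (η : Cfg d) : shift (-a) (shift a η) = η := by
  funext b
  unfold shift
  simp only [neg_add_cancel_right]

theorem good_shift (L R : ℕ) (a : Vx d) (η : Cfg d) (x : Vx d) :
    Good (shift a η) L R x ↔ Good η L R (x + a) := by
  constructor
  · exact statB_good L R a η x
  · intro h
    have h2 : Good (shift (-a) (shift a η)) L R (x + a) := by rw [statB_neg]; exact h
    have h3 := statB_good L R (-a) (shift a η) (x + a) h2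
    rwa [add_neg_cancel_right] at h3

theorem cb_shift (L R tb K : ℕ) (a : Vx d) (η : Cfg d) (x : Vx d) :
    cb (shift a η) L R tb K x = cb η L R tb K (x + a) := by
  induction K generalizing a η x with
  | zero => rfl
  | succ K ih =>
    change ind (¬ Good (shift a η) L R x) +
        walkE (shift a η) tb x (fun l => cb (shift a η) L R tb K (lst x l)) =
      ind (¬ Good η L R (x + a)) +
        walkE η tb (x + a) fun l => cb η L R tb K (lst (x + a) l)
    rw [ind_congr (not_congr (good_shift L R a η x)),
      walkE_shift a η tb x (f := fun η x => cb η L R tb K x) (fun η x => by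
        rw [ih, zero_add])]

theorem cb_nonneg (η : Cfg d) (L R tb K : ℕ) (x : Vx d) : 0 ≤ cb η L R tb K x := by
  induction K generalizing x with
  | zero => exact le_rfl
  | succ K ih =>
    change 0 ≤ ind (¬ Good η L R x) + walkE η tb x fun l => cb η L R tb K (lst x l)
    exact add_nonneg (ind_nonneg _) (walkE_nonneg η tb x fun l => ih _)

theorem cb_le (η : Cfg d) (L R tb K : ℕ) (x : Vx d) : cb η L R tb K x ≤ K := by
  induction K generalizing x with
  | zero =>
    change (0 : ℝ) ≤ ((0 : ℕ) : ℝ)
    simp
  | succ K ih =>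
    change ind (¬ Good η L R x) + walkE η tb x (fun l => cb η L R tb K (lst x l)) ≤ _
    have h1 := ind_le_one (¬ Good η L R x)
    have h2 : walkE η tb x (fun l => cb η L R tb K (lst x l)) ≤ K :=
      (walkE_mono η tb x fun l _ _ => ih (lst x l)).trans
        (walkE_const_le η tb x (Nat.cast_nonneg K))
    push_cast
    linarith

omit [NeZero d] in
private theorem statB_deg_le (η : Cfg d) (x : Vx d) : (deg η x : ℝ) ≤ 2 * d := by
  have h : deg η x ≤ 2 * d := by
    unfold deg
    refine (Finset.card_filter_le _ _).trans ?_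
    rw [Finset.card_univ, Fintype.card_prod, Fintype.card_fin, Fintype.card_bool]
    omega
  exact_mod_cast h

omit [NeZero d] in
private theorem statB_int {μ : Measure (Cfg d)} [IsProbabilityMeasure μ] {g : Cfg d → ℝ}
    (hg : Measurable g) {C : ℝ} (hC : ∀ η, |g η| ≤ C) :
    Integrable (fun η => (deg η 0 : ℝ) * g η) μ := by
  refine Integrable.of_bound ((meas_deg 0).mul hg).aestronglyMeasurable (2 * d * C)
    (ae_of_all _ fun η => ?_)
  rw [Real.norm_eq_abs, abs_mul, Nat.abs_cast]
  exact mul_le_mul (statB_deg_le η 0) (hC η) (abs_nonneg _) (by positivity)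

/-- The expected number of bad starts is `K` times the probability of a bad start. -/
theorem integral_cb {μ : Measure (Cfg d)} [IsProbabilityMeasure μ] (h : TransInv μ)
    (L R tb K : ℕ) :
    ∫ η, (deg η 0 : ℝ) * (ind (InfC η 0) * cb η L R tb K 0) ∂μ =
      K * ∫ η, (deg η 0 : ℝ) * (ind (InfC η 0) * ind (¬ Good η L R 0)) ∂μ := by
  induction K with
  | zero =>
    have e : ∀ η : Cfg d, (deg η 0 : ℝ) * (ind (InfC η 0) * cb η L R tb 0 0) = 0 := by
      intro η
      change (deg η 0 : ℝ) * (ind (InfC η 0) * 0) = 0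
      ring
    simp only [e]
    simp
  | succ K ih =>
    have hinf : Measurable fun η : Cfg d => ind (InfC η 0) := meas_ind (meas_infC 0)
    have hf1 : ∀ (η : Cfg d) (x : Vx d), ind (InfC η x) * cb η L R tb K x =
        ind (InfC (shift x η) 0) * cb (shift x η) L R tb K 0 := by
      intro η x
      rw [ind_congr (infC_shift x η 0), cb_shift, zero_add]
    have hf2 : ∀ x : Vx d, Measurable fun η : Cfg d => ind (InfC η x) * cb η L R tb K x :=
      fun x => (meas_ind (meas_infC x)).mul (meas_cb L R tb K x)
    have hf3 : ∀ (η : Cfg d) (x : Vx d), |ind (InfC η x) * cb η L R tb K x| ≤ K := by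
      intro η x
      have h1 := ind_le_one (InfC η x)
      have h2 := ind_nonneg (InfC η x)
      have h3 := cb_le η L R tb K x
      have h4 := cb_nonneg η L R tb K x
      rw [abs_of_nonneg (mul_nonneg h2 h4)]
      calc ind (InfC η x) * cb η L R tb K x ≤ 1 * K := mul_le_mul h1 h3 h4 zero_le_one
        _ = K := one_mul _
    have hst := stat h hf1 hf2 hf3 tb
    have hw : ∀ η : Cfg d, walkE η tb 0 (fun l => ind (InfC η (lst 0 l)) * cb η L R tb K (lst 0 l))
        = ind (InfC η 0) * walkE η tb 0 (fun l => cb η L R tb K (lst 0 l)) := by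
      intro η
      rw [← walkE_mul]
      refine walkE_congr η tb 0 fun l _ hl => ?_
      have : InfC η (lst 0 l) ↔ InfC η 0 := by
        unfold InfC
        rw [cluster_lst η hl]
      rw [ind_congr this]
    have e : ∀ η : Cfg d, (deg η 0 : ℝ) * (ind (InfC η 0) * cb η L R tb (K + 1) 0) =
        (deg η 0 : ℝ) * (ind (InfC η 0) * ind (¬ Good η L R 0)) +
        (deg η 0 : ℝ) * walkE η tb 0
          (fun l => ind (InfC η (lst 0 l)) * cb η L R tb K (lst 0 l)) := by
      intro η
      rw [hw]
      change (deg η 0 : ℝ) * (ind (InfC η 0) * (ind (¬ Good η L R 0) +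
        walkE η tb 0 fun l => cb η L R tb K (lst 0 l))) = _
      ring
    simp only [e]
    have hb : MeasurableSet {η : Cfg d | ¬ Good η L R 0} := (meas_good L R 0).compl
    rw [integral_add, hst, ih]
    · push_cast
      ring
    · refine statB_int (hinf.mul (meas_ind hb)) (C := 1) fun η => ?_
      have h1 := ind_le_one (InfC η 0)
      have h2 := ind_nonneg (InfC η 0)
      have h3 := ind_le_one (¬ Good η L R 0)
      have h4 := ind_nonneg (¬ Good η L R 0)
      rw [abs_of_nonneg (mul_nonneg h2 h4)]
      calc ind (InfC η 0) * ind (¬ Good η L R 0) ≤ 1 * 1 := mul_le_mul h1 h3 h4 zero_le_one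
        _ = 1 := one_mul _
    · refine statB_int (meas_walkE (fun l => hf2 (lst 0 l)) tb 0) (C := K) fun η => ?_
      rw [hw]
      have h1 := ind_le_one (InfC η 0)
      have h2 := ind_nonneg (InfC η 0)
      have h3 : walkE η tb 0 (fun l => cb η L R tb K (lst 0 l)) ≤ K :=
        (walkE_mono η tb 0 fun l _ _ => cb_le η L R tb K (lst 0 l)).trans
          (walkE_const_le η tb 0 (Nat.cast_nonneg K))
      have h4 : 0 ≤ walkE η tb 0 (fun l => cb η L R tb K (lst 0 l)) :=
        walkE_nonneg η tb 0 fun l => cb_nonneg η L R tb K (lst 0 l)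
      rw [abs_of_nonneg (mul_nonneg h2 h4)]
      calc ind (InfC η 0) * walkE η tb 0 (fun l => cb η L R tb K (lst 0 l)) ≤ 1 * K :=
            mul_le_mul h1 h3 h4 zero_le_one
        _ = K := one_mul _

end Pool.Agent.MP_f3fa2b_pr
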