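import Pool.Agent.Lib.MP_f3fa2b_pr.Exist
import Pool.Agent.Lib.MP_f3fa2b_pr.StatB
import Pool.Agent.Lib.MP_f3fa2b_pr.Hm

/-!
(C) The probability of no stay tends to zero along a subsequence, almost surely.
-/

namespace Pool.Agent.MP_f3fa2b_pr

open MeasureTheory ProbabilityTheory Filter Topology
open scoped ENNReal

variable {d : ℕ} [NeZero d]

private theorem hm_nonneg (η : Cfg d) (j m : ℕ) : 0 ≤ hm η j m :=
  walkE_nonneg η _ 0 fun _ => ind_nonneg _

private theorem hm_le_one (η : Cfg d) (j m : ℕ) : hm η j m ≤ 1 :=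
  (walkE_mono η _ 0 fun _ _ _ => ind_le_one _).trans (walkE_const_le η _ 0 zero_le_one)

private theorem meas_hm (j m : ℕ) : Measurable fun η : Cfg d => hm η j m :=
  meas_walkE (F := fun η l => ind (¬ HasStay η (10 * j - 1) (10 * j ^ 2 * m) l))
    (fun l => meas_ind (meas_hasStay _ _ l).compl) _ 0

private theorem meas_term (j m : ℕ) :
    Measurable fun η : Cfg d => ind (InfC η 0) * hm η j m :=
  (meas_ind (meas_infC 0)).mul (meas_hm j m)

private theorem term_nonneg (η : Cfg d) (j m : ℕ) : 0 ≤ ind (InfC η 0) * hm η j m :=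
  mul_nonneg (ind_nonneg _) (hm_nonneg η j m)

private theorem int_term {μ : Measure (Cfg d)} [IsProbabilityMeasure μ] (j m : ℕ) :
    Integrable (fun η => ind (InfC η 0) * hm η j m) μ := by
  refine Integrable.of_bound (meas_term j m).aestronglyMeasurable 1 (Eventually.of_forall fun η => ?_)
  rw [Real.norm_of_nonneg (term_nonneg η j m)]
  exact mul_le_one₀ (ind_le_one _) (hm_nonneg η j m) (hm_le_one η j m)

omit [NeZero d] in
private theorem deg_le (η : Cfg d) (x : Vx d) : (deg η x : ℝ) ≤ d * 2 := by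
  have h : deg η x ≤ d * 2 := by
    unfold deg
    refine (Finset.card_filter_le _ _).trans ?_
    simp
  exact_mod_cast h

theorem integral_hm {μ : Measure (Cfg d)} [IsProbabilityMeasure μ] (h : TransInv μ)
    (he : FiniteEnergy μ) {j : ℕ} (hj : 1 ≤ j) :
    Tendsto (fun m : ℕ => ∫ η, ind (InfC η 0) * hm η j m ∂μ) atTop (𝓝 0) := by
  have hL : 1 ≤ 10 * j - 1 := by omega
  rw [Metric.tendsto_atTop]
  intro ε hε
  -- choice of the radius
  obtain ⟨R, hR⟩ : ∃ R : ℕ, ∫ η, (deg η 0 : ℝ) * (ind (InfC η 0) *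
      ind (¬ Good η (10 * j - 1) R 0)) ∂μ < ε / 4 :=
    ((bad_tendsto h he hL).eventually (gt_mem_nhds (by linarith))).exists
  obtain ⟨c, hc, hle⟩ := hm_le (d := d) hj R
  have hexp : Tendsto (fun m : ℕ => Real.exp (-(c * 2 ^ m))) atTop (𝓝 0) :=
    Real.tendsto_exp_neg_atTop_nhds_zero.comp
      ((tendsto_pow_atTop_atTop_of_one_lt (one_lt_two : (1 : ℝ) < 2)).const_mul_atTop hc)
  obtain ⟨M, hM⟩ := eventually_atTop.1 (hexp.eventually (gt_mem_nhds (half_pos hε)))
  refine ⟨max R M, fun m hm' => ?_⟩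
  have hRm : R ≤ m := (le_max_left _ _).trans hm'
  have hMm : M ≤ m := (le_max_right _ _).trans hm'
  have h4 : (0 : ℝ) < 4 ^ m := by positivity
  have hint : Integrable (fun η => (deg η 0 : ℝ) * (ind (InfC η 0) *
      cb η (10 * j - 1) R (tb j m) (4 ^ m) 0)) μ := by
    refine Integrable.of_bound ((meas_deg 0).mul ((meas_ind (meas_infC 0)).mul
      (meas_cb _ _ _ _ 0))).aestronglyMeasurable (d * 2 * (1 * ((4 ^ m : ℕ) : ℝ)))
      (Eventually.of_forall fun η => ?_)
    have h0 := cb_nonneg η (10 * j - 1) R (tb j m) (4 ^ m) 0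
    rw [Real.norm_of_nonneg (mul_nonneg (Nat.cast_nonneg _) (mul_nonneg (ind_nonneg _) h0))]
    exact mul_le_mul (deg_le η 0) (mul_le_mul (ind_le_one _) (cb_le _ _ _ _ _ _) h0 zero_le_one)
      (mul_nonneg (ind_nonneg _) h0) (by positivity)
  have hpt : ∀ η : Cfg d, ind (InfC η 0) * hm η j m ≤ Real.exp (-(c * 2 ^ m)) +
      2 / 4 ^ m * ((deg η 0 : ℝ) * (ind (InfC η 0) *
        cb η (10 * j - 1) R (tb j m) (4 ^ m) 0)) := by
    intro η
    have h0 := cb_nonneg η (10 * j - 1) R (tb j m) (4 ^ m) 0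
    by_cases hi : InfC η 0
    · rw [ind_pos hi, one_mul, one_mul]
      have hdeg : (1 : ℝ) ≤ deg η 0 := by exact_mod_cast deg_pos_of_infC η hi
      refine (hle η m hRm).trans (add_le_add le_rfl ?_)
      refine mul_le_mul_of_nonneg_left ?_ (by positivity)
      exact le_mul_of_one_le_left h0 hdeg
    · rw [ind_neg hi, zero_mul, zero_mul, mul_zero, mul_zero, add_zero]
      exact (Real.exp_pos _).le
  have hI : ∫ η, ind (InfC η 0) * hm η j m ∂μ ≤ Real.exp (-(c * 2 ^ m)) +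
      2 * ∫ η, (deg η 0 : ℝ) * (ind (InfC η 0) * ind (¬ Good η (10 * j - 1) R 0)) ∂μ := by
    have hI1 : ∫ η, ind (InfC η 0) * hm η j m ∂μ ≤ ∫ η, (Real.exp (-(c * 2 ^ m)) +
        2 / 4 ^ m * ((deg η 0 : ℝ) * (ind (InfC η 0) *
          cb η (10 * j - 1) R (tb j m) (4 ^ m) 0))) ∂μ :=
      integral_mono (int_term j m) ((integrable_const _).add (hint.const_mul _)) hpt
    rw [integral_add (integrable_const _) (hint.const_mul _), integral_const_mul,
      integral_cb h, integral_const, probReal_univ, one_smul, ← mul_assoc] at hI1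
    have e : (2 : ℝ) / 4 ^ m * ((4 ^ m : ℕ) : ℝ) = 2 := by
      push_cast
      field_simp
    rwa [e] at hI1
  rw [Real.dist_eq, sub_zero, abs_of_nonneg (integral_nonneg fun η => term_nonneg η j m)]
  have h5 := hM m hMm
  linarith

theorem hm_small {μ : Measure (Cfg d)} [IsProbabilityMeasure μ] (h : TransInv μ)
    (he : FiniteEnergy μ) {j : ℕ} (hj : 1 ≤ j) :
    ∀ᵐ η ∂μ, InfC η 0 → ∀ ε > 0, ∀ N : ℕ, ∃ m ≥ N, hm η j m ≤ ε := by
  have key : ∀ k N : ℕ, ∀ᵐ η ∂μ, InfC η 0 → ∃ m ≥ N, hm η j m ≤ 1 / ((k : ℝ) + 1) := by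
    intro k N
    rw [ae_iff]
    set A : Set (Cfg d) := {η | ¬ (InfC η 0 → ∃ m ≥ N, hm η j m ≤ 1 / ((k : ℝ) + 1))} with hA
    have hk : (0 : ℝ) < 1 / ((k : ℝ) + 1) := by positivity
    have h1 : ∀ m, N ≤ m → 1 / ((k : ℝ) + 1) * μ.real A ≤
        ∫ η, ind (InfC η 0) * hm η j m ∂μ := by
      intro m hNm
      refine le_trans ?_ (mul_meas_ge_le_integral_of_nonneg
        (Eventually.of_forall fun η => term_nonneg η j m) (int_term j m) (1 / ((k : ℝ) + 1)))
      refine mul_le_mul_of_nonneg_left (measureReal_mono ?_) hk.le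
      intro η hη
      have hη' : ¬ (InfC η 0 → ∃ m ≥ N, hm η j m ≤ 1 / ((k : ℝ) + 1)) := hη
      push Not at hη'
      change 1 / ((k : ℝ) + 1) ≤ ind (InfC η 0) * hm η j m
      rw [ind_pos hη'.1, one_mul]
      exact (hη'.2 m hNm).le
    have h2 : 1 / ((k : ℝ) + 1) * μ.real A ≤ 0 :=
      ge_of_tendsto (integral_hm h he hj) (eventually_atTop.2 ⟨N, h1⟩)
    have h3 : μ.real A = 0 := by
      refine le_antisymm ?_ measureReal_nonneg
      by_contra h4
      push Not at h4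
      exact absurd h2 (not_le.2 (mul_pos hk h4))
    exact (measureReal_eq_zero_iff (measure_ne_top μ A)).1 h3
  filter_upwards [ae_all_iff.2 fun k => ae_all_iff.2 fun N => key k N] with η hη hinf ε hε N
  obtain ⟨k, hk⟩ := exists_nat_one_div_lt hε
  obtain ⟨m, hm', hle⟩ := hη k N hinf
  exact ⟨m, hm', hle.trans hk.le⟩

end Pool.Agent.MP_f3fa2b_pr
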