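import Pool.Agent.Lib.MP_f3fa2b_pr.Prod

/-!
Conditional expectation of the weight of a path.
-/

namespace Pool.Agent.MP_f3fa2b_pr

open MeasureTheory ProbabilityTheory Filter Topology
open scoped ENNReal

variable {d : ℕ} {Ω : Type*} [m0 : MeasurableSpace Ω] {P : Measure Ω} [IsProbabilityMeasure P]

/-- The σ-algebra of the field up to time `n`. -/
abbrev sg (ω : ℕ → Vx d → Ω → ℝ) (n : ℕ) : MeasurableSpace Ω :=
  ⨆ z ∈ {z : ℕ × Vx d | z.1 ≤ n}, MeasurableSpace.comap (ω z.1 z.2) inferInstance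

theorem sg_le {ω : ℕ → Vx d → Ω → ℝ} (h : IIDField P ω) (n : ℕ) : sg ω n ≤ m0 :=
  iSup₂_le fun z _ => (h.meas z.1 z.2).comap_le

/-- The filtration of the field. -/
def fil {ω : ℕ → Vx d → Ω → ℝ} (h : IIDField P ω) : Filtration ℕ m0 where
  seq := sg ω
  mono' := fun _ _ hij => biSup_mono fun _ hz => le_trans hz hij
  le' := sg_le h

theorem wt_sm {ω : ℕ → Vx d → Ω → ℝ} (β lam : ℝ) {l : List (Vx d)} {n : ℕ}
    (hl : l.length ≤ n) : StronglyMeasurable[sg ω n] (wt β lam ω l) := by
  have e : wt β lam ω l = fun a => ∏ z ∈ sites l, gw β lam (ω z.1 z.2 a) := by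
    funext a
    exact wt_eq_prod β lam ω l a
  rw [e]
  refine Measurable.stronglyMeasurable ?_
  refine Finset.measurable_prod (sites l) fun z hz => ?_
  have hzn : z.1 ≤ n := by
    unfold sites at hz
    obtain ⟨i, hi, rfl⟩ := Finset.mem_image.1 hz
    have := Finset.mem_range.1 hi
    show i + 1 ≤ n
    omega
  have h1 : Measurable[sg ω n] (ω z.1 z.2) := by
    refine Measurable.of_comap_le ?_
    exact le_biSup (fun z : ℕ × Vx d => MeasurableSpace.comap (ω z.1 z.2) inferInstance)
      (show z ∈ {z : ℕ × Vx d | z.1 ≤ n} from hzn)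
  exact (meas_gw β lam).comp h1

private theorem wt_concat (β lam : ℝ) (ω : ℕ → Vx d → Ω → ℝ) (l : List (Vx d)) (y : Vx d) :
    wt β lam ω (l ++ [y]) = wt β lam ω l * fun a => gw β lam (ω (l.length + 1) y a) := by
  funext a
  rw [Pi.mul_apply]
  unfold wt gw
  rw [List.mapIdx_concat, List.sum_append, List.sum_singleton, Real.exp_add]

/-- One more step does not change the conditional expectation. -/
theorem wt_condExp {ω : ℕ → Vx d → Ω → ℝ} (h : IIDField P ω) {β : ℝ}
    (hi : Integrable (fun a => Real.exp (β * ω 1 0 a)) P) (l : List (Vx d)) (y : Vx d) :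
    P[wt β (cgf (ω 1 0) P β) ω (l ++ [y])|sg ω l.length] =ᵐ[P] wt β (cgf (ω 1 0) P β) ω l := by
  obtain ⟨g, hg⟩ : ∃ g : Ω → ℝ,
      g = fun a => gw β (cgf (ω 1 0) P β) (ω (l.length + 1) y a) := ⟨_, rfl⟩
  have e : wt β (cgf (ω 1 0) P β) ω (l ++ [y]) = wt β (cgf (ω 1 0) P β) ω l * g := by
    rw [hg]
    exact wt_concat β _ ω l y
  have hid : IdentDistrib g (fun a => gw β (cgf (ω 1 0) P β) (ω 1 0 a)) P P := by
    rw [hg]
    exact (h.ident (l.length + 1) y).comp (meas_gw β _)
  have hgi : Integrable g P := hid.integrable_iff.mpr (gw_integrable hi _)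
  have hg1 : ∫ a, g a ∂P = 1 := by
    rw [hid.integral_eq]
    exact gw_integral (h.meas 1 0) hi
  have hli : Integrable (wt β (cgf (ω 1 0) P β) ω l * g) P := by
    rw [← e]
    exact (wt_int h hi (l ++ [y])).1
  have h1 : P[wt β (cgf (ω 1 0) P β) ω l * g|sg ω l.length] =ᵐ[P]
      wt β (cgf (ω 1 0) P β) ω l * P[g|sg ω l.length] :=
    condExp_mul_of_stronglyMeasurable_left (wt_sm β _ le_rfl) hli hgi
  have hmg : StronglyMeasurable[MeasurableSpace.comap (ω (l.length + 1) y) inferInstance] g := by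
    refine Measurable.stronglyMeasurable ?_
    rw [hg]
    exact (meas_gw β _).comp (comap_measurable _)
  have hind : Indep (MeasurableSpace.comap (ω (l.length + 1) y) inferInstance)
      (sg ω l.length) P := by
    have h2 := indep_iSup_of_disjoint
      (m := fun z : ℕ × Vx d => MeasurableSpace.comap (ω z.1 z.2) inferInstance)
      (fun z => (h.meas z.1 z.2).comap_le) h.indep
      (S := {(l.length + 1, y)}) (T := {z : ℕ × Vx d | z.1 ≤ l.length}) (by
        rw [Set.disjoint_singleton_left]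
        intro hz
        have hz' : l.length + 1 ≤ l.length := hz
        omega)
    rw [iSup_singleton] at h2
    exact h2
  have h3 : P[g|sg ω l.length] =ᵐ[P] fun _ => (1 : ℝ) := by
    have h4 := condExp_indep_eq (h.meas (l.length + 1) y).comap_le (sg_le h l.length) hmg hind
    rw [hg1] at h4
    exact h4
  rw [e]
  filter_upwards [h1, h3] with a ha hb
  rw [ha, Pi.mul_apply, hb, mul_one]

end Pool.Agent.MP_f3fa2b_pr
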