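import Mathlib

/-!
Directed polymer on percolation clusters of `ℤ^d`: definitions.
-/

namespace Pool.Agent.MP_f3fa2b_pr

open MeasureTheory ProbabilityTheory Filter Topology
open scoped ENNReal

variable {d : ℕ}

/-- Vertices of `ℤ^d`. -/
abbrev Vx (d : ℕ) := Fin d → ℤ

/-- The bond `(x, i)` joins `x` and `x + e_i`. -/
abbrev Bond (d : ℕ) := Vx d × Fin d

/-- Bond configurations; `true` means open. -/
abbrev Cfg (d : ℕ) := Bond d → Bool

/-- The unit vector `e_i`. -/
def ev (i : Fin d) : Vx d := Pi.single i 1

/-- The `2d` directions: `(i, true)` is `e_i`, `(i, false)` is `-e_i`. -/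
abbrev Step (d : ℕ) := Fin d × Bool

/-- The vector of a direction. -/
def vec (s : Step d) : Vx d := if s.2 then ev s.1 else - ev s.1

/-- The bond between `x` and `x + vec s`. -/
def bond (x : Vx d) (s : Step d) : Bond d := if s.2 then (x, s.1) else (x - ev s.1, s.1)

/-- Number of open bonds at `x`. -/
def deg (η : Cfg d) (x : Vx d) : ℕ := (Finset.univ.filter fun s : Step d => η (bond x s) = true).card

/-- The open cluster of `x`: all vertices which are joined to `x` by a path of open bonds. -/
def cluster (η : Cfg d) (x : Vx d) : Set (Vx d) :=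
  {y | Relation.ReflTransGen (fun u v => ∃ s : Step d, η (bond u s) = true ∧ v = u + vec s) x y}

/-- `walkE η n x F = E^X[F(X_1, ..., X_n)]` for simple random walk `X` on the open cluster of `x`,
started at `X_0 = x`: at each step it moves along a uniformly chosen open bond. -/
noncomputable def walkE (η : Cfg d) : ℕ → Vx d → (List (Vx d) → ℝ) → ℝ
  | 0, _, F => F []
  | n + 1, x, F =>
      (∑ s : Step d, if η (bond x s) = true then
        walkE η n (x + vec s) (fun l => F ((x + vec s) :: l)) else 0) / deg η x

/-- The partition function `W_n(β) = E^X[exp(∑_{i=1}^n (β ω(i,X_i) - λ))]` (`lam = λ(β)`). -/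
noncomputable def W (η : Cfg d) (β lam : ℝ) (ω : ℕ → Vx d → ℝ) (n : ℕ) : ℝ :=
  walkE η n 0 fun l => Real.exp ((l.mapIdx fun i y => β * ω (i + 1) y - lam).sum)

/-- `ω` is a field of independent, identically distributed, non-constant real random variables. -/
structure IIDField {Ω : Type*} [MeasurableSpace Ω] (P : Measure Ω) (ω : ℕ → Vx d → Ω → ℝ) : Prop where
  meas : ∀ i x, Measurable (ω i x)
  indep : iIndepFun (fun z : ℕ × Vx d => ω z.1 z.2) P
  ident : ∀ i x, IdentDistrib (ω i x) (ω 1 0) P P
  nonconst : ¬ ∃ c : ℝ, ω 1 0 =ᵐ[P] fun _ => c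

/-- Strong disorder at every inverse temperature `β > 0`, for every i.i.d. field with
`E exp(β ω) < ∞`: the partition function tends to `0` almost surely.
Here `cgf (ω 1 0) P β = log E exp(β ω(1,0)) = λ(β)`. -/
def StrongDisorder.{u} (η : Cfg d) : Prop :=
  ∀ (Ω : Type u) [MeasurableSpace Ω] (P : Measure Ω) [IsProbabilityMeasure P]
    (ω : ℕ → Vx d → Ω → ℝ), IIDField P ω → ∀ β : ℝ, 0 < β →
    Integrable (fun a => Real.exp (β * ω 1 0 a)) P →
    ∀ᵐ a ∂P, Tendsto (fun n => W η β (cgf (ω 1 0) P β) (fun i x => ω i x a) n) atTop (𝓝 0)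

/-- Translation of a configuration. -/
def shift (a : Vx d) (η : Cfg d) : Cfg d := fun b => η (b.1 + a, b.2)

/-- The law `μ` of the percolation is invariant under all translations of `ℤ^d`. -/
def TransInv (μ : Measure (Cfg d)) : Prop := ∀ a : Vx d, μ.map (shift a) = μ

/-- Finite energy: opening or closing one bond preserves `μ`-null sets. -/
def FiniteEnergy (μ : Measure (Cfg d)) : Prop :=
  ∀ (b : Bond d) (v : Bool), μ.map (fun η => Function.update η b v) ≪ μ

/-- Bernoulli bond percolation with parameter `p`: every bond is open with probability `p`,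
independently. -/
noncomputable def bernoulli (d : ℕ) (p : ℝ) : Measure (Cfg d) :=
  Measure.infinitePi fun _ : Bond d =>
    ENNReal.ofReal p • Measure.dirac true + ENNReal.ofReal (1 - p) • Measure.dirac false

end Pool.Agent.MP_f3fa2b_pr
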