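import Pool.Agent.Lib.MP_f3fa2b_pr.Path

/-!
(D) The local modification which creates a pipe.
-/

namespace Pool.Agent.MP_f3fa2b_pr

open MeasureTheory ProbabilityTheory Filter Topology
open scoped ENNReal

variable {d : ℕ} [NeZero d]

/-- The segment `{k e_1 : |k| ≤ L + 1}`. -/
noncomputable def Seg (d : ℕ) [NeZero d] (L : ℕ) : Finset (Vx d) :=
  (Finset.Icc (-(L + 1 : ℤ)) (L + 1)).image fun k : ℤ => k • e1

/-- The bonds which touch the segment. -/
noncomputable def segBonds (d : ℕ) [NeZero d] (L : ℕ) : Finset (Bond d) :=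
  (Seg d L ×ˢ (Finset.univ : Finset (Step d))).image fun p => bond p.1 p.2

omit [NeZero d] in
private theorem vec_rev (s : Step d) : vec (s.1, !s.2) = -vec s := by
  obtain ⟨i, b⟩ := s
  cases b <;> simp [vec]

omit [NeZero d] in
private theorem bond_rev (x : Vx d) (s : Step d) : bond (x + vec s) (s.1, !s.2) = bond x s := by
  obtain ⟨i, b⟩ := s
  cases b <;> simp [vec, bond, sub_eq_add_neg]

omit [NeZero d] in
private theorem bond_eq {x y : Vx d} {s t : Step d} (h : bond x s = bond y t) :
    (x = y ∧ s = t) ∨ (y = x + vec s ∧ t = (s.1, !s.2)) := by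
  obtain ⟨i, b⟩ := s
  obtain ⟨j, c⟩ := t
  cases b <;> cases c <;> simp only [bond, Bool.false_eq_true, if_true, if_false, Prod.mk.injEq,
    vec, Bool.not_true, Bool.not_false] at h ⊢
  · obtain ⟨h1, rfl⟩ := h
    left
    exact ⟨sub_left_injective h1, rfl, trivial⟩
  · obtain ⟨h1, rfl⟩ := h
    right
    refine ⟨?_, rfl, trivial⟩
    rw [← h1]; abel
  · obtain ⟨h1, rfl⟩ := h
    right
    refine ⟨?_, rfl, trivial⟩
    rw [h1]; abel
  · obtain ⟨h1, rfl⟩ := h
    left
    exact ⟨h1, rfl, trivial⟩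

private theorem mem_Seg {L : ℕ} {x : Vx d} :
    x ∈ Seg d L ↔ ∃ k : ℤ, (-(L + 1 : ℤ) ≤ k ∧ k ≤ L + 1) ∧ k • e1 = x := by
  simp [Seg]

private theorem mem_segBonds {L : ℕ} {x : Vx d} {s : Step d} :
    bond x s ∈ segBonds d L ↔ x ∈ Seg d L ∨ x + vec s ∈ Seg d L := by
  constructor
  · intro h
    unfold segBonds at h
    rw [Finset.mem_image] at h
    obtain ⟨⟨z, t⟩, hz, hb⟩ := h
    rw [Finset.mem_product] at hz
    rcases bond_eq hb with ⟨h1, -⟩ | ⟨h1, h2⟩
    · left
      rw [← show z = x from h1]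
      exact hz.1
    · right
      have h3 : x + vec s = z := by
        rw [h2, vec_rev, show x = z + vec t from h1]
        simp
      rw [h3]
      exact hz.1
  · intro h
    unfold segBonds
    rw [Finset.mem_image]
    rcases h with h | h
    · exact ⟨(x, s), by simp [h], rfl⟩
    · exact ⟨(x + vec s, (s.1, !s.2)), by simp [h], bond_rev x s⟩

omit [NeZero d] in
private theorem cluster_trans {η : Cfg d} {x y : Vx d} (h : y ∈ cluster η x) :
    cluster η y = cluster η x := by
  obtain ⟨l, hl, rfl⟩ := (mem_cluster_iff η x y).mp h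
  exact cluster_lst η hl

omit [NeZero d] in
private theorem cluster_step {η : Cfg d} {x u : Vx d} {s : Step d} (h : u ∈ cluster η x)
    (hs : η (bond u s) = true) : u + vec s ∈ cluster η x :=
  Relation.ReflTransGen.tail h ⟨s, hs, rfl⟩

/-- Step 1: the cluster of the origin is covered by the segment and closed clusters. -/
private theorem cover {L : ℕ} {η : Cfg d} {u : Vx d} (hu : u ∈ cluster η 0) :
    u ∈ Seg d L ∨ ∃ z ∈ Seg d L, ∃ s : Step d, z + vec s ∉ Seg d L ∧ z + vec s ∈ cluster η 0 ∧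
      u ∈ cluster (modify (segBonds d L) ∅ η) (z + vec s) := by
  induction hu with
  | refl =>
    left
    rw [mem_Seg]
    exact ⟨0, ⟨by omega, by omega⟩, by simp⟩
  | @tail b c h1 h2 ih =>
    obtain ⟨s, hs, rfl⟩ := h2
    by_cases hc : b + vec s ∈ Seg d L
    · exact Or.inl hc
    right
    by_cases hb : b ∈ Seg d L
    · exact ⟨b, hb, s, hc, cluster_step h1 hs, Relation.ReflTransGen.refl⟩
    rcases ih with ih | ⟨z, hz, t, h3, h4, h5⟩
    · exact absurd ih hb
    refine ⟨z, hz, t, h3, h4, cluster_step h5 ?_⟩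
    have hn : bond b s ∉ segBonds d L := by
      rw [mem_segBonds]
      tauto
    unfold modify
    rw [if_neg hn]
    exact hs

/-- Step 2: one of the closed clusters is infinite. -/
private theorem exists_inf {L : ℕ} {η : Cfg d} (h : InfC η 0) :
    ∃ z ∈ Seg d L, ∃ s : Step d, z + vec s ∉ Seg d L ∧ z + vec s ∈ cluster η 0 ∧
      InfC (modify (segBonds d L) ∅ η) (z + vec s) := by
  by_contra hn
  push Not at hn
  apply h
  have hfin : (((Seg d L : Finset (Vx d)) : Set (Vx d)) ∪
      ⋃ z ∈ (Seg d L : Finset (Vx d)), ⋃ s ∈ (Finset.univ : Finset (Step d)),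
        {u | z + vec s ∉ Seg d L ∧ z + vec s ∈ cluster η 0 ∧
          u ∈ cluster (modify (segBonds d L) ∅ η) (z + vec s)}).Finite := by
    refine (Finset.finite_toSet _).union ?_
    refine Set.Finite.biUnion (Finset.finite_toSet _) fun z hz => ?_
    refine Set.Finite.biUnion (Finset.finite_toSet _) fun s _ => ?_
    by_cases h1 : z + vec s ∉ Seg d L ∧ z + vec s ∈ cluster η 0
    · have h2 := hn z hz s h1.1 h1.2
      unfold InfC at h2
      rw [Set.not_infinite] at h2
      exact h2.subset fun u hu => hu.2.2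
    · convert Set.finite_empty
      ext u
      rw [Set.mem_empty_iff_false, iff_false]
      intro hu
      exact h1 ⟨hu.1, hu.2.1⟩
  refine hfin.subset fun u hu => ?_
  rcases cover (L := L) hu with h1 | ⟨z, hz, s, h1, h2, h3⟩
  · left
    exact h1
  · right
    simp only [Set.mem_iUnion]
    exact ⟨z, hz, s, Finset.mem_univ s, h1, h2, h3⟩

/-- The opened bonds. -/
private noncomputable def Op (d : ℕ) [NeZero d] (L : ℕ) (z v : Vx d) (s : Step d) :
    Finset (Bond d) :=
  insert (bond z s) ((Finset.range (L + 1)).image fun i : ℕ =>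
    bond (v + (i : ℤ) • e1) ((0 : Fin d), true))

private theorem mem_Op {L : ℕ} {z v : Vx d} {s : Step d} {b : Bond d} :
    b ∈ Op d L z v s ↔ b = bond z s ∨
      ∃ i : ℕ, i < L + 1 ∧ bond (v + (i : ℤ) • e1) ((0 : Fin d), true) = b := by
  simp [Op]

private theorem vec_e1 : vec ((0 : Fin d), true) = (e1 : Vx d) := rfl

private theorem vec_ne1 : vec ((0 : Fin d), false) = -(e1 : Vx d) := rfl

private theorem e1_ne : (e1 : Vx d) ≠ 0 := by
  intro h
  have := congrFun h 0
  simp [e1, ev] at this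

private theorem smul_e1_inj {a b : ℤ} (h : a • (e1 : Vx d) = b • e1) : a = b := by
  have := congrFun h 0
  simpa [e1, ev] using this

section main

variable {L : ℕ} {η : Cfg d} {z v : Vx d} {s : Step d}

private theorem seg_line (hv : ∀ i : ℕ, i ≤ L + 1 → v + (i : ℤ) • e1 ∈ Seg d L) {i : ℕ}
    (hi : i < L + 1) :
    bond (v + (i : ℤ) • e1) ((0 : Fin d), true) ∈ segBonds d L ∧
      v + (i : ℤ) • e1 ∈ Seg d L ∧ v + (i : ℤ) • e1 + vec ((0 : Fin d), true) ∈ Seg d L := by
  have h1 := hv i (by omega)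
  have h2 := hv (i + 1) (by omega)
  have h3 : v + (i : ℤ) • e1 + vec ((0 : Fin d), true) = v + ((i + 1 : ℕ) : ℤ) • e1 := by
    rw [vec_e1]; push_cast; rw [add_smul, one_smul]; abel
  exact ⟨mem_segBonds.mpr (Or.inl h1), h1, by rw [h3]; exact h2⟩

private theorem mod_in {O : Finset (Bond d)} {b : Bond d} (hb : b ∈ segBonds d L) :
    modify (segBonds d L) O η b = true ↔ b ∈ O := by
  unfold modify
  rw [if_pos hb]
  simp

private theorem mod_out {O : Finset (Bond d)} {b : Bond d} (hb : b ∉ segBonds d L) :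
    modify (segBonds d L) O η b = η b := by
  unfold modify
  rw [if_neg hb]

private theorem inf_mod {O : Finset (Bond d)} {y : Vx d}
    (h : InfC (modify (segBonds d L) ∅ η) y) : InfC (modify (segBonds d L) O η) y := by
  refine Set.Infinite.mono (fun u hu => ?_) h
  refine Relation.ReflTransGen.mono ?_ _ _ hu
  rintro a b ⟨t, ht, rfl⟩
  refine ⟨t, ?_, rfl⟩
  by_cases hb : bond a t ∈ segBonds d L
  · rw [mod_in hb] at ht
    simp at ht
  · rw [mod_out hb] at ht ⊢
    exact ht

private theorem pipe_mod (hv : ∀ i : ℕ, i ≤ L + 1 → v + (i : ℤ) • e1 ∈ Seg d L)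
    (hz : z = v ∨ z = v + ((L + 1 : ℕ) : ℤ) • e1) (hy : z + vec s ∉ Seg d L) :
    Pipe (modify (segBonds d L) (Op d L z v s) η) L v := by
  intro k h1 hk t
  have hvk := hv k (by omega)
  rw [mod_in (mem_segBonds.mpr (Or.inl hvk)), mem_Op]
  constructor
  · rintro (h | ⟨i, hi, h⟩)
    · exfalso
      rcases bond_eq h with ⟨h2, -⟩ | ⟨h2, h3⟩
      · rcases hz with rfl | rfl
        · have h4 : (k : ℤ) • (e1 : Vx d) = (0 : ℤ) • e1 := by
            rw [zero_smul]
            exact add_eq_left.mp h2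
          have := smul_e1_inj h4
          omega
        · have := smul_e1_inj (add_left_cancel h2)
          omega
      · apply hy
        have h4 : z + vec s = v + (k : ℤ) • e1 := by
          rw [h3, vec_rev, h2]; simp
        rw [h4]
        exact hvk
    · rcases bond_eq h with ⟨-, h3⟩ | ⟨-, h3⟩
      · rw [← h3]
      · rw [h3]
  · intro ht
    right
    obtain ⟨j, b⟩ := t
    simp only at ht
    subst ht
    cases b
    · refine ⟨k - 1, by omega, ?_⟩
      have h2 : v + (k : ℤ) • e1 = v + ((k - 1 : ℕ) : ℤ) • e1 + vec ((0 : Fin d), true) := by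
        rw [vec_e1]
        have : (k : ℤ) = ((k - 1 : ℕ) : ℤ) + 1 := by omega
        rw [this, add_smul, one_smul]; abel
      rw [h2]
      exact (bond_rev _ _).symm
    · exact ⟨k, by omega, rfl⟩

private theorem line_mod (hv : ∀ i : ℕ, i ≤ L + 1 → v + (i : ℤ) • e1 ∈ Seg d L) (i : ℕ)
    (hi : i ≤ L + 1) :
    v + (i : ℤ) • e1 ∈ cluster (modify (segBonds d L) (Op d L z v s) η) v := by
  induction i with
  | zero =>
    have : v + ((0 : ℕ) : ℤ) • (e1 : Vx d) = v := by simp
    rw [this]
    exact Relation.ReflTransGen.refl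
  | succ i ih =>
    have h1 := ih (by omega)
    have h2 := seg_line hv (show i < L + 1 by omega)
    have h3 := cluster_step (s := ((0 : Fin d), true)) h1
      ((mod_in h2.1).mpr (mem_Op.mpr (Or.inr ⟨i, by omega, rfl⟩)))
    have h4 : v + (i : ℤ) • e1 + vec ((0 : Fin d), true) = v + ((i + 1 : ℕ) : ℤ) • e1 := by
      rw [vec_e1]; push_cast; rw [add_smul, one_smul]; abel
    rw [← h4]
    exact h3

private theorem conn_mod (hL : 1 ≤ L) (hv : ∀ i : ℕ, i ≤ L + 1 → v + (i : ℤ) • e1 ∈ Seg d L)
    (hzS : z ∈ Seg d L) (hz : z = v ∨ z = v + ((L + 1 : ℕ) : ℤ) • e1) :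
    v + e1 ∈ cluster (modify (segBonds d L) (Op d L z v s) η) (z + vec s) := by
  set η' := modify (segBonds d L) (Op d L z v s) η with hη'
  have h1 : z ∈ cluster η' v := by
    rcases hz with rfl | hz
    · exact Relation.ReflTransGen.refl
    · rw [hz]
      exact line_mod hv (L + 1) le_rfl
  have h2 : v + e1 ∈ cluster η' v := by
    have := line_mod (η := η) (s := s) (z := z) hv 1 (by omega)
    simpa using this
  have h3 : z + vec s ∈ cluster η' z := by
    refine cluster_step (u := z) Relation.ReflTransGen.refl ?_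
    exact (mod_in (mem_segBonds.mpr (Or.inl hzS))).mpr (mem_Op.mpr (Or.inl rfl))
  rw [cluster_trans h3, cluster_trans h1]
  exact h2

private theorem old_mod (hv : ∀ i : ℕ, i ≤ L + 1 → v + (i : ℤ) • e1 ∈ Seg d L)
    (hzS : z ∈ Seg d L) (hy : z + vec s ∈ cluster η 0) {u : Vx d}
    (hu : u ∈ cluster (modify (segBonds d L) (Op d L z v s) η) (z + vec s)) :
    u ∈ Seg d L ∨ u ∈ cluster η 0 := by
  induction hu with
  | refl => exact Or.inr hy
  | @tail b c h1 h2 ih =>
    obtain ⟨t, ht, rfl⟩ := h2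
    by_cases hc : b + vec t ∈ Seg d L
    · exact Or.inl hc
    right
    by_cases hb : b ∈ Seg d L
    · rw [mod_in (mem_segBonds.mpr (Or.inl hb)), mem_Op] at ht
      rcases ht with ht | ⟨i, hi, ht⟩
      · rcases bond_eq ht with ⟨h3, h4⟩ | ⟨h3, -⟩
        · rw [h3, h4]; exact hy
        · rw [← h3] at hc
          exact absurd hzS hc
      · have h5 := seg_line hv hi
        rcases bond_eq ht with ⟨h3, h4⟩ | ⟨h3, h4⟩
        · rw [← h3, ← h4] at hc
          exact absurd h5.2.2 hc
        · rw [h3, h4, vec_rev] at hc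
          simp only [add_neg_cancel_right] at hc
          exact absurd h5.2.1 hc
    · have hn : bond b t ∉ segBonds d L := by
        rw [mem_segBonds]; tauto
      rw [mod_out hn] at ht
      rcases ih with ih | ih
      · exact absurd ih hb
      · exact cluster_step ih ht

end main

/-- The segment and its neighbours. -/
private noncomputable def Nb (d : ℕ) [NeZero d] (L : ℕ) : Finset (Vx d) :=
  Seg d L ∪ (Seg d L ×ˢ (Finset.univ : Finset (Step d))).image fun p => p.1 + vec p.2

private theorem not_Nb {L : ℕ} {u : Vx d} (hu : u ∉ Nb d L) (t : Step d) :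
    bond u t ∉ segBonds d L := by
  rw [mem_segBonds]
  rintro (h | h)
  · exact hu (Finset.mem_union_left _ h)
  · apply hu
    apply Finset.mem_union_right
    rw [Finset.mem_image]
    refine ⟨(u + vec t, (t.1, !t.2)), by simp [h], ?_⟩
    rw [vec_rev]; simp

/-- Possible pipes of the new configuration. -/
private noncomputable def AA (d : ℕ) [NeZero d] (L : ℕ) : Finset (Vx d) :=
  (Nb d L ×ˢ Finset.Icc 1 L).image fun p => p.1 - ((p.2 : ℕ) : ℤ) • e1

/-- Deterministic lemma. If `0` lies in an infinite cluster without pipes, then one of finitely many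
modifications of the bonds touching the segment gives a point in an infinite cluster with at least
one and at most `M` pipes.
PROOF. Close all bonds touching the segment `Λ`. The cluster of `0` is covered by `Λ` and the
clusters (for the closed configuration) of the finitely many neighbours `y ∉ Λ` of `Λ` (last visit
of a path to `Λ`), so one of these, `y = z + vec s`, `z = k e_1 ∈ Λ`, is infinite. Now open the bond
`y - z` and `L + 1` bonds of `Λ`: for `k ≤ 0` those between `z` and `z + (L+1) e_1` (pipe at `z`),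
for `k > 0` those between `z - (L+1) e_1` and `z` (pipe at `z - (L+1) e_1`). Every pipe of the new
configuration in the cluster of `y` which does not meet `Λ` or a neighbour of `Λ` is a pipe of the
old configuration in the cluster of `0`, so there are at most `M` pipes. -/
theorem modify_lemma (L : ℕ) (hL : 1 ≤ L) :
    ∃ (O : Finset (Finset (Bond d) × Vx d)) (M : ℕ), ∀ η : Cfg d, InfC η 0 →
      (∀ v, Pipe η L v → v + e1 ∉ cluster η 0) →
      ∃ p ∈ O, FewPipes L M (modify (segBonds d L) p.1 η) p.2 := by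
  classical
  refine ⟨((Finset.Icc (-(L + 1 : ℤ)) (L + 1)) ×ˢ (Finset.univ : Finset (Step d))).image
    (fun p : ℤ × Step d =>
      (Op d L (p.1 • e1) (if p.1 ≤ 0 then p.1 • e1 else (p.1 - (L + 1)) • e1) p.2,
      p.1 • e1 + vec p.2)), (AA d L).card, fun η hη hno => ?_⟩
  obtain ⟨z, hzS, s, h1, h2, h3⟩ := exists_inf (L := L) hη
  obtain ⟨k, ⟨hk1, hk2⟩, rfl⟩ := mem_Seg.mp hzS
  set v : Vx d := if k ≤ 0 then k • e1 else (k - (L + 1)) • e1 with hvdef
  refine ⟨(Op d L (k • e1) v s, k • e1 + vec s), ?_, ?_⟩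
  · rw [Finset.mem_image]
    refine ⟨(k, s), ?_, rfl⟩
    exact Finset.mem_product.mpr ⟨Finset.mem_Icc.mpr ⟨hk1, hk2⟩, Finset.mem_univ s⟩
  have hv : ∀ i : ℕ, i ≤ L + 1 → v + (i : ℤ) • e1 ∈ Seg d L := by
    intro i hi
    rw [mem_Seg]
    by_cases hk : k ≤ 0
    · refine ⟨k + i, ⟨by omega, by omega⟩, ?_⟩
      rw [hvdef, if_pos hk, add_smul]
    · refine ⟨k - (L + 1) + i, ⟨by omega, by omega⟩, ?_⟩
      rw [hvdef, if_neg hk, add_smul]
  have hz : k • (e1 : Vx d) = v ∨ k • e1 = v + ((L + 1 : ℕ) : ℤ) • e1 := by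
    by_cases hk : k ≤ 0
    · left
      rw [hvdef, if_pos hk]
    · right
      rw [hvdef, if_neg hk, ← add_smul]
      congr 1
      push_cast
      ring
  refine ⟨inf_mod h3, ⟨v, pipe_mod hv hz h1, conn_mod hL hv hzS hz⟩, AA d L, le_rfl, ?_⟩
  intro w hw hwc
  by_contra hA
  have hout : ∀ i : ℕ, 1 ≤ i → i ≤ L → w + (i : ℤ) • e1 ∉ Nb d L := by
    intro i h1i hiL hin
    apply hA
    unfold AA
    rw [Finset.mem_image]
    refine ⟨(w + (i : ℤ) • e1, i), ?_, ?_⟩
    · exact Finset.mem_product.mpr ⟨hin, Finset.mem_Icc.mpr ⟨h1i, hiL⟩⟩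
    · simp
  have hpipe : Pipe η L w := by
    intro i h1i hiL t
    rw [← hw i h1i hiL t, mod_out (not_Nb (hout i h1i hiL) t)]
  have hw1 : w + e1 ∉ Seg d L := by
    have := hout 1 le_rfl hL
    simp only [Nat.cast_one, one_smul] at this
    exact fun h => this (Finset.mem_union_left _ h)
  rcases old_mod hv hzS h2 hwc with h | h
  · exact hw1 h
  · exact hno w hpipe h

end Pool.Agent.MP_f3fa2b_pr
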