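import Pool.Agent.Lib.MP_f3fa2b_pr.Mtp
import Pool.Agent.Lib.MP_f3fa2b_pr.Modify

/-!
(D) Every infinite cluster contains a pipe, almost surely.
-/

namespace Pool.Agent.MP_f3fa2b_pr

open MeasureTheory ProbabilityTheory Filter Topology
open scoped ENNReal

variable {d : ℕ} [NeZero d]

omit [NeZero d] in
private theorem exist_meas_update (b : Bond d) (v : Bool) :
    Measurable fun η : Cfg d => Function.update η b v := by
  refine measurable_pi_iff.mpr fun c => ?_
  by_cases hc : c = b
  · subst hc
    simp only [Function.update_self]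
    exact measurable_const
  · simp only [Function.update_of_ne hc]
    exact measurable_pi_apply c

omit [NeZero d] in
private theorem exist_meas_modify (S O : Finset (Bond d)) :
    Measurable (modify S O : Cfg d → Cfg d) := by
  refine measurable_pi_iff.mpr fun c => ?_
  by_cases hc : c ∈ S
  · simp only [modify, hc, if_true]
    exact measurable_const
  · simp only [modify, hc, if_false]
    exact measurable_pi_apply c

theorem map_modify_ac {μ : Measure (Cfg d)} (h : FiniteEnergy μ) (S O : Finset (Bond d)) :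
    μ.map (modify S O) ≪ μ := by
  induction S using Finset.induction_on with
  | empty =>
    have h0 : (modify ∅ O : Cfg d → Cfg d) = id := by
      funext η b
      simp [modify]
    rw [h0, Measure.map_id]
  | insert b S hb ih =>
    have h0 : (modify (insert b S) O : Cfg d → Cfg d) =
        (fun η => Function.update η b (decide (b ∈ O))) ∘ modify S O := by
      funext η c
      by_cases hc : c = b
      · subst hc
        simp [modify]
      · simp [modify, hc]
    rw [h0, ← Measure.map_map (exist_meas_update b _) (exist_meas_modify S O)]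
    exact (ih.map (exist_meas_update b _)).trans (h b _)

theorem pipes_exist {μ : Measure (Cfg d)} [IsProbabilityMeasure μ] (h : TransInv μ)
    (he : FiniteEnergy μ) {L : ℕ} (hL : 1 ≤ L) :
    ∀ᵐ η ∂μ, InfC η 0 → ∃ v, Pipe η L v ∧ v + e1 ∈ cluster η 0 := by
  obtain ⟨O, M, hO⟩ := modify_lemma (d := d) L hL
  have h1 : ∀ᵐ η ∂μ, ∀ p ∈ O, ¬ FewPipes L M (modify (segBonds d L) p.1 η) p.2 := by
    rw [Filter.eventually_all_finset]
    intro p _
    have h2 : μ.map (modify (segBonds d L) p.1) {η | FewPipes L M η p.2} = 0 :=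
      map_modify_ac he _ _ (fewPipes_null h L M p.2)
    rw [Measure.map_apply (exist_meas_modify _ _) (meas_fewPipes L M p.2)] at h2
    rw [ae_iff]
    simpa using h2
  filter_upwards [h1] with η hη hinf
  by_contra hcon
  obtain ⟨p, hp, hf⟩ := hO η hinf fun v hv hc => hcon ⟨v, hv, hc⟩
  exact hη p hp hf

omit [NeZero d] in
private theorem exist_deg_le (η : Cfg d) (x : Vx d) : (deg η x : ℝ) ≤ 2 * d := by
  have h1 : deg η x ≤ Fintype.card (Step d) := by
    unfold deg
    exact (Finset.card_filter_le _ _).trans (le_of_eq Finset.card_univ)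
  have h2 : Fintype.card (Step d) = d * 2 := by simp [Step]
  rw [h2] at h1
  have h3 : (deg η x : ℝ) ≤ ((d * 2 : ℕ) : ℝ) := by exact_mod_cast h1
  push_cast at h3
  linarith

/-- `δ_R → 0`. -/
theorem bad_tendsto {μ : Measure (Cfg d)} [IsProbabilityMeasure μ] (h : TransInv μ)
    (he : FiniteEnergy μ) {L : ℕ} (hL : 1 ≤ L) :
    Tendsto (fun R : ℕ => ∫ η, (deg η 0 : ℝ) * (ind (InfC η 0) * ind (¬ Good η L R 0)) ∂μ)
      atTop (𝓝 0) := by
  have h0 : (0 : ℝ) = ∫ _ : Cfg d, (0 : ℝ) ∂μ := by simp
  rw [h0]
  refine tendsto_integral_of_dominated_convergence (fun _ => 2 * (d : ℝ)) ?_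
    (integrable_const _) ?_ ?_
  · intro R
    refine ((meas_deg 0).mul ((meas_ind (meas_infC 0)).mul (meas_ind ?_))).aestronglyMeasurable
    exact (meas_good L R 0).compl
  · intro R
    refine Eventually.of_forall fun η => ?_
    have h1 := exist_deg_le η 0
    have h2 : (0 : ℝ) ≤ deg η 0 := Nat.cast_nonneg _
    have h3 := ind_nonneg (InfC η 0)
    have h4 := ind_le_one (InfC η 0)
    have h5 := ind_nonneg (¬ Good η L R 0)
    have h6 := ind_le_one (¬ Good η L R 0)
    rw [Real.norm_eq_abs, abs_of_nonneg (mul_nonneg h2 (mul_nonneg h3 h5))]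
    calc (deg η 0 : ℝ) * (ind (InfC η 0) * ind (¬ Good η L R 0)) ≤ deg η 0 * (1 * 1) := by
          gcongr
      _ ≤ 2 * d := by linarith
  · filter_upwards [pipes_exist h he hL] with η hη
    refine tendsto_const_nhds.congr' ?_
    by_cases hinf : InfC η 0
    · obtain ⟨v, hv, hc⟩ := hη hinf
      obtain ⟨l, hl, hlst⟩ := (mem_cluster_iff η 0 _).mp hc
      filter_upwards [eventually_ge_atTop l.length] with R hR
      have hg : Good η L R 0 := by
        refine ⟨l, hR, hl, v, hv, ?_⟩
        rw [hlst]
        refine Finset.mem_image.mpr ⟨1, Finset.mem_Icc.mpr ⟨le_rfl, hL⟩, ?_⟩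
        simp
      rw [ind_neg (not_not.mpr hg)]
      simp
    · refine Eventually.of_forall fun R => ?_
      simp only [ind_neg hinf]
      simp

end Pool.Agent.MP_f3fa2b_pr
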