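import Pool.Agent.Lib.MP_f3fa2b_pr.Stat

/-!
(D) Mass transport: an infinite cluster does not have a finite positive number of pipes.
-/

namespace Pool.Agent.MP_f3fa2b_pr

open MeasureTheory ProbabilityTheory Filter Topology
open scoped ENNReal

variable {d : ℕ} [NeZero d]

private theorem mtp_cluster_shift (a : Vx d) (η : Cfg d) (x y : Vx d) :
    y ∈ cluster (shift a η) x ↔ y + a ∈ cluster η (x + a) := by
  constructor
  · intro hu
    change Relation.ReflTransGen _ x y at hu
    change Relation.ReflTransGen _ (x + a) (y + a)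
    induction hu with
    | refl => exact Relation.ReflTransGen.refl
    | tail _ h2 ih =>
      obtain ⟨s, hs, rfl⟩ := h2
      refine Relation.ReflTransGen.tail ih ⟨s, ?_, ?_⟩
      · rw [shift_bond] at hs; exact hs
      · abel
  · intro h
    change Relation.ReflTransGen _ (x + a) (y + a) at h
    obtain ⟨z, hz⟩ : ∃ z, z = y + a := ⟨_, rfl⟩
    rw [← hz] at h
    have key : ∃ u, z = u + a ∧ u ∈ cluster (shift a η) x := by
      clear hz
      induction h with
      | refl => exact ⟨x, rfl, Relation.ReflTransGen.refl⟩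
      | tail _ h2 ih =>
        obtain ⟨u, rfl, hu⟩ := ih
        obtain ⟨s, hs, rfl⟩ := h2
        refine ⟨u + vec s, by abel, ?_⟩
        refine Relation.ReflTransGen.tail hu ⟨s, ?_, rfl⟩
        rw [shift_bond]; exact hs
    obtain ⟨u, hu1, hu2⟩ := key
    have : y = u := add_right_cancel (hz.symm.trans hu1)
    rw [this]
    exact hu2

private theorem mtp_cluster_eq (η : Cfg d) {x y : Vx d} (h : y ∈ cluster η x) :
    cluster η y = cluster η x := by
  obtain ⟨l, hl, rfl⟩ := (mem_cluster_iff η x y).1 h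
  exact cluster_lst η hl

theorem pipe_shift (L : ℕ) (a : Vx d) (η : Cfg d) (v : Vx d) :
    Pipe (shift a η) L v ↔ Pipe η L (v + a) := by
  unfold Pipe
  simp only [shift_bond]
  have : ∀ k : ℕ, v + (k : ℤ) • e1 + a = v + a + (k : ℤ) • e1 := fun k => by abel
  simp only [this]

theorem fewPipes_shift (L M : ℕ) (a : Vx d) (η : Cfg d) (x : Vx d) :
    FewPipes L M (shift a η) x ↔ FewPipes L M η (x + a) := by
  classical
  unfold FewPipes
  rw [infC_shift]
  refine and_congr Iff.rfl (and_congr ?_ ?_)
  · constructor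
    · rintro ⟨v, hv, hvc⟩
      refine ⟨v + a, (pipe_shift L a η v).1 hv, ?_⟩
      rw [mtp_cluster_shift] at hvc
      have e : v + a + e1 = v + e1 + a := by abel
      rw [e]
      exact hvc
    · rintro ⟨v, hv, hvc⟩
      refine ⟨v - a, (pipe_shift L a η _).2 (by rw [sub_add_cancel]; exact hv), ?_⟩
      rw [mtp_cluster_shift]
      have e : v - a + e1 + a = v + e1 := by abel
      rw [e]
      exact hvc
  · constructor
    · rintro ⟨A, hA, hAv⟩
      refine ⟨A.image (fun v => v + a), Finset.card_image_le.trans hA, ?_⟩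
      intro v hv hvc
      rw [Finset.mem_image]
      refine ⟨v - a, hAv _ ((pipe_shift L a η _).2 (by rw [sub_add_cancel]; exact hv)) ?_,
        sub_add_cancel v a⟩
      rw [mtp_cluster_shift]
      have e : v - a + e1 + a = v + e1 := by abel
      rw [e]
      exact hvc
    · rintro ⟨A, hA, hAv⟩
      refine ⟨A.image (fun v => v - a), Finset.card_image_le.trans hA, ?_⟩
      intro v hv hvc
      rw [Finset.mem_image]
      refine ⟨v + a, hAv _ ((pipe_shift L a η v).1 hv) ?_, add_sub_cancel_right v a⟩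
      rw [mtp_cluster_shift] at hvc
      have e : v + a + e1 = v + e1 + a := by abel
      rw [e]
      exact hvc

theorem measure_shift {μ : Measure (Cfg d)} (h : TransInv μ) (a : Vx d) {s : Set (Cfg d)}
    (hs : MeasurableSet s) : μ {η | shift a η ∈ s} = μ s := by
  have h1 := Measure.map_apply (μ := μ) (meas_shift a) hs
  rw [h a] at h1
  exact h1.symm

/-- Mass transport: `x` sends mass one to each pipe `v` of its cluster, if the cluster is infinite
and has at most `M` pipes. Sent: at most `M`. Received at `v`: infinitely much, or nothing.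
`∑' v, μ {0 sends to v} = ∑' x, μ {x sends to 0}` by translation. -/
theorem send_null {μ : Measure (Cfg d)} [IsProbabilityMeasure μ] (h : TransInv μ) (L M : ℕ) :
    μ {η | FewPipes L M η (e1 : Vx d) ∧ Pipe η L 0} = 0 := by
  classical
  -- `0` sends to `v`
  let E : Vx d → Set (Cfg d) := fun v => {η | FewPipes L M η 0 ∧ Pipe η L v ∧ v + e1 ∈ cluster η 0}
  have hEm : ∀ v, MeasurableSet (E v) := fun v =>
    (meas_fewPipes L M 0).inter ((meas_pipe L v).inter (meas_cluster 0 (v + e1)))
  have hE : ∑' v, μ (E v) ≤ M := by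
    have h1 : ∀ v, μ (E v) = ∫⁻ η, (E v).indicator 1 η ∂μ := fun v =>
      (lintegral_indicator_one (hEm v)).symm
    simp only [h1]
    rw [← lintegral_tsum (fun v => (measurable_one.indicator (hEm v)).aemeasurable)]
    have h2 : ∀ η, ∑' v, (E v).indicator (1 : Cfg d → ℝ≥0∞) η ≤ M := by
      intro η
      by_cases hη : FewPipes L M η 0
      · obtain ⟨A, hA, hAv⟩ := hη.2.2
        have h3 : ∀ v, v ∉ A → (E v).indicator (1 : Cfg d → ℝ≥0∞) η = 0 := by
          intro v hv
          apply Set.indicator_of_notMem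
          intro hmem
          exact hv (hAv v hmem.2.1 hmem.2.2)
        rw [tsum_eq_sum (s := A) (fun v hv => h3 v hv)]
        calc ∑ v ∈ A, (E v).indicator (1 : Cfg d → ℝ≥0∞) η ≤ ∑ v ∈ A, 1 := by
              refine Finset.sum_le_sum fun v _ => ?_
              exact Set.indicator_le_self' (fun _ _ => zero_le_one) η
          _ = (A.card : ℝ≥0∞) := by simp
          _ ≤ M := by exact_mod_cast hA
      · have h3 : ∀ v, (E v).indicator (1 : Cfg d → ℝ≥0∞) η = 0 := by
          intro v
          apply Set.indicator_of_notMem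
          intro hmem
          exact hη hmem.1
        simp only [h3, tsum_zero]
        exact zero_le
    calc ∫⁻ η, ∑' v, (E v).indicator (1 : Cfg d → ℝ≥0∞) η ∂μ ≤ ∫⁻ _, (M : ℝ≥0∞) ∂μ :=
          lintegral_mono h2
      _ = M := by simp
  -- `x` sends to `0`
  let F : Vx d → Set (Cfg d) := fun x => {η | FewPipes L M η x ∧ Pipe η L 0 ∧ e1 ∈ cluster η x}
  have hF : ∀ x, μ (F x) = μ (E (-x)) := by
    intro x
    rw [← measure_shift h x (hEm (-x))]
    congr 1
    ext η
    change (FewPipes L M η x ∧ Pipe η L 0 ∧ e1 ∈ cluster η x) ↔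
      (FewPipes L M (shift x η) 0 ∧ Pipe (shift x η) L (-x) ∧ -x + e1 ∈ cluster (shift x η) 0)
    rw [fewPipes_shift, pipe_shift, mtp_cluster_shift, zero_add, neg_add_cancel]
    have e : -x + e1 + x = e1 := by abel
    rw [e]
  have hFs : ∑' x, μ (F x) ≠ ∞ := by
    have h1 : ∑' x, μ (F x) = ∑' v, μ (E v) := by
      simp only [hF]
      exact (Equiv.neg (Vx d)).tsum_eq (fun v => μ (E v))
    rw [h1]
    exact ne_top_of_le_ne_top (ENNReal.natCast_ne_top M) hE
  have hae := ae_finite_setOf_mem hFs
  rw [ae_iff] at hae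
  refine measure_mono_null ?_ hae
  intro η hη
  obtain ⟨h1, h2⟩ := hη
  simp only [Set.mem_setOf_eq]
  intro hfin
  have hinf : (cluster η (e1 : Vx d)).Infinite := h1.1
  apply hinf
  refine hfin.subset ?_
  intro x hx
  have hcl := mtp_cluster_eq η hx
  have hx1 : (e1 : Vx d) ∈ cluster η x := by
    rw [hcl]
    exact Relation.ReflTransGen.refl
  refine ⟨?_, h2, hx1⟩
  obtain ⟨a1, a2, a3⟩ := h1
  refine ⟨?_, ?_, ?_⟩
  · unfold InfC
    rw [hcl]
    exact a1
  · rw [hcl]
    exact a2
  · rw [hcl]
    exact a3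

theorem fewPipes_null {μ : Measure (Cfg d)} [IsProbabilityMeasure μ] (h : TransInv μ) (L M : ℕ)
    (x : Vx d) : μ {η | FewPipes L M η x} = 0 := by
  have hsub : {η : Cfg d | FewPipes L M η x} ⊆
      ⋃ v : Vx d, {η | shift v η ∈ {η' : Cfg d | FewPipes L M η' (e1 : Vx d) ∧ Pipe η' L 0}} := by
    intro η hη
    obtain ⟨a1, ⟨v, hv, hvc⟩, a3⟩ := hη
    rw [Set.mem_iUnion]
    refine ⟨v, ?_⟩
    have hcl := mtp_cluster_eq η hvc
    change FewPipes L M (shift v η) (e1 : Vx d) ∧ Pipe (shift v η) L 0
    rw [fewPipes_shift, pipe_shift, zero_add, add_comm e1 v]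
    refine ⟨⟨?_, ?_, ?_⟩, hv⟩
    · unfold InfC
      rw [hcl]
      exact a1
    · rw [hcl]
      exact ⟨v, hv, hvc⟩
    · rw [hcl]
      exact a3
  refine measure_mono_null hsub ?_
  rw [measure_iUnion_null_iff]
  intro v
  exact (measure_shift h v ((meas_fewPipes L M (e1 : Vx d)).inter (meas_pipe L 0))).trans
    (send_null h L M)

end Pool.Agent.MP_f3fa2b_pr
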