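import Pool.Agent.Lib.MP_f3fa2b_pr.Field

/-!
(B) Product estimates: the energy of a path in a box.
-/

namespace Pool.Agent.MP_f3fa2b_pr

open MeasureTheory ProbabilityTheory Filter Topology
open scoped ENNReal

variable {d : ℕ} {Ω : Type*} [MeasurableSpace Ω] {P : Measure Ω} [IsProbabilityMeasure P]

/-- Product formula for functions of finitely many sites. -/
theorem int_prod {ω : ℕ → Vx d → Ω → ℝ} (h : IIDField P ω) (S : Finset (ℕ × Vx d))
    {φ : ℕ × Vx d → ℝ → ℝ} (hm : ∀ z, Measurable (φ z)) (h0 : ∀ z x, 0 ≤ φ z x)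
    (hi : ∀ z ∈ S, Integrable (fun a => φ z (ω 1 0 a)) P) :
    Integrable (fun a => ∏ z ∈ S, φ z (ω z.1 z.2 a)) P ∧
      ∫ a, ∏ z ∈ S, φ z (ω z.1 z.2 a) ∂P = ∏ z ∈ S, ∫ a, φ z (ω 1 0 a) ∂P := by
  classical
  obtain ⟨F, hF⟩ : ∃ F : ℕ × Vx d → Ω → ℝ, F = fun z a => φ z (ω z.1 z.2 a) := ⟨_, rfl⟩
  have hFm : ∀ z, Measurable (F z) := by
    intro z
    rw [hF]
    exact (hm z).comp (h.meas z.1 z.2)
  have hind : iIndepFun F P := by
    have h1 := h.indep.comp φ hm
    rw [hF]
    exact h1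
  have hid : ∀ z, IdentDistrib (F z) (fun a => φ z (ω 1 0 a)) P P := by
    intro z
    rw [hF]
    exact (h.ident z.1 z.2).comp (hm z)
  have hmain : Integrable (∏ z ∈ S, F z) P ∧
      ∫ a, (∏ z ∈ S, F z) a ∂P = ∏ z ∈ S, ∫ a, φ z (ω 1 0 a) ∂P := by
    induction S using Finset.induction_on with
    | empty =>
      refine ⟨?_, ?_⟩
      · rw [Finset.prod_empty]
        exact integrable_const (1 : ℝ)
      · simp
    | insert z S hz ih =>
      obtain ⟨ih1, ih2⟩ := ih (fun y hy => hi y (Finset.mem_insert_of_mem hy))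
      have hzi : Integrable (F z) P :=
        (hid z).integrable_iff.mpr (hi z (Finset.mem_insert_self z S))
      have hI : IndepFun (∏ y ∈ S, F y) (F z) P := hind.indepFun_finsetProd_of_notMem hFm hz
      have hI' : IndepFun (F z) (∏ y ∈ S, F y) P := hI.symm
      rw [Finset.prod_insert hz, Finset.prod_insert hz]
      refine ⟨hI'.integrable_mul hzi ih1, ?_⟩
      have h1 := hI'.integral_mul_eq_mul_integral hzi.aestronglyMeasurable ih1.aestronglyMeasurable
      rw [h1, ih2, (hid z).integral_eq]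
  have e : (∏ z ∈ S, F z) = fun a => ∏ z ∈ S, φ z (ω z.1 z.2 a) := by
    funext a
    rw [Finset.prod_apply, hF]
  rw [e] at hmain
  exact hmain

/-- The space-time points of a path `l = (x_1, ..., x_n)`: `(i, x_i)`. -/
noncomputable def sites (l : List (Vx d)) : Finset (ℕ × Vx d) :=
  (Finset.range l.length).image fun i => (i + 1, l.getD i 0)

/-- Weight of the path. -/
noncomputable def wt (β lam : ℝ) (ω : ℕ → Vx d → Ω → ℝ) (l : List (Vx d)) (a : Ω) : ℝ :=
  Real.exp ((l.mapIdx fun i y => β * ω (i + 1) y a - lam).sum)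

theorem wt_eq_prod (β lam : ℝ) (ω : ℕ → Vx d → Ω → ℝ) (l : List (Vx d)) (a : Ω) :
    wt β lam ω l a = ∏ z ∈ sites l, gw β lam (ω z.1 z.2 a) := by
  have hsum : ∀ (f : ℕ → Vx d → ℝ) (l : List (Vx d)),
      (l.mapIdx f).sum = ∑ i ∈ Finset.range l.length, f i (l.getD i 0) := by
    intro f l
    induction l using List.reverseRecOn with
    | nil => simp
    | append_singleton l y ih =>
      rw [List.mapIdx_concat, List.sum_append, ih, List.length_append, List.length_singleton,
        Finset.sum_range_succ]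
      congr 1
      · refine Finset.sum_congr rfl fun i hi => ?_
        rw [Finset.mem_range] at hi
        rw [List.getD_append _ _ _ _ hi]
      · rw [List.getD_append_right _ _ _ _ le_rfl]
        simp
  unfold wt
  rw [hsum (fun i y => β * ω (i + 1) y a - lam) l, Real.exp_sum]
  unfold sites
  rw [Finset.prod_image]
  · rfl
  · intro i _ j _ hij
    have := congrArg Prod.fst hij
    simpa using this

theorem wt_int {ω : ℕ → Vx d → Ω → ℝ} (h : IIDField P ω) {β : ℝ}
    (hi : Integrable (fun a => Real.exp (β * ω 1 0 a)) P) (l : List (Vx d)) :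
    Integrable (wt β (cgf (ω 1 0) P β) ω l) P ∧ ∫ a, wt β (cgf (ω 1 0) P β) ω l a ∂P = 1 := by
  have e : wt β (cgf (ω 1 0) P β) ω l =
      fun a => ∏ z ∈ sites l, gw β (cgf (ω 1 0) P β) (ω z.1 z.2 a) := by
    funext a
    exact wt_eq_prod β _ ω l a
  have h1 := int_prod h (sites l) (φ := fun _ => gw β (cgf (ω 1 0) P β))
    (fun _ => meas_gw β _) (fun _ x => (Real.exp_pos _).le) (fun _ _ => gw_integrable hi _)
  rw [e]
  refine ⟨h1.1, h1.2.trans ?_⟩
  rw [gw_integral (h.meas 1 0) hi, Finset.prod_const_one]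

end Pool.Agent.MP_f3fa2b_pr
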