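import Pool.Agent.Lib.MP_f3fa2b_pr.Walk
import Pool.Agent.Lib.MP_f3fa2b_pr.Cond

/-!
The partition function is a martingale.
-/

namespace Pool.Agent.MP_f3fa2b_pr

open MeasureTheory ProbabilityTheory Filter Topology
open scoped ENNReal

variable {d : ℕ} {Ω : Type*} [m0 : MeasurableSpace Ω] {P : Measure Ω} [IsProbabilityMeasure P]

theorem W_mart {η : Cfg d} (hd : 0 < deg η 0) {ω : ℕ → Vx d → Ω → ℝ} (h : IIDField P ω) {β : ℝ}
    (hi : Integrable (fun a => Real.exp (β * ω 1 0 a)) P) :
    Martingale (fun n a => W η β (cgf (ω 1 0) P β) (fun i x => ω i x a) n) (fil h) P := by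
  set lam := cgf (ω 1 0) P β with hlam
  have hW : ∀ n a, W η β lam (fun i x => ω i x a) n =
      walkE η n 0 (fun l => wt β lam ω l a) := fun n a => rfl
  have hint : ∀ l, Integrable (wt β lam ω l) P := fun l => (wt_int h hi l).1
  refine martingale_nat (fun n => ?_) (fun n => ?_) (fun n => ?_)
  · obtain ⟨S, w, hS, hF⟩ := walkE_eq_sum η n (0 : Vx d)
    have e : (fun a => W η β lam (fun i x => ω i x a) n) =
        fun a => ∑ l ∈ S, w l * wt β lam ω l a := by
      funext a
      rw [hW, hF]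
    show StronglyMeasurable[sg ω n] (fun a => W η β lam (fun i x => ω i x a) n)
    rw [e]
    exact Finset.stronglyMeasurable_fun_sum S fun l hl =>
      (wt_sm β lam (hS l hl).2.1.le).const_mul (w l)
  · obtain ⟨S, w, hS, hF⟩ := walkE_eq_sum η n (0 : Vx d)
    have e : (fun a => W η β lam (fun i x => ω i x a) n) =
        fun a => ∑ l ∈ S, w l * wt β lam ω l a := by
      funext a
      rw [hW, hF]
    show Integrable (fun a => W η β lam (fun i x => ω i x a) n) P
    rw [e]
    exact integrable_finsetSum S fun l _ => (hint l).const_mul (w l)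
  · obtain ⟨S, w, hS, hF⟩ := walkE_eq_sum η n (0 : Vx d)
    choose T v hT hG using fun x : Vx d => walkE_eq_sum η 1 x
    have e0 : (fun a => W η β lam (fun i x => ω i x a) n) =
        ∑ l ∈ S, w l • wt β lam ω l := by
      funext a
      rw [hW, hF, Finset.sum_apply]
      rfl
    have e1 : (fun a => W η β lam (fun i x => ω i x a) (n + 1)) =
        ∑ l ∈ S, w l • ∑ l' ∈ T (lst 0 l), v (lst 0 l) l' • wt β lam ω (l ++ l') := by
      funext a
      rw [hW, walkE_append, hF, Finset.sum_apply]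
      refine Finset.sum_congr rfl fun l _ => ?_
      rw [hG, Pi.smul_apply, Finset.sum_apply]
      rfl
    have hin : ∀ l, Integrable (∑ l' ∈ T (lst 0 l), v (lst 0 l) l' • wt β lam ω (l ++ l')) P :=
      fun l => integrable_finsetSum' _ fun l' _ => (hint _).smul _
    have key : ∀ l ∈ S,
        P[∑ l' ∈ T (lst 0 l), v (lst 0 l) l' • wt β lam ω (l ++ l')|sg ω n] =ᵐ[P]
          wt β lam ω l := by
      intro l hl
      obtain ⟨_, hlen, hp⟩ := hS l hl
      have h1 : P[∑ l' ∈ T (lst 0 l), v (lst 0 l) l' • wt β lam ω (l ++ l')|sg ω n] =ᵐ[P]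
          ∑ l' ∈ T (lst 0 l), P[v (lst 0 l) l' • wt β lam ω (l ++ l')|sg ω n] :=
        condExp_finsetSum (fun l' _ => (hint _).smul _) _
      have h2 : ∀ l' ∈ T (lst 0 l), P[v (lst 0 l) l' • wt β lam ω (l ++ l')|sg ω n] =ᵐ[P]
          v (lst 0 l) l' • wt β lam ω l := by
        intro l' hl'
        obtain ⟨_, hlen', _⟩ := hT _ l' hl'
        obtain ⟨y, rfl⟩ := List.length_eq_one_iff.1 hlen'
        have h3 := wt_condExp h hi l y
        rw [hlen] at h3
        exact (condExp_smul _ _ _).trans (h3.const_smul _)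
      have h4 : ∑ l' ∈ T (lst 0 l), P[v (lst 0 l) l' • wt β lam ω (l ++ l')|sg ω n] =ᵐ[P]
          ∑ l' ∈ T (lst 0 l), v (lst 0 l) l' • wt β lam ω l :=
        eventuallyEq_sum h2
      have h5 : ∑ l' ∈ T (lst 0 l), v (lst 0 l) l' • wt β lam ω l = wt β lam ω l := by
        rw [← Finset.sum_smul]
        have h6 := hG (lst 0 l) (fun _ => 1)
        rw [walkE_const η 1 (deg_lst_pos η hd hp)] at h6
        have h7 : ∑ l' ∈ T (lst 0 l), v (lst 0 l) l' = 1 := by
          rw [h6]
          exact Finset.sum_congr rfl fun l' _ => (mul_one _).symm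
        rw [h7, one_smul]
      rw [h5] at h4
      exact h1.trans h4
    show (fun a => W η β lam (fun i x => ω i x a) n) =ᵐ[P]
      P[fun a => W η β lam (fun i x => ω i x a) (n + 1)|sg ω n]
    rw [e0, e1]
    have k1 : P[∑ l ∈ S, w l • ∑ l' ∈ T (lst 0 l), v (lst 0 l) l' • wt β lam ω (l ++ l')|sg ω n]
        =ᵐ[P] ∑ l ∈ S, P[w l • ∑ l' ∈ T (lst 0 l), v (lst 0 l) l' •
          wt β lam ω (l ++ l')|sg ω n] :=
      condExp_finsetSum (fun l _ => (hin l).smul _) _
    have k2 : ∑ l ∈ S, P[w l • ∑ l' ∈ T (lst 0 l), v (lst 0 l) l' •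
          wt β lam ω (l ++ l')|sg ω n] =ᵐ[P] ∑ l ∈ S, w l • wt β lam ω l :=
      eventuallyEq_sum fun l hl => (condExp_smul _ _ _).trans ((key l hl).const_smul _)
    exact (k1.trans k2).symm

end Pool.Agent.MP_f3fa2b_pr
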