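import Pool.Agent.Lib.MP_f3fa2b_pr.PolyBox

/-!
(B) The partition function is small with large probability.
-/

namespace Pool.Agent.MP_f3fa2b_pr

open MeasureTheory ProbabilityTheory Filter Topology
open scoped ENNReal

variable {d : ℕ} [NeZero d] {Ω : Type*} [MeasurableSpace Ω] {P : Measure Ω}
  [IsProbabilityMeasure P]

omit [NeZero d] [MeasurableSpace Ω] in
private theorem W_eq (η : Cfg d) (β lam : ℝ) (ω : ℕ → Vx d → Ω → ℝ) (n : ℕ) (a : Ω) :
    W η β lam (fun i x => ω i x a) n = walkE η n 0 fun l => wt β lam ω l a := rfl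

omit [NeZero d] in
theorem W_int {η : Cfg d} (hd : 0 < deg η 0) {ω : ℕ → Vx d → Ω → ℝ} (h : IIDField P ω) {β : ℝ}
    (hi : Integrable (fun a => Real.exp (β * ω 1 0 a)) P) (n : ℕ) :
    Integrable (fun a => W η β (cgf (ω 1 0) P β) (fun i x => ω i x a) n) P ∧
      ∫ a, W η β (cgf (ω 1 0) P β) (fun i x => ω i x a) n ∂P = 1 := by
  obtain ⟨S, w, hS, hF⟩ := walkE_eq_sum η n 0
  have h1 : (fun a => W η β (cgf (ω 1 0) P β) (fun i x => ω i x a) n) =
      fun a => ∑ l ∈ S, w l * wt β (cgf (ω 1 0) P β) ω l a := by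
    funext a
    rw [W_eq, hF]
  have h2 : ∀ l ∈ S, Integrable (fun a => w l * wt β (cgf (ω 1 0) P β) ω l a) P :=
    fun l _ => (wt_int h hi l).1.const_mul _
  rw [h1]
  refine ⟨integrable_finsetSum _ h2, ?_⟩
  rw [integral_finsetSum _ h2]
  have h3 : ∀ l ∈ S, ∫ a, w l * wt β (cgf (ω 1 0) P β) ω l a ∂P = w l * 1 := by
    intro l _
    rw [integral_const_mul, (wt_int h hi l).2]
  rw [Finset.sum_congr rfl h3, ← hF fun _ => (1 : ℝ)]
  exact walkE_const η n hd 1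

private theorem meas_Exc {ω : ℕ → Vx d → Ω → ℝ} (h : IIDField P ω) (L T n : ℕ) (κ c q : ℝ) :
    MeasurableSet (Exc d L T n κ c q ω) := by
  unfold Exc
  refine Finset.measurableSet_biUnion _ fun z _ => ?_
  exact measurableSet_le measurable_const (meas_YY h c q z.1 T (PB L z.2))

private theorem meas_ind_Exc {ω : ℕ → Vx d → Ω → ℝ} (h : IIDField P ω) (L T n : ℕ) (κ c q : ℝ) :
    Measurable fun a => ind (a ∉ Exc d L T n κ c q ω) := by
  classical
  unfold ind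
  exact Measurable.ite (meas_Exc h L T n κ c q).compl measurable_const measurable_const

omit [NeZero d] [MeasurableSpace Ω] in
private theorem wt_nonneg (β lam : ℝ) (ω : ℕ → Vx d → Ω → ℝ) (l : List (Vx d)) (a : Ω) :
    0 ≤ wt β lam ω l a := (Real.exp_pos _).le

private theorem wt_ind_int {ω : ℕ → Vx d → Ω → ℝ} (h : IIDField P ω) {β : ℝ}
    (hi : Integrable (fun a => Real.exp (β * ω 1 0 a)) P) (l : List (Vx d)) {p : Ω → Prop}
    (hp : Measurable fun a => ind (p a)) :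
    Integrable (fun a => wt β (cgf (ω 1 0) P β) ω l a * ind (p a)) P := by
  refine (wt_int h hi l).1.mono ((wt_int h hi l).1.aestronglyMeasurable.mul
    hp.aestronglyMeasurable) (Eventually.of_forall fun a => ?_)
  rw [norm_mul]
  refine mul_le_of_le_one_right (norm_nonneg _) ?_
  rw [Real.norm_eq_abs, abs_of_nonneg (ind_nonneg _)]
  exact ind_le_one _

private theorem path_off {η : Cfg d} {ω : ℕ → Vx d → Ω → ℝ} (h : IIDField P ω)
    {β c q κ : ℝ} (hi : Integrable (fun a => Real.exp (β * ω 1 0 a)) P) (hq0 : 0 ≤ q)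
    (hq1 : q ≤ 1) (hκ0 : 0 < κ) (hκ1 : κ ≤ 1) (h0 : ∫ a, cen c q (ω 1 0 a) ∂P = 0)
    (h2 : ∫ a, gw β (cgf (ω 1 0) P β) (ω 1 0 a) * cen c q (ω 1 0 a) ∂P = 2 * κ) {L T : ℕ}
    (hT : 1 ≤ T) {n : ℕ} {l : List (Vx d)} (hl : Pth η 0 l) (hn : l.length = n) :
    ∫ a, wt β (cgf (ω 1 0) P β) ω l a * ind (a ∉ Exc d L T n κ c q ω) ∂P ≤
      ind (¬ HasStay η L T l) + Real.exp (-(κ ^ 2 * T / (4 * L))) := by
  have hmE := meas_ind_Exc h L T n κ c q
  by_cases hs : HasStay η L T l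
  · obtain ⟨v, hv, l1, l2, l3, rfl, hT2, hn1, hB⟩ := stay_box hT hl hn hs
    have hpos : 0 ≤ ind (¬ HasStay η L T (l1 ++ l2 ++ l3)) := ind_nonneg _
    have hmY : Measurable fun a => ind (YY c q ω l1.length l2.length (PB L v) a < κ * l2.length) := by
      classical
      unfold ind
      exact Measurable.ite (measurableSet_lt (meas_YY h c q _ _ _) measurable_const)
        measurable_const measurable_const
    have h3 := YY_tilt h hi hq0 hq1 hκ0 hκ1 h0 h2 (card_PB_le L v) l1 l2 l3 hB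
    rw [hT2] at h3 hmY
    have h4 : ∫ a, wt β (cgf (ω 1 0) P β) ω (l1 ++ l2 ++ l3) a *
          ind (a ∉ Exc d L T n κ c q ω) ∂P ≤
        ∫ a, wt β (cgf (ω 1 0) P β) ω (l1 ++ l2 ++ l3) a *
          ind (YY c q ω l1.length T (PB L v) a < κ * T) ∂P := by
      refine integral_mono (wt_ind_int h hi _ hmE) (wt_ind_int h hi _ hmY) fun a => ?_
      refine mul_le_mul_of_nonneg_left (ind_mono fun ha => ?_) (wt_nonneg _ _ _ _ _)
      by_contra hlt
      apply ha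
      unfold Exc
      simp only [Set.mem_iUnion]
      refine ⟨(l1.length, v), ?_, ?_⟩
      · exact Finset.mem_product.mpr ⟨Finset.mem_range.mpr (by omega), hv⟩
      · exact not_lt.mp hlt
    linarith
  · rw [ind_pos hs]
    have h4 : ∫ a, wt β (cgf (ω 1 0) P β) ω l a * ind (a ∉ Exc d L T n κ c q ω) ∂P ≤
        ∫ a, wt β (cgf (ω 1 0) P β) ω l a ∂P := by
      refine integral_mono (wt_ind_int h hi _ hmE) (wt_int h hi l).1 fun a => ?_
      exact mul_le_of_le_one_right (wt_nonneg _ _ _ _ _) (ind_le_one _)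
    rw [(wt_int h hi l).2] at h4
    have := Real.exp_pos (-(κ ^ 2 * T / (4 * L)))
    linarith

theorem W_off_exc {η : Cfg d} (hd : 0 < deg η 0) {ω : ℕ → Vx d → Ω → ℝ} (h : IIDField P ω)
    {β c q κ : ℝ} (hi : Integrable (fun a => Real.exp (β * ω 1 0 a)) P) (hq0 : 0 ≤ q)
    (hq1 : q ≤ 1) (hκ0 : 0 < κ) (hκ1 : κ ≤ 1) (h0 : ∫ a, cen c q (ω 1 0 a) ∂P = 0)
    (h2 : ∫ a, gw β (cgf (ω 1 0) P β) (ω 1 0 a) * cen c q (ω 1 0 a) ∂P = 2 * κ) {L T : ℕ}
    (hT : 1 ≤ T) (n : ℕ) :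
    ∫ a, W η β (cgf (ω 1 0) P β) (fun i x => ω i x a) n * ind (a ∉ Exc d L T n κ c q ω) ∂P ≤
      (walkE η n 0 fun l => ind (¬ HasStay η L T l)) + Real.exp (-(κ ^ 2 * T / (4 * L))) := by
  obtain ⟨S, w, hS, hF⟩ := walkE_eq_sum η n 0
  have h1 : (fun a => W η β (cgf (ω 1 0) P β) (fun i x => ω i x a) n *
      ind (a ∉ Exc d L T n κ c q ω)) =
      fun a => ∑ l ∈ S, w l * (wt β (cgf (ω 1 0) P β) ω l a *
        ind (a ∉ Exc d L T n κ c q ω)) := by
    funext a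
    rw [W_eq, hF, Finset.sum_mul]
    exact Finset.sum_congr rfl fun l _ => mul_assoc _ _ _
  rw [h1, integral_finsetSum _ fun l _ =>
    (wt_ind_int h hi l (meas_ind_Exc h L T n κ c q)).const_mul _]
  have h3 : ∀ l ∈ S, ∫ a, w l * (wt β (cgf (ω 1 0) P β) ω l a *
        ind (a ∉ Exc d L T n κ c q ω)) ∂P ≤
      w l * (ind (¬ HasStay η L T l) + Real.exp (-(κ ^ 2 * T / (4 * L)))) := by
    intro l hl
    obtain ⟨hw, hn, hp⟩ := hS l hl
    rw [integral_const_mul]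
    exact mul_le_mul_of_nonneg_left (path_off h hi hq0 hq1 hκ0 hκ1 h0 h2 hT hp hn) hw
  refine (Finset.sum_le_sum h3).trans (le_of_eq ?_)
  rw [← hF fun l => ind (¬ HasStay η L T l) + Real.exp (-(κ ^ 2 * T / (4 * L))), walkE_add,
    walkE_const η n hd]

omit [NeZero d] in
private theorem W_nonneg (η : Cfg d) (β lam : ℝ) (ω : ℕ → Vx d → ℝ) (n : ℕ) :
    0 ≤ W η β lam ω n := walkE_nonneg η n 0 fun _ => (Real.exp_pos _).le

theorem W_small {η : Cfg d} (hd : 0 < deg η 0) {ω : ℕ → Vx d → Ω → ℝ} (h : IIDField P ω)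
    {β c q κ : ℝ} (hi : Integrable (fun a => Real.exp (β * ω 1 0 a)) P) (hq0 : 0 ≤ q)
    (hq1 : q ≤ 1) (hκ0 : 0 < κ) (hκ1 : κ ≤ 1) (h0 : ∫ a, cen c q (ω 1 0 a) ∂P = 0)
    (h2 : ∫ a, gw β (cgf (ω 1 0) P β) (ω 1 0 a) * cen c q (ω 1 0 a) ∂P = 2 * κ) {L T : ℕ}
    (hT : 1 ≤ T) (n : ℕ) {δ : ℝ} (hδ : 0 < δ) :
    P.real {a | δ ≤ W η β (cgf (ω 1 0) P β) (fun i x => ω i x a) n} ≤
      (n + 1) * (2 * (n + L) + 1) ^ d * Real.exp (-(κ ^ 2 * T / (4 * L))) +
        ((walkE η n 0 fun l => ind (¬ HasStay η L T l)) + Real.exp (-(κ ^ 2 * T / (4 * L)))) / δ := by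
  set f : Ω → ℝ := fun a => W η β (cgf (ω 1 0) P β) (fun i x => ω i x a) n *
    ind (a ∉ Exc d L T n κ c q ω) with hf
  have hsub : {a | δ ≤ W η β (cgf (ω 1 0) P β) (fun i x => ω i x a) n} ⊆
      Exc d L T n κ c q ω ∪ {a | δ ≤ f a} := by
    intro a ha
    by_cases hE : a ∈ Exc d L T n κ c q ω
    · exact Or.inl hE
    · right
      show δ ≤ f a
      rw [hf]
      simp only [ind_pos hE, mul_one]
      exact ha
  have h3 : P.real {a | δ ≤ W η β (cgf (ω 1 0) P β) (fun i x => ω i x a) n} ≤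
      P.real (Exc d L T n κ c q ω) + P.real {a | δ ≤ f a} :=
    (measureReal_mono hsub).trans (measureReal_union_le _ _)
  have hWi := (W_int hd h hi n).1
  have hfi : Integrable f P := by
    refine hWi.mono (hWi.aestronglyMeasurable.mul
      (meas_ind_Exc h L T n κ c q).aestronglyMeasurable) (Eventually.of_forall fun a => ?_)
    rw [hf, norm_mul]
    refine mul_le_of_le_one_right (norm_nonneg _) ?_
    rw [Real.norm_eq_abs, abs_of_nonneg (ind_nonneg _)]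
    exact ind_le_one _
  have h4 : δ * P.real {a | δ ≤ f a} ≤ ∫ a, f a ∂P :=
    mul_meas_ge_le_integral_of_nonneg (Eventually.of_forall fun a =>
      mul_nonneg (W_nonneg _ _ _ _ _) (ind_nonneg _)) hfi δ
  have h5 := W_off_exc hd h hi hq0 hq1 hκ0 hκ1 h0 h2 (L := L) hT n
  have h6 : P.real {a | δ ≤ f a} ≤ ((walkE η n 0 fun l => ind (¬ HasStay η L T l)) +
      Real.exp (-(κ ^ 2 * T / (4 * L)))) / δ := by
    rw [le_div_iff₀ hδ, mul_comm]
    exact h4.trans h5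
  have h7 := exc_le (d := d) h hq0 hq1 hκ0 hκ1 h0 L T n
  linarith

end Pool.Agent.MP_f3fa2b_pr
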