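import Pool.Agent.Lib.MP_f3fa2b_pr.Field

/-!
(B) Choice of the level.
-/

namespace Pool.Agent.MP_f3fa2b_pr

open MeasureTheory ProbabilityTheory Filter Topology
open scoped ENNReal

variable {Ω : Type*} [MeasurableSpace Ω] {P : Measure Ω} [IsProbabilityMeasure P] {X : Ω → ℝ}

/-- A non-constant random variable has a nontrivial level. -/
theorem exists_level (hX : Measurable X) (hn : ¬ ∃ c : ℝ, X =ᵐ[P] fun _ => c) :
    ∃ c : ℝ, P {a | c ≤ X a} ≠ 0 ∧ P {a | X a < c} ≠ 0 := by
  have _ := hX
  by_contra hcon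
  push Not at hcon
  have hae : ∀ᵐ a ∂P, ∀ c : ℚ, (P {a | (c : ℝ) ≤ X a} = 0 → ¬ (c : ℝ) ≤ X a) ∧
      (P {a | X a < (c : ℝ)} = 0 → ¬ X a < (c : ℝ)) := by
    rw [ae_all_iff]
    intro c
    refine Filter.Eventually.and ?_ ?_
    · by_cases h : P {a | (c : ℝ) ≤ X a} = 0
      · filter_upwards [measure_eq_zero_iff_ae_notMem.1 h] with a ha _
        exact ha
      · exact Eventually.of_forall fun a ha => absurd ha h
    · by_cases h : P {a | X a < (c : ℝ)} = 0
      · filter_upwards [measure_eq_zero_iff_ae_notMem.1 h] with a ha _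
        exact ha
      · exact Eventually.of_forall fun a ha => absurd ha h
  obtain ⟨a0, ha0⟩ := hae.exists
  apply hn
  refine ⟨X a0, ?_⟩
  filter_upwards [hae] with a ha
  by_contra hne
  rcases lt_or_gt_of_ne hne with h | h
  · obtain ⟨c, hc1, hc2⟩ := exists_rat_btwn h
    by_cases h0 : P {a | (c : ℝ) ≤ X a} = 0
    · exact (ha0 c).1 h0 hc2.le
    · exact (ha c).2 (hcon c h0) hc1
  · obtain ⟨c, hc1, hc2⟩ := exists_rat_btwn h
    by_cases h0 : P {a | (c : ℝ) ≤ X a} = 0
    · exact (ha c).1 h0 hc2.le
    · exact (ha0 c).2 (hcon c h0) hc1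

/-- Choice of the level. `κ` is strictly positive since the covariance of the two increasing
functions `gw` and `ind (c ≤ ·)` is strictly positive if `0 < P(c ≤ X) < 1` and `β > 0`. -/
theorem level {β : ℝ} (hX : Measurable X) (hβ : 0 < β)
    (hi : Integrable (fun a => Real.exp (β * X a)) P) (hn : ¬ ∃ c : ℝ, X =ᵐ[P] fun _ => c) :
    ∃ c q κ : ℝ, 0 ≤ q ∧ q ≤ 1 ∧ 0 < κ ∧ κ ≤ 1 ∧ ∫ a, cen c q (X a) ∂P = 0 ∧
      ∫ a, gw β (cgf X P β) (X a) * cen c q (X a) ∂P = 2 * κ := by
  obtain ⟨c, hc1, hc2⟩ := exists_level (P := P) hX hn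
  set q : ℝ := P.real {a | c ≤ X a} with hq
  set lam : ℝ := cgf X P β with hlam
  have hq0 : 0 < q := by
    rw [hq, Measure.real, ENNReal.toReal_pos_iff]
    exact ⟨pos_iff_ne_zero.2 hc1, measure_lt_top _ _⟩
  have hq1 : q ≤ 1 := measureReal_le_one
  have hms : MeasurableSet {a | c ≤ X a} := hX measurableSet_Ici
  have hind : (fun a => ind (c ≤ X a)) = Set.indicator {a | c ≤ X a} (fun _ => (1 : ℝ)) := by
    funext a
    by_cases h : c ≤ X a
    · rw [ind_pos h, Set.indicator_of_mem (show a ∈ {a | c ≤ X a} from h)]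
    · rw [ind_neg h, Set.indicator_of_notMem (show a ∉ {a | c ≤ X a} from h)]
  have hindi : Integrable (fun a => ind (c ≤ X a)) P := by
    rw [hind]
    exact (integrable_const (1 : ℝ)).indicator hms
  have hint : ∫ a, ind (c ≤ X a) ∂P = q := by
    rw [hind, integral_indicator hms, setIntegral_const, smul_eq_mul, mul_one]
  have hcen0 : ∫ a, cen c q (X a) ∂P = 0 := by
    simp only [cen]
    rw [integral_sub hindi (integrable_const _), hint]
    simp
  have hceni : Integrable (fun a => cen c q (X a)) P := by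
    simp only [cen]
    exact hindi.sub (integrable_const _)
  have hgi : Integrable (fun a => gw β lam (X a)) P := gw_integrable hi lam
  have hgci : Integrable (fun a => gw β lam (X a) * cen c q (X a)) P := by
    refine hgi.mono' (((meas_gw β lam).comp hX).mul ((meas_cen c q).comp hX)).aestronglyMeasurable ?_
    refine Eventually.of_forall fun a => ?_
    have h1 : 0 ≤ gw β lam (X a) := (Real.exp_pos _).le
    have h2 := cen_abs (c := c) hq0.le hq1 (X a)
    rw [Real.norm_eq_abs, abs_mul, abs_of_nonneg h1]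
    calc gw β lam (X a) * |cen c q (X a)| ≤ gw β lam (X a) * 1 :=
          mul_le_mul_of_nonneg_left h2 h1
      _ = gw β lam (X a) := mul_one _
  have hle : ∫ a, gw β lam (X a) * cen c q (X a) ∂P ≤ 1 := by
    rw [← gw_integral (P := P) hX hi]
    refine integral_mono hgci hgi fun a => ?_
    have h1 : 0 ≤ gw β lam (X a) := (Real.exp_pos _).le
    have h2 := cen_abs (c := c) hq0.le hq1 (X a)
    calc gw β lam (X a) * cen c q (X a) ≤ gw β lam (X a) * 1 :=
          mul_le_mul_of_nonneg_left ((le_abs_self _).trans h2) h1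
      _ = gw β lam (X a) := mul_one _
  set G : ℝ := gw β lam c with hG
  have heq : ∫ a, gw β lam (X a) * cen c q (X a) ∂P =
      ∫ a, (gw β lam (X a) - G) * cen c q (X a) ∂P := by
    have : ∀ a, (gw β lam (X a) - G) * cen c q (X a) =
        gw β lam (X a) * cen c q (X a) - G * cen c q (X a) := fun a => by ring
    simp only [this]
    rw [integral_sub hgci (hceni.const_mul G), integral_const_mul, hcen0, mul_zero, sub_zero]
  have hnn : ∀ a, 0 ≤ (gw β lam (X a) - G) * cen c q (X a) := by
    intro a
    by_cases h : c ≤ X a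
    · have h1 : G ≤ gw β lam (X a) := by
        rw [hG, gw, gw]
        exact Real.exp_le_exp.2 (by nlinarith)
      have h2 : 0 ≤ cen c q (X a) := by
        rw [cen, ind_pos h]
        linarith
      exact mul_nonneg (by linarith) h2
    · have h1 : gw β lam (X a) ≤ G := by
        rw [hG, gw, gw]
        push Not at h
        exact Real.exp_le_exp.2 (by nlinarith)
      have h2 : cen c q (X a) ≤ 0 := by
        rw [cen, ind_neg h]
        linarith
      exact mul_nonneg_of_nonpos_of_nonpos (by linarith) h2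
  have hpos : 0 < ∫ a, gw β lam (X a) * cen c q (X a) ∂P := by
    rw [heq, integral_pos_iff_support_of_nonneg hnn]
    · refine lt_of_lt_of_le (pos_iff_ne_zero.2 hc2) (measure_mono ?_)
      intro a ha
      have ha' : X a < c := ha
      rw [Function.mem_support]
      have h1 : gw β lam (X a) < G := by
        rw [hG, gw, gw]
        exact Real.exp_lt_exp.2 (by nlinarith)
      have h2 : cen c q (X a) = -q := by
        rw [cen, ind_neg (not_le.2 ha')]
        ring
      rw [h2]
      refine mul_ne_zero ?_ ?_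
      · intro h
        linarith
      · intro h
        linarith
    · have : (fun a => (gw β lam (X a) - G) * cen c q (X a)) =
        fun a => gw β lam (X a) * cen c q (X a) - G * cen c q (X a) := by
        funext a
        ring
      rw [this]
      exact hgci.sub (hceni.const_mul G)
  refine ⟨c, q, (∫ a, gw β lam (X a) * cen c q (X a) ∂P) / 2, hq0.le, hq1, by linarith,
    by linarith, hcen0, by ring⟩

end Pool.Agent.MP_f3fa2b_pr
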