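import Pool.Agent.Lib.MP_f3fa2b_pr.Defs

/-!
A nonnegative martingale which is small in probability along a subsequence tends to zero.
-/

namespace Pool.Agent.MP_f3fa2b_pr

open MeasureTheory ProbabilityTheory Filter Topology
open scoped ENNReal

variable {Ω : Type*} [m0 : MeasurableSpace Ω] {P : Measure Ω} [IsProbabilityMeasure P]

private theorem martZero_bdd {ℱ : Filtration ℕ m0} {f : ℕ → Ω → ℝ} (hf : Martingale f ℱ P)
    (h0 : ∀ n a, 0 ≤ f n a) (n : ℕ) :
    eLpNorm (f n) 1 P ≤ ((∫ a, f 0 a ∂P).toNNReal : ℝ≥0∞) := by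
  have hint : ∫ a, f n a ∂P = ∫ a, f 0 a ∂P := by
    have h1 := hf.setIntegral_eq (Nat.zero_le n) (s := Set.univ) MeasurableSet.univ
    simpa using h1.symm
  rw [eLpNorm_one_eq_lintegral_enorm]
  have h2 : ∫⁻ a, ‖f n a‖ₑ ∂P = ENNReal.ofReal (∫ a, f n a ∂P) := by
    rw [ofReal_integral_eq_lintegral_ofReal (hf.integrable n) (ae_of_all _ (h0 n))]
    refine lintegral_congr fun a => ?_
    exact Real.enorm_of_nonneg (h0 n a)
  rw [h2, hint]
  exact le_of_eq rfl

/-- A nonnegative martingale which is small in probability along a subsequence tends to zero. -/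
theorem mart_zero {ℱ : Filtration ℕ m0} {f : ℕ → Ω → ℝ} (hf : Martingale f ℱ P)
    (h0 : ∀ n a, 0 ≤ f n a)
    (hs : ∀ δ : ℝ, 0 < δ → ∀ N : ℕ, ∃ n ≥ N, P.real {a | δ ≤ f n a} ≤ δ) :
    ∀ᵐ a ∂P, Tendsto (fun n => f n a) atTop (𝓝 0) := by
  have hlim := hf.submartingale.ae_tendsto_limitProcess (martZero_bdd hf h0)
  have hch : ∀ k : ℕ, ∃ n ≥ k, P.real {a | (1 / 2 : ℝ) ^ k ≤ f n a} ≤ (1 / 2 : ℝ) ^ k :=
    fun k => hs _ (by positivity) k
  choose n hn hP using hch
  have hsum : ∑' k, P {a | (1 / 2 : ℝ) ^ k ≤ f (n k) a} ≠ ∞ := by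
    have h1 : ∀ k, P {a | (1 / 2 : ℝ) ^ k ≤ f (n k) a} ≤ ENNReal.ofReal ((1 / 2 : ℝ) ^ k) := by
      intro k
      have h2 : P {a | (1 / 2 : ℝ) ^ k ≤ f (n k) a} =
          ENNReal.ofReal (P.real {a | (1 / 2 : ℝ) ^ k ≤ f (n k) a}) := by
        rw [ofReal_measureReal]
      rw [h2]
      exact ENNReal.ofReal_le_ofReal (hP k)
    refine ne_top_of_le_ne_top ?_ (ENNReal.tsum_le_tsum h1)
    rw [← ENNReal.ofReal_tsum_of_nonneg (fun k => by positivity)
      (summable_geometric_of_lt_one (by norm_num) (by norm_num))]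
    exact ENNReal.ofReal_ne_top
  filter_upwards [hlim, ae_eventually_notMem hsum] with a ha hb
  have hnt : Tendsto n atTop atTop := tendsto_atTop_mono hn tendsto_id
  have h1 : Tendsto (fun k => f (n k) a) atTop (𝓝 (ℱ.limitProcess f P a)) := ha.comp hnt
  have h2 : Tendsto (fun k => f (n k) a) atTop (𝓝 0) := by
    refine tendsto_of_tendsto_of_tendsto_of_le_of_le' tendsto_const_nhds
      (tendsto_pow_atTop_nhds_zero_of_lt_one (r := (1 / 2 : ℝ)) (by norm_num) (by norm_num)) ?_ ?_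
    · exact Eventually.of_forall fun k => h0 _ _
    · filter_upwards [hb] with k hk
      exact le_of_lt (not_le.1 hk)
  have h3 : ℱ.limitProcess f P a = 0 := tendsto_nhds_unique h1 h2
  rw [h3] at ha
  exact ha

end Pool.Agent.MP_f3fa2b_pr
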