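import Pool.Agent.Lib.MP_f3fa2b_pr.Hm

/-!
Numerical limits.
-/

namespace Pool.Agent.MP_f3fa2b_pr

open MeasureTheory ProbabilityTheory Filter Topology
open scoped ENNReal

private theorem numPoly_cast {j : ℕ} (hj : 1 ≤ j) : ((10 * j - 1 : ℕ) : ℝ) = 10 * j - 1 := by
  have h1 : 1 ≤ 10 * j := by omega
  rw [Nat.cast_sub h1]
  push_cast
  ring

private theorem numPoly_exp_le {j : ℕ} (hj : 1 ≤ j) (κ : ℝ) (m : ℕ) :
    Real.exp (-(κ ^ 2 * (10 * j ^ 2 * m : ℕ) / (4 * (10 * j - 1 : ℕ)))) ≤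
      Real.exp (-(κ ^ 2 * j / 4 * m)) := by
  apply Real.exp_le_exp.mpr
  apply neg_le_neg
  rw [numPoly_cast hj]
  have hj' : (1 : ℝ) ≤ j := by exact_mod_cast hj
  have hpos : (0 : ℝ) < 4 * (10 * (j : ℝ) - 1) := by linarith
  rw [le_div_iff₀ hpos]
  push_cast
  have h0 : 0 ≤ κ ^ 2 * j * m := by positivity
  have e : κ ^ 2 * (10 * (j : ℝ) ^ 2 * m) - κ ^ 2 * j / 4 * m * (4 * (10 * (j : ℝ) - 1)) =
      κ ^ 2 * j * m := by ring
  linarith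

private theorem numPoly_tendsto (k : ℕ) :
    Tendsto (fun m : ℕ => ((m : ℝ) + 1) ^ k * Real.exp (-(m : ℝ))) atTop (𝓝 0) := by
  have h1 := Real.tendsto_pow_mul_exp_neg_atTop_nhds_zero k
  have h2 : Tendsto (fun m : ℕ => (m : ℝ) + 1) atTop atTop :=
    tendsto_atTop_add_const_right _ _ tendsto_natCast_atTop_atTop
  have h3 := (h1.comp h2).const_mul (Real.exp 1)
  rw [mul_zero] at h3
  refine h3.congr fun m => ?_
  simp only [Function.comp]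
  have e : Real.exp (-(m : ℝ)) = Real.exp 1 * Real.exp (-((m : ℝ) + 1)) := by
    rw [← Real.exp_add]
    congr 1
    ring
  rw [e]
  ring

/-- The polynomial number of pipes and times is beaten by `exp(-κ² T / (4 L))`,
`L = 10 j - 1`, `T = 10 j² m`, `n = 4^m tb j m`, as soon as `κ² j / 4 ≥ (d + 1) log 4 + 1`. -/
theorem num_poly (d : ℕ) {j : ℕ} (hj : 1 ≤ j) {κ : ℝ} (hκ : 0 < κ)
    (h : (d + 1) * Real.log 4 + 1 ≤ κ ^ 2 * j / 4) :
    Tendsto (fun m : ℕ => ((4 ^ m * tb j m : ℕ) + 1 : ℝ) *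
      (2 * ((4 ^ m * tb j m : ℕ) + (10 * j - 1 : ℕ)) + 1) ^ d *
        Real.exp (-(κ ^ 2 * (10 * j ^ 2 * m : ℕ) / (4 * (10 * j - 1 : ℕ))))) atTop (𝓝 0) := by
  set C : ℝ := 20 * (j : ℝ) ^ 2 + 20 * j + 4 with hC
  have hC0 : 0 ≤ C := by positivity
  have hlim := (numPoly_tendsto (d + 1)).const_mul (C ^ (d + 1))
  rw [mul_zero] at hlim
  refine squeeze_zero (fun m => by positivity) (fun m => ?_) hlim
  have hj' : (1 : ℝ) ≤ j := by exact_mod_cast hj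
  have h4 : (1 : ℝ) ≤ 4 ^ m := one_le_pow₀ (by norm_num)
  have hm0 : (0 : ℝ) ≤ m := Nat.cast_nonneg m
  have etb : ((4 ^ m * tb j m : ℕ) : ℝ) = 4 ^ m * (10 * (j : ℝ) ^ 2 * m + m + 1) := by
    unfold tb
    push_cast
    ring
  have hj2 : 0 ≤ (j : ℝ) ^ 2 * m := by positivity
  have b1 : ((4 ^ m * tb j m : ℕ) + 1 : ℝ) ≤ 4 ^ m * (C * (m + 1)) := by
    rw [etb]
    have : (10 * (j : ℝ) ^ 2 * m + m + 1) + 1 ≤ C * (m + 1) := by
      rw [hC]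
      nlinarith [mul_nonneg (by positivity : (0 : ℝ) ≤ j) hm0, sq_nonneg (j : ℝ)]
    calc 4 ^ m * (10 * (j : ℝ) ^ 2 * m + m + 1) + 1
        ≤ 4 ^ m * (10 * (j : ℝ) ^ 2 * m + m + 1) + 4 ^ m * 1 := by linarith
      _ = 4 ^ m * ((10 * (j : ℝ) ^ 2 * m + m + 1) + 1) := by ring
      _ ≤ 4 ^ m * (C * (m + 1)) := mul_le_mul_of_nonneg_left this (by positivity)
  have b2 : (2 * ((4 ^ m * tb j m : ℕ) + (10 * j - 1 : ℕ)) + 1 : ℝ) ≤ 4 ^ m * (C * (m + 1)) := by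
    rw [etb, numPoly_cast hj]
    have : 2 * (10 * (j : ℝ) ^ 2 * m + m + 1) + 20 * j ≤ C * (m + 1) := by
      rw [hC]
      nlinarith [mul_nonneg (by positivity : (0 : ℝ) ≤ j) hm0, sq_nonneg (j : ℝ)]
    have h5 : (20 : ℝ) * j ≤ 4 ^ m * (20 * j) := by nlinarith
    calc 2 * (4 ^ m * (10 * (j : ℝ) ^ 2 * m + m + 1) + (10 * (j : ℝ) - 1)) + 1
        ≤ 4 ^ m * (2 * (10 * (j : ℝ) ^ 2 * m + m + 1)) + 4 ^ m * (20 * j) := by linarith
      _ = 4 ^ m * (2 * (10 * (j : ℝ) ^ 2 * m + m + 1) + 20 * j) := by ring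
      _ ≤ 4 ^ m * (C * (m + 1)) := mul_le_mul_of_nonneg_left this (by positivity)
  have b3 : Real.exp (-(κ ^ 2 * (10 * j ^ 2 * m : ℕ) / (4 * (10 * j - 1 : ℕ)))) ≤
      ((4 : ℝ) ^ m)⁻¹ ^ (d + 1) * Real.exp (-(m : ℝ)) := by
    refine (numPoly_exp_le hj κ m).trans ?_
    have e4 : ((4 : ℝ) ^ m)⁻¹ ^ (d + 1) = Real.exp (-((d + 1) * Real.log 4 * m)) := by
      rw [Real.exp_neg, inv_pow, ← pow_mul]
      congr 1
      have : ((d : ℝ) + 1) * Real.log 4 * m = ((m * (d + 1) : ℕ) : ℝ) * Real.log 4 := by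
        push_cast
        ring
      rw [this, Real.exp_nat_mul, Real.exp_log (by norm_num)]
    rw [e4, ← Real.exp_add]
    apply Real.exp_le_exp.mpr
    have := mul_le_mul_of_nonneg_right h hm0
    linarith
  have hb2 : 0 ≤ (2 * ((4 ^ m * tb j m : ℕ) + (10 * j - 1 : ℕ)) + 1 : ℝ) := by positivity
  calc ((4 ^ m * tb j m : ℕ) + 1 : ℝ) *
      (2 * ((4 ^ m * tb j m : ℕ) + (10 * j - 1 : ℕ)) + 1) ^ d *
        Real.exp (-(κ ^ 2 * (10 * j ^ 2 * m : ℕ) / (4 * (10 * j - 1 : ℕ))))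
      ≤ (4 ^ m * (C * (m + 1))) * (4 ^ m * (C * (m + 1))) ^ d *
          (((4 : ℝ) ^ m)⁻¹ ^ (d + 1) * Real.exp (-(m : ℝ))) := by
        refine mul_le_mul (mul_le_mul b1 (pow_le_pow_left₀ hb2 b2 d) (by positivity)
          (by positivity)) b3 (Real.exp_pos _).le (by positivity)
    _ = C ^ (d + 1) * (((m : ℝ) + 1) ^ (d + 1) * Real.exp (-(m : ℝ))) := by
        have h4' : (4 : ℝ) ^ m ≠ 0 := by positivity
        rw [← pow_succ' (4 ^ m * (C * ((m : ℝ) + 1))) d, mul_pow, mul_pow, inv_pow]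
        field_simp

theorem num_exp {j : ℕ} (hj : 1 ≤ j) {κ : ℝ} (hκ : 0 < κ) :
    Tendsto (fun m : ℕ =>
      Real.exp (-(κ ^ 2 * (10 * j ^ 2 * m : ℕ) / (4 * (10 * j - 1 : ℕ))))) atTop (𝓝 0) := by
  refine squeeze_zero (fun m => (Real.exp_pos _).le) (numPoly_exp_le hj κ) ?_
  have hj' : (0 : ℝ) < j := by exact_mod_cast hj
  have hc : 0 < κ ^ 2 * j / 4 := by positivity
  exact Real.tendsto_exp_neg_atTop_nhds_zero.comp
    (tendsto_natCast_atTop_atTop.const_mul_atTop hc)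

end Pool.Agent.MP_f3fa2b_pr
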