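import Pool.Agent.Lib.MP_f3fa2b_pr.Cmain
import Pool.Agent.Lib.MP_f3fa2b_pr.Poly
import Pool.Agent.Lib.MP_f3fa2b_pr.Mart
import Pool.Agent.Lib.MP_f3fa2b_pr.MartZero
import Pool.Agent.Lib.MP_f3fa2b_pr.Level
import Pool.Agent.Lib.MP_f3fa2b_pr.NumPoly
import Pool.Agent.Lib.MP_f3fa2b_pr.Bern

/-!
Assembly.
-/

namespace Pool.Agent.MP_f3fa2b_pr

open MeasureTheory ProbabilityTheory Filter Topology
open scoped ENNReal

universe u

variable {d : ℕ}

private theorem deg_pos_of_inf {η : Cfg d} (hη : InfC η 0) : 0 < deg η 0 := by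
  by_contra hcon
  have h0 : deg η 0 = 0 := by omega
  apply hη
  have hsub : cluster η 0 ⊆ {0} := by
    intro y hy
    have hy' : Relation.ReflTransGen
        (fun u v => ∃ s : Step d, η (bond u s) = true ∧ v = u + vec s) 0 y := hy
    rcases Relation.ReflTransGen.cases_head hy' with h | ⟨z, ⟨s, hs, _⟩, _⟩
    · exact h.symm
    · exfalso
      unfold deg at h0
      rw [Finset.card_eq_zero] at h0
      have : s ∈ Finset.univ.filter fun s : Step d => η (bond 0 s) = true :=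
        Finset.mem_filter.mpr ⟨Finset.mem_univ _, hs⟩
      rw [h0] at this
      exact absurd this (Finset.notMem_empty _)
  exact (Set.finite_singleton 0).subset hsub

private theorem le_time (j m : ℕ) : m ≤ 4 ^ m * tb j m := by
  have h1 : 1 ≤ 4 ^ m := Nat.one_le_pow _ _ (by norm_num)
  have h2 : m ≤ tb j m := by unfold tb; omega
  calc m ≤ 1 * tb j m := by rw [one_mul]; exact h2
    _ ≤ 4 ^ m * tb j m := Nat.mul_le_mul_right _ h1

/-- For a configuration with small `hm` the polymer is in strong disorder. -/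
theorem strong_of_hm [NeZero d] {η : Cfg d} (hη : InfC η 0)
    (hs : ∀ j : ℕ, 1 ≤ j → ∀ ε > 0, ∀ N : ℕ, ∃ m ≥ N, hm η j m ≤ ε) : StrongDisorder.{u} η := by
  intro Ω _ P _ ω h β hβ hi
  have hd : 0 < deg η 0 := deg_pos_of_inf hη
  obtain ⟨c, q, κ, hq0, hq1, hκ0, hκ1, h0, h2⟩ := level (h.meas 1 0) hβ hi h.nonconst
  obtain ⟨j, hj⟩ := exists_nat_ge (((d + 1) * Real.log 4 + 1) * 4 / κ ^ 2)
  have hκ2 : 0 < κ ^ 2 := by positivity
  have hj2 : (d + 1) * Real.log 4 + 1 ≤ κ ^ 2 * j / 4 := by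
    rw [div_le_iff₀ hκ2] at hj
    linarith
  have hj1 : 1 ≤ j := by
    rcases Nat.eq_zero_or_pos j with rfl | hj'
    · exfalso
      have hlog : 0 ≤ Real.log 4 := Real.log_nonneg (by norm_num)
      have : 0 ≤ ((d : ℝ) + 1) * Real.log 4 := by positivity
      simp at hj2
      linarith
    · exact hj'
  refine mart_zero (W_mart hd h hi) (fun n a => ?_) ?_
  · exact walkE_nonneg η n 0 fun l => (Real.exp_pos _).le
  · intro δ hδ N
    have e1 : ∀ᶠ m : ℕ in atTop, ((4 ^ m * tb j m : ℕ) + 1 : ℝ) *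
      (2 * ((4 ^ m * tb j m : ℕ) + (10 * j - 1 : ℕ)) + 1) ^ d *
        Real.exp (-(κ ^ 2 * (10 * j ^ 2 * m : ℕ) / (4 * (10 * j - 1 : ℕ)))) < δ / 3 :=
      (num_poly d hj1 hκ0 hj2).eventually_lt_const (by positivity)
    have e2 : ∀ᶠ m : ℕ in atTop,
        Real.exp (-(κ ^ 2 * (10 * j ^ 2 * m : ℕ) / (4 * (10 * j - 1 : ℕ)))) < δ ^ 2 / 3 :=
      (num_exp hj1 hκ0).eventually_lt_const (by positivity)
    obtain ⟨M, hM⟩ := eventually_atTop.mp (e1.and e2)
    obtain ⟨m, hm1, hm2⟩ := hs j hj1 (δ ^ 2 / 3) (by positivity) (max (max M N) 1)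
    have hmM : M ≤ m := le_trans (le_trans (le_max_left _ _) (le_max_left _ _)) hm1
    have hmN : N ≤ m := le_trans (le_trans (le_max_right _ _) (le_max_left _ _)) hm1
    have hm0 : 1 ≤ m := le_trans (le_max_right _ _) hm1
    obtain ⟨b1, b2⟩ := hM m hmM
    refine ⟨4 ^ m * tb j m, hmN.trans (le_time j m), ?_⟩
    have hT : 1 ≤ 10 * j ^ 2 * m := by
      have : 0 < 10 * j ^ 2 * m := by positivity
      omega
    have hb := W_small hd h hi hq0 hq1 hκ0 hκ1 h0 h2 (L := 10 * j - 1) (T := 10 * j ^ 2 * m) hT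
      (4 ^ m * tb j m) hδ
    refine hb.trans ?_
    have hmdef : (walkE η (4 ^ m * tb j m) 0
        fun l => ind (¬ HasStay η (10 * j - 1) (10 * j ^ 2 * m) l)) = hm η j m := rfl
    rw [hmdef]
    have b3 : (hm η j m + Real.exp (-(κ ^ 2 * (10 * j ^ 2 * m : ℕ) / (4 * (10 * j - 1 : ℕ))))) / δ
        ≤ 2 * δ / 3 := by
      rw [div_le_iff₀ hδ]
      nlinarith [hm2, b2]
    linarith [b1, b3]

theorem cluster_zero (η : Cfg 0) : (cluster η 0).Finite :=
  Set.Subsingleton.finite fun x _ y _ => Subsingleton.elim x y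

theorem main : (∀ (d : ℕ) (μ : Measure (Cfg d)) [IsProbabilityMeasure μ], TransInv μ →
      FiniteEnergy μ → ∀ᵐ η ∂μ, (cluster η 0).Infinite → StrongDisorder.{u} η) ∧
    ∀ (d : ℕ) (p : ℝ), 0 < p → p < 1 → IsProbabilityMeasure (bernoulli d p) ∧
      TransInv (bernoulli d p) ∧ FiniteEnergy (bernoulli d p) := by
  refine ⟨?_, fun d p h0 h1 => ⟨bern_prob h0 h1, bern_inv h0 h1, bern_fe h0 h1⟩⟩
  intro d μ hμ hT hF
  rcases Nat.eq_zero_or_pos d with rfl | hd
  · exact Eventually.of_forall fun η h => absurd (cluster_zero η) h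
  · have : NeZero d := ⟨hd.ne'⟩
    have h : ∀ᵐ η ∂μ, ∀ j : ℕ, 1 ≤ j → InfC η 0 → ∀ ε > 0, ∀ N : ℕ, ∃ m ≥ N, hm η j m ≤ ε := by
      rw [ae_all_iff]
      intro j
      rcases Nat.eq_zero_or_pos j with rfl | hj
      · exact Eventually.of_forall fun η h => absurd h (by norm_num)
      · exact (hm_small hT hF hj).mono fun η h _ => h
    exact h.mono fun η h hi => strong_of_hm hi fun j hj => h j hj hi

end Pool.Agent.MP_f3fa2b_pr
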