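import Pool.Agent.Lib.MP_f3fa2b_pr.Base

/-!
(B) Estimates for one site of the field.
-/

namespace Pool.Agent.MP_f3fa2b_pr

open MeasureTheory ProbabilityTheory Filter Topology
open scoped ENNReal

variable {Ω : Type*} [MeasurableSpace Ω] {P : Measure Ω} [IsProbabilityMeasure P] {X : Ω → ℝ}

/-- Weight of a site of the path. -/
noncomputable def gw (β lam x : ℝ) : ℝ := Real.exp (β * x - lam)

/-- Centred indicator of `[c, ∞)`. -/
noncomputable def cen (c q x : ℝ) : ℝ := ind (c ≤ x) - q

theorem meas_gw (β lam : ℝ) : Measurable (gw β lam) := by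
  unfold gw
  fun_prop

theorem meas_cen (c q : ℝ) : Measurable (cen c q) := by
  unfold cen
  refine Measurable.sub_const ?_ q
  have h : (fun x : ℝ => ind (c ≤ x)) = (Set.Ici c).indicator (fun _ => (1 : ℝ)) := by
    funext x
    by_cases hx : c ≤ x
    · rw [ind_pos hx, Set.indicator_of_mem (Set.mem_Ici.mpr hx)]
    · rw [ind_neg hx, Set.indicator_of_notMem (by simpa using hx)]
  rw [h]
  exact measurable_const.indicator measurableSet_Ici

theorem cen_abs {c q : ℝ} (hq0 : 0 ≤ q) (hq1 : q ≤ 1) (x : ℝ) : |cen c q x| ≤ 1 := by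
  unfold cen
  have h0 := ind_nonneg (c ≤ x)
  have h1 := ind_le_one (c ≤ x)
  rw [abs_le]
  constructor <;> linarith

theorem gw_integrable {β : ℝ} (hi : Integrable (fun a => Real.exp (β * X a)) P) (lam : ℝ) :
    Integrable (fun a => gw β lam (X a)) P := by
  have h : (fun a => gw β lam (X a)) = fun a => Real.exp (β * X a) * Real.exp (-lam) := by
    funext a
    rw [gw, ← Real.exp_add]
    rfl
  rw [h]
  exact hi.mul_const _

theorem gw_integral {β : ℝ} (hX : Measurable X) (hi : Integrable (fun a => Real.exp (β * X a)) P) :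
    ∫ a, gw β (cgf X P β) (X a) ∂P = 1 := by
  have h : (fun a => gw β (cgf X P β) (X a)) =
      fun a => Real.exp (β * X a) * Real.exp (-cgf X P β) := by
    funext a
    rw [gw, ← Real.exp_add]
    rfl
  rw [h, integral_mul_const, Real.exp_neg, exp_cgf hi]
  exact mul_inv_cancel₀ (mgf_pos hi).ne'

/-- `exp(s x) ≤ 1 + s x + s²` for `|x| ≤ 1`, `|s| ≤ 1`. -/
theorem exp_bound {s x : ℝ} (hs : |s| ≤ 1) (hx : |x| ≤ 1) :
    Real.exp (s * x) ≤ 1 + s * x + s ^ 2 := by
  have h1 : |s * x| ≤ 1 := by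
    rw [abs_mul]
    exact mul_le_one₀ hs (abs_nonneg _) hx
  have h2 := Real.abs_exp_sub_one_sub_id_le h1
  have h3 := (abs_le.mp h2).2
  have h4 : (s * x) ^ 2 ≤ s ^ 2 := by
    rw [mul_pow]
    have : x ^ 2 ≤ 1 := (sq_le_one_iff_abs_le_one x).mpr hx
    nlinarith [sq_nonneg s]
  linarith

theorem site_free {c q s : ℝ} (hX : Measurable X) (hq0 : 0 ≤ q) (hq1 : q ≤ 1) (hs : |s| ≤ 1)
    (h0 : ∫ a, cen c q (X a) ∂P = 0) :
    ∫ a, Real.exp (s * cen c q (X a)) ∂P ≤ Real.exp (s ^ 2) := by
  have hm : Measurable fun a => cen c q (X a) := (meas_cen c q).comp hX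
  have hint : Integrable (fun a => cen c q (X a)) P :=
    Integrable.of_bound hm.aestronglyMeasurable 1
      (ae_of_all _ fun a => by rw [Real.norm_eq_abs]; exact cen_abs hq0 hq1 _)
  have hint2 : Integrable (fun a => 1 + s * cen c q (X a) + s ^ 2) P :=
    ((integrable_const (1 : ℝ)).add (hint.const_mul s)).add (integrable_const _)
  calc ∫ a, Real.exp (s * cen c q (X a)) ∂P
      ≤ ∫ a, (1 + s * cen c q (X a) + s ^ 2) ∂P := by
        refine integral_mono_of_nonneg (ae_of_all _ fun a => (Real.exp_pos _).le) hint2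
          (ae_of_all _ fun a => exp_bound hs (cen_abs hq0 hq1 _))
    _ = 1 + s ^ 2 := by
        have e1 : ∫ a, (1 + s * cen c q (X a) + s ^ 2) ∂P
            = ∫ a, (1 + s * cen c q (X a)) ∂P + ∫ _a, s ^ 2 ∂P :=
          integral_add ((integrable_const (1 : ℝ)).add (hint.const_mul s)) (integrable_const _)
        have e2 : ∫ a, (1 + s * cen c q (X a)) ∂P = ∫ _a, (1 : ℝ) ∂P + ∫ a, s * cen c q (X a) ∂P :=
          integral_add (integrable_const (1 : ℝ)) (hint.const_mul s)
        rw [e1, e2, integral_const_mul, h0]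
        simp
    _ ≤ Real.exp (s ^ 2) := by
        have := Real.add_one_le_exp (s ^ 2)
        linarith

theorem site_path {β c q κ s : ℝ} (hX : Measurable X)
    (hi : Integrable (fun a => Real.exp (β * X a)) P) (hq0 : 0 ≤ q) (hq1 : q ≤ 1) (hs0 : 0 ≤ s)
    (hs1 : s ≤ 1) (h2 : ∫ a, gw β (cgf X P β) (X a) * cen c q (X a) ∂P = 2 * κ) :
    ∫ a, gw β (cgf X P β) (X a) * Real.exp (-s * cen c q (X a)) ∂P ≤
      Real.exp (-2 * κ * s + s ^ 2) := by
  have hm : Measurable fun a => cen c q (X a) := (meas_cen c q).comp hX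
  have hg : Integrable (fun a => gw β (cgf X P β) (X a)) P := gw_integrable hi _
  have hgc : Integrable (fun a => gw β (cgf X P β) (X a) * cen c q (X a)) P :=
    hg.mul_bdd (c := 1) hm.aestronglyMeasurable
      (ae_of_all _ fun a => by rw [Real.norm_eq_abs]; exact cen_abs hq0 hq1 _)
  have hs : |(-s)| ≤ 1 := by
    rw [abs_neg, abs_of_nonneg hs0]
    exact hs1
  have hint2 : Integrable (fun a => gw β (cgf X P β) (X a) * (1 + s ^ 2)
      + (-s) * (gw β (cgf X P β) (X a) * cen c q (X a))) P :=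
    (hg.mul_const _).add (hgc.const_mul _)
  calc ∫ a, gw β (cgf X P β) (X a) * Real.exp (-s * cen c q (X a)) ∂P
      ≤ ∫ a, (gw β (cgf X P β) (X a) * (1 + s ^ 2)
          + (-s) * (gw β (cgf X P β) (X a) * cen c q (X a))) ∂P := by
        refine integral_mono_of_nonneg
          (ae_of_all _ fun a => mul_nonneg (Real.exp_pos _).le (Real.exp_pos _).le) hint2
          (ae_of_all _ fun a => ?_)
        have h := exp_bound (x := cen c q (X a)) hs (cen_abs hq0 hq1 (X a))
        have hgp : 0 ≤ gw β (cgf X P β) (X a) := (Real.exp_pos _).le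
        have h' := mul_le_mul_of_nonneg_left h hgp
        show gw β (cgf X P β) (X a) * Real.exp (-s * cen c q (X a)) ≤ _
        calc gw β (cgf X P β) (X a) * Real.exp (-s * cen c q (X a))
            ≤ gw β (cgf X P β) (X a) * (1 + -s * cen c q (X a) + (-s) ^ 2) := h'
          _ = gw β (cgf X P β) (X a) * (1 + s ^ 2)
              + (-s) * (gw β (cgf X P β) (X a) * cen c q (X a)) := by ring
    _ = (1 + s ^ 2) + (-s) * (2 * κ) := by
        have e1 : ∫ a, (gw β (cgf X P β) (X a) * (1 + s ^ 2)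
            + (-s) * (gw β (cgf X P β) (X a) * cen c q (X a))) ∂P
            = ∫ a, gw β (cgf X P β) (X a) * (1 + s ^ 2) ∂P
              + ∫ a, (-s) * (gw β (cgf X P β) (X a) * cen c q (X a)) ∂P :=
          integral_add (hg.mul_const _) (hgc.const_mul _)
        rw [e1, integral_mul_const, integral_const_mul, h2, gw_integral hX hi]
        ring
    _ ≤ Real.exp (-2 * κ * s + s ^ 2) := by
        have := Real.add_one_le_exp (-2 * κ * s + s ^ 2)
        linarith

end Pool.Agent.MP_f3fa2b_pr
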