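import Pool.Agent.Lib.MP_f3fa2b_pr.Path

/-!
Measurability in the configuration.
-/

namespace Pool.Agent.MP_f3fa2b_pr

open MeasureTheory ProbabilityTheory Filter Topology
open scoped ENNReal

variable {d : ℕ}

theorem meas_open (b : Bond d) (v : Bool) : MeasurableSet {η : Cfg d | η b = v} := by
  have h : Measurable fun η : Cfg d => η b := measurable_pi_apply b
  exact h (MeasurableSet.singleton v)

theorem meas_deg (x : Vx d) : Measurable fun η : Cfg d => (deg η x : ℝ) := by
  have h : (fun η : Cfg d => (deg η x : ℝ))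
      = fun η => ∑ s : Step d, if η (bond x s) = true then (1 : ℝ) else 0 := by
    funext η
    unfold deg
    rw [Finset.card_filter]
    push_cast
    rfl
  rw [h]
  exact Finset.measurable_sum _ fun s _ =>
    Measurable.ite (meas_open _ _) measurable_const measurable_const

theorem meas_walkE {F : Cfg d → List (Vx d) → ℝ} (hF : ∀ l, Measurable fun η => F η l) (n : ℕ)
    (x : Vx d) : Measurable fun η => walkE η n x (F η) := by
  induction n generalizing x F with
  | zero => exact hF []
  | succ n ih =>
    have h : Measurable fun η : Cfg d => (∑ s : Step d, if η (bond x s) = true then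
        walkE η n (x + vec s) (fun l => F η ((x + vec s) :: l)) else 0) / (deg η x : ℝ) := by
      refine Measurable.div (Finset.measurable_sum _ fun s _ => ?_) (meas_deg x)
      refine Measurable.ite (meas_open _ _) ?_ measurable_const
      exact ih (F := fun η l => F η ((x + vec s) :: l)) (fun l => hF _) _
    exact h

theorem meas_ind {p : Cfg d → Prop} (h : MeasurableSet {η | p η}) :
    Measurable fun η => ind (p η) := by
  classical
  have h1 : (fun η => ind (p η)) = fun η => if p η then (1 : ℝ) else 0 := by
    funext η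
    by_cases hp : p η
    · rw [ind_pos hp, if_pos hp]
    · rw [ind_neg hp, if_neg hp]
  rw [h1]
  exact Measurable.ite h measurable_const measurable_const

theorem meas_pth (x : Vx d) (l : List (Vx d)) : MeasurableSet {η : Cfg d | Pth η x l} := by
  induction l generalizing x with
  | nil =>
    have h : {η : Cfg d | Pth η x []} = Set.univ := by
      ext η
      simp [Pth]
    rw [h]
    exact MeasurableSet.univ
  | cons y l ih =>
    have h : {η : Cfg d | Pth η x (y :: l)}
        = (⋃ s : Step d, {η : Cfg d | η (bond x s) = true} ∩ {_η : Cfg d | y = x + vec s})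
          ∩ {η | Pth η y l} := by
      ext η
      simp [Pth]
    rw [h]
    exact (MeasurableSet.iUnion fun s => (meas_open _ _).inter (MeasurableSet.const _)).inter (ih y)

theorem meas_cluster (x y : Vx d) : MeasurableSet {η : Cfg d | y ∈ cluster η x} := by
  have h : {η : Cfg d | y ∈ cluster η x}
      = ⋃ l : List (Vx d), {η : Cfg d | Pth η x l} ∩ {_η : Cfg d | lst x l = y} := by
    ext η
    simp [mem_cluster_iff]
  rw [h]
  exact MeasurableSet.iUnion fun l => (meas_pth x l).inter (MeasurableSet.const _)

theorem meas_infC (x : Vx d) : MeasurableSet {η : Cfg d | InfC η x} := by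
  have h : {η : Cfg d | InfC η x}
      = ⋂ S : Finset (Vx d), ⋃ y : Vx d, {η : Cfg d | y ∈ cluster η x} ∩ {_η : Cfg d | y ∉ S} := by
    ext η
    simp only [Set.mem_ofPred_eq, Set.mem_iInter, Set.mem_iUnion, Set.mem_inter_iff]
    constructor
    · intro hi S
      obtain ⟨y, hy, hS⟩ := Set.Infinite.exists_notMem_finset hi S
      exact ⟨y, hy, hS⟩
    · intro hi hf
      obtain ⟨y, hy, hS⟩ := hi hf.toFinset
      exact hS (hf.mem_toFinset.2 hy)
  rw [h]
  exact MeasurableSet.iInter fun S => MeasurableSet.iUnion fun y =>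
    (meas_cluster x y).inter (MeasurableSet.const _)

variable [NeZero d]

theorem meas_pipe (L : ℕ) (v : Vx d) : MeasurableSet {η : Cfg d | Pipe η L v} := by
  have h : {η : Cfg d | Pipe η L v} = ⋂ k : ℕ, ⋂ _ : 1 ≤ k, ⋂ _ : k ≤ L, ⋂ s : Step d,
      {η : Cfg d | η (bond (v + (k : ℤ) • e1) s) = true ↔ s.1 = 0} := by
    ext η
    simp [Pipe]
  rw [h]
  refine MeasurableSet.iInter fun k => MeasurableSet.iInter fun _ => MeasurableSet.iInter fun _ =>
    MeasurableSet.iInter fun s => ?_
  by_cases hs : s.1 = 0
  · have h1 : {η : Cfg d | η (bond (v + (k : ℤ) • e1) s) = true ↔ s.1 = 0}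
        = {η : Cfg d | η (bond (v + (k : ℤ) • e1) s) = true} := by
      ext η
      simp [hs]
    rw [h1]
    exact meas_open _ _
  · have h1 : {η : Cfg d | η (bond (v + (k : ℤ) • e1) s) = true ↔ s.1 = 0}
        = {η : Cfg d | η (bond (v + (k : ℤ) • e1) s) = false} := by
      ext η
      simp [hs]
    rw [h1]
    exact meas_open _ _

theorem meas_hasStay (L T : ℕ) (l : List (Vx d)) : MeasurableSet {η : Cfg d | HasStay η L T l} := by
  have h : {η : Cfg d | HasStay η L T l} = ⋃ v : Vx d, {η : Cfg d | Pipe η L v} ∩
      {_η : Cfg d | ∃ l1 l2 l3 : List (Vx d), l = l1 ++ l2 ++ l3 ∧ l2.length = T ∧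
        ∀ y ∈ l2, y ∈ PB L v} := by
    ext η
    simp only [HasStay, Set.mem_ofPred_eq, Set.mem_iUnion, Set.mem_inter_iff]
  rw [h]
  exact MeasurableSet.iUnion fun v => (meas_pipe L v).inter (MeasurableSet.const _)

theorem meas_good (L R : ℕ) (x : Vx d) : MeasurableSet {η : Cfg d | Good η L R x} := by
  have h : {η : Cfg d | Good η L R x} = ⋃ l : List (Vx d), {_η : Cfg d | l.length ≤ R} ∩
      ({η : Cfg d | Pth η x l} ∩ ⋃ v : Vx d, {η : Cfg d | Pipe η L v} ∩
        {_η : Cfg d | lst x l ∈ PB L v}) := by
    ext η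
    simp only [Good, Set.mem_ofPred_eq, Set.mem_iUnion, Set.mem_inter_iff]
  rw [h]
  exact MeasurableSet.iUnion fun l => (MeasurableSet.const _).inter ((meas_pth x l).inter
    (MeasurableSet.iUnion fun v => (meas_pipe L v).inter (MeasurableSet.const _)))

theorem meas_cb (L R tb K : ℕ) (x : Vx d) : Measurable fun η : Cfg d => cb η L R tb K x := by
  induction K generalizing x with
  | zero => exact measurable_const
  | succ K ih =>
    have h : Measurable fun η : Cfg d => ind (¬ Good η L R x)
        + walkE η tb x fun l => cb η L R tb K (lst x l) := by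
      refine Measurable.add (meas_ind (meas_good L R x).compl) ?_
      exact meas_walkE (F := fun η l => cb η L R tb K (lst x l)) (fun l => ih _) tb x
    exact h

theorem meas_fewPipes (L M : ℕ) (x : Vx d) : MeasurableSet {η : Cfg d | FewPipes L M η x} := by
  have h : {η : Cfg d | FewPipes L M η x} = {η : Cfg d | InfC η x} ∩
      ((⋃ v : Vx d, {η : Cfg d | Pipe η L v} ∩ {η : Cfg d | v + e1 ∈ cluster η x}) ∩
        ⋃ A : Finset (Vx d), {_η : Cfg d | A.card ≤ M} ∩
          ⋂ v : Vx d, ({η : Cfg d | Pipe η L v}ᶜ ∪ ({η : Cfg d | v + e1 ∈ cluster η x}ᶜ ∪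
            {_η : Cfg d | v ∈ A}))) := by
    ext η
    simp only [FewPipes, Set.mem_ofPred_eq, Set.mem_iUnion, Set.mem_inter_iff, Set.mem_iInter,
      Set.mem_union, Set.mem_compl_iff]
    refine and_congr Iff.rfl (and_congr Iff.rfl (exists_congr fun A => and_congr Iff.rfl
      (forall_congr' fun v => ?_)))
    tauto
  rw [h]
  exact (meas_infC x).inter ((MeasurableSet.iUnion fun v =>
    (meas_pipe L v).inter (meas_cluster x _)).inter (MeasurableSet.iUnion fun A =>
      (MeasurableSet.const _).inter (MeasurableSet.iInter fun v =>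
        (meas_pipe L v).compl.union ((meas_cluster x _).compl.union (MeasurableSet.const _)))))

theorem meas_shift (a : Vx d) : Measurable (shift a : Cfg d → Cfg d) :=
  measurable_pi_lambda _ fun b => measurable_pi_apply (b.1 + a, b.2)

end Pool.Agent.MP_f3fa2b_pr
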