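import Pool.Agent.Lib.MP_f3fa2b_pr.Walk

/-!
Paths and clusters.
-/

namespace Pool.Agent.MP_f3fa2b_pr

open MeasureTheory ProbabilityTheory Filter Topology
open scoped ENNReal

variable {d : ℕ}

private theorem path_deg_le (η : Cfg d) (x : Vx d) : deg η x ≤ 2 * d := by
  unfold deg
  refine (Finset.card_filter_le _ _).trans ?_
  rw [Finset.card_univ, Fintype.card_prod, Fintype.card_fin, Fintype.card_bool]
  omega

private theorem path_deg_pos (η : Cfg d) {x : Vx d} {s : Step d} (h : η (bond x s) = true) :
    0 < deg η x := by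
  unfold deg
  exact Finset.card_pos.2 ⟨s, Finset.mem_filter.2 ⟨Finset.mem_univ _, h⟩⟩

/-- Probability of following a given path. -/
theorem path_prob (η : Cfg d) {x : Vx d} {l₀ : List (Vx d)} (h : Pth η x l₀) :
    (1 / (2 * d) : ℝ) ^ l₀.length ≤ walkE η l₀.length x fun l => ind (l = l₀) := by
  induction l₀ generalizing x with
  | nil =>
    simp only [List.length_nil, pow_zero, walkE]
    rw [ind_pos trivial]
  | cons y l ih =>
    obtain ⟨⟨s, hs, rfl⟩, hl⟩ := h
    have hd1 := path_deg_pos η hs
    have hd2 := path_deg_le η x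
    have hd1' : (0 : ℝ) < (deg η x : ℝ) := by exact_mod_cast hd1
    have hd2' : (deg η x : ℝ) ≤ 2 * d := by exact_mod_cast hd2
    have hnn : ∀ s' : Step d, 0 ≤ (if η (bond x s') = true then
        walkE η l.length (x + vec s')
          (fun l' => ind ((x + vec s') :: l' = (x + vec s) :: l)) else 0) := by
      intro s'
      split_ifs
      · exact walkE_nonneg η _ _ fun _ => ind_nonneg _
      · exact le_rfl
    have hsum : (1 / (2 * d) : ℝ) ^ l.length ≤ ∑ s' : Step d, (if η (bond x s') = true then
        walkE η l.length (x + vec s')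
          (fun l' => ind ((x + vec s') :: l' = (x + vec s) :: l)) else 0) := by
      refine le_trans ?_ (Finset.single_le_sum (fun s' _ => hnn s') (Finset.mem_univ s))
      rw [if_pos hs]
      refine (ih hl).trans (le_of_eq ?_)
      refine walkE_congr η _ _ fun l' _ _ => ?_
      apply ind_congr
      simp
    have h2d : (0 : ℝ) < 2 * d := lt_of_lt_of_le hd1' hd2'
    show (1 / (2 * d) : ℝ) ^ (l.length + 1) ≤ walkE η (l.length + 1) x _
    rw [pow_succ]
    simp only [walkE]
    rw [le_div_iff₀ hd1']
    refine le_trans ?_ hsum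
    have hp : (0 : ℝ) ≤ (1 / (2 * d) : ℝ) ^ l.length := by positivity
    have h1 : (1 / (2 * d) : ℝ) * deg η x ≤ 1 := by
      rw [one_div, inv_mul_le_iff₀ h2d, mul_one]
      exact hd2'
    calc (1 / (2 * d) : ℝ) ^ l.length * (1 / (2 * d)) * deg η x
        = (1 / (2 * d) : ℝ) ^ l.length * ((1 / (2 * d)) * deg η x) := by ring
      _ ≤ (1 / (2 * d) : ℝ) ^ l.length * 1 := mul_le_mul_of_nonneg_left h1 hp
      _ = _ := mul_one _

/-- The points of the cluster are the end points of open paths. -/
theorem mem_cluster_iff (η : Cfg d) (x y : Vx d) :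
    y ∈ cluster η x ↔ ∃ l, Pth η x l ∧ lst x l = y := by
  constructor
  · intro h
    refine Relation.ReflTransGen.head_induction_on
      (motive := fun a _ => ∃ l, Pth η a l ∧ lst a l = y) h ?_ ?_
    · exact ⟨[], trivial, rfl⟩
    · rintro a c ⟨s, hs, hc⟩ _ ⟨l, hl, hy⟩
      refine ⟨c :: l, ⟨⟨s, hs, hc⟩, hl⟩, ?_⟩
      rw [lst_cons]
      exact hy
  · rintro ⟨l, hl, rfl⟩
    induction l generalizing x with
    | nil => exact Relation.ReflTransGen.refl
    | cons z l ih =>
      obtain ⟨h1, h2⟩ := hl
      rw [lst_cons]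
      exact Relation.ReflTransGen.head h1 (ih z h2)

/-- The open step can be reversed. -/
theorem step_symm (η : Cfg d) (x : Vx d) (s : Step d) (h : η (bond x s) = true) :
    ∃ s' : Step d, η (bond (x + vec s) s') = true ∧ x = x + vec s + vec s' := by
  obtain ⟨i, b⟩ := s
  cases b
  · refine ⟨(i, true), ?_, ?_⟩
    · simp only [bond, vec, Bool.false_eq_true, if_false, if_true] at h ⊢
      rw [← sub_eq_add_neg]
      exact h
    · simp only [vec, Bool.false_eq_true, if_false, if_true]
      abel
  · refine ⟨(i, false), ?_, ?_⟩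
    · simp only [bond, vec, Bool.false_eq_true, if_false, if_true] at h ⊢
      rw [add_sub_cancel_right]
      exact h
    · simp only [vec, Bool.false_eq_true, if_false, if_true]
      abel

/-- All points of a cluster have the same cluster. -/
theorem cluster_lst (η : Cfg d) {x : Vx d} {l : List (Vx d)} (hl : Pth η x l) :
    cluster η (lst x l) = cluster η x := by
  have hmem : Relation.ReflTransGen (fun u v => ∃ s : Step d, η (bond u s) = true ∧ v = u + vec s)
      x (lst x l) := (mem_cluster_iff η x _).2 ⟨l, hl, rfl⟩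
  have hmem' : Relation.ReflTransGen
      (fun u v => ∃ s : Step d, η (bond u s) = true ∧ v = u + vec s) (lst x l) x := by
    refine Relation.ReflTransGen.head_induction_on
      (motive := fun a _ => Relation.ReflTransGen
        (fun u v => ∃ s : Step d, η (bond u s) = true ∧ v = u + vec s) (lst x l) a) hmem ?_ ?_
    · exact Relation.ReflTransGen.refl
    · rintro a c ⟨s, hs, rfl⟩ _ hc
      exact hc.tail (step_symm η a s hs)
  ext z
  constructor
  · intro hz
    exact hmem.trans hz
  · intro hz
    exact hmem'.trans hz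

/-- The degree is positive in an infinite cluster. -/
theorem deg_pos_of_infC (η : Cfg d) {x : Vx d} (h : InfC η x) : 0 < deg η x := by
  by_contra hdeg
  apply h
  refine (Set.finite_singleton x).subset ?_
  intro z hz
  rcases Relation.ReflTransGen.cases_head hz with hxz | ⟨c, ⟨s, hs, _⟩, _⟩
  · exact hxz.symm
  · exact absurd (path_deg_pos η hs) hdeg

private theorem path_vec_abs (s : Step d) (i : Fin d) : |vec s i| ≤ 1 := by
  have h : |ev s.1 i| ≤ 1 := by
    unfold ev
    by_cases hi : i = s.1
    · subst hi; simp
    · rw [Pi.single_eq_of_ne hi]; simp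
  unfold vec
  split_ifs
  · exact h
  · rw [Pi.neg_apply, abs_neg]
    exact h

/-- A path of length `n` stays within distance `n` of its start. -/
theorem pth_dist (η : Cfg d) {x : Vx d} {l : List (Vx d)} (hl : Pth η x l) (y : Vx d) (hy : y ∈ l)
    (i : Fin d) : |y i - x i| ≤ l.length := by
  induction l generalizing x with
  | nil => simp at hy
  | cons z l ih =>
    obtain ⟨⟨s, _, rfl⟩, h2⟩ := hl
    have hs := path_vec_abs s i
    have hlen : (((x + vec s) :: l).length : ℤ) = l.length + 1 := by simp
    rw [hlen]
    rcases List.mem_cons.1 hy with rfl | hy'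
    · rw [Pi.add_apply, add_sub_cancel_left]
      have : (0 : ℤ) ≤ l.length := by positivity
      linarith
    · have h3 := ih h2 hy'
      rw [Pi.add_apply] at h3
      have h4 : y i - x i = (y i - (x i + vec s i)) + vec s i := by ring
      rw [h4]
      exact (abs_add_le _ _).trans (by linarith)

end Pool.Agent.MP_f3fa2b_pr
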