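import Pool.Agent.Lib.MP_f3fa2b_pr.Path
import Pool.Agent.Lib.MP_f3fa2b_pr.Chern

/-!
(B) The exceptional event.
-/

namespace Pool.Agent.MP_f3fa2b_pr

open MeasureTheory ProbabilityTheory Filter Topology
open scoped ENNReal

variable {d : ℕ} [NeZero d] {Ω : Type*} [MeasurableSpace Ω] {P : Measure Ω}
  [IsProbabilityMeasure P]

/-- Box which contains all pipes that a path of length `n` from `0` can meet. -/
noncomputable def Box (d N : ℕ) : Finset (Vx d) := Fintype.piFinset fun _ => Finset.Icc (-(N : ℤ)) N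

theorem card_Box (d N : ℕ) : (Box d N).card = (2 * N + 1) ^ d := by
  unfold Box
  rw [Fintype.card_piFinset_const, Int.card_Icc]
  congr 1
  omega

/-- A stay takes place in a pipe of the box and starts before time `n`. -/
theorem stay_box {η : Cfg d} {L T n : ℕ} (hT : 1 ≤ T) {l : List (Vx d)} (hl : Pth η 0 l)
    (hn : l.length = n) (hs : HasStay η L T l) :
    ∃ v ∈ Box d (n + L), ∃ l1 l2 l3 : List (Vx d), l = l1 ++ l2 ++ l3 ∧ l2.length = T ∧
      l1.length ≤ n ∧ ∀ y ∈ l2, y ∈ PB L v := by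
  obtain ⟨v, -, l1, l2, l3, hl', hT', hPB⟩ := hs
  refine ⟨v, ?_, l1, l2, l3, hl', hT', ?_, hPB⟩
  · have hne : l2 ≠ [] := by
      rintro rfl
      simp at hT'
      omega
    obtain ⟨y, hy⟩ := List.exists_mem_of_ne_nil l2 hne
    have hyl : y ∈ l := by
      rw [hl']
      simp [hy]
    have hyP := hPB y hy
    unfold PB at hyP
    rw [Finset.mem_image] at hyP
    obtain ⟨k, hk, rfl⟩ := hyP
    rw [Finset.mem_Icc] at hk
    unfold Box
    rw [Fintype.mem_piFinset]
    intro i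
    have hd := pth_dist η hl _ hyl i
    rw [hn] at hd
    have he : (e1 : Vx d) i = 0 ∨ (e1 : Vx d) i = 1 := by
      unfold e1 ev
      by_cases h : i = 0
      · right
        rw [h]
        simp
      · left
        rw [Pi.single_eq_of_ne h]
    have hval : (v + (k : ℤ) • (e1 : Vx d)) i - (0 : Vx d) i = v i + k * (e1 : Vx d) i := by
      simp
    rw [hval, abs_le] at hd
    rw [Finset.mem_Icc]
    push_cast
    rcases he with h | h
    · rw [h] at hd
      constructor <;> linarith [hd.1, hd.2]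
    · rw [h] at hd
      have h2 : (k : ℤ) ≤ L := by exact_mod_cast hk.2
      have h3 : (1 : ℤ) ≤ k := by exact_mod_cast hk.1
      constructor <;> linarith [hd.1, hd.2]
  · have := congrArg List.length hl'
    simp only [List.length_append] at this
    omega

/-- The exceptional event. -/
def Exc (d : ℕ) [NeZero d] (L T n : ℕ) (κ c q : ℝ) (ω : ℕ → Vx d → Ω → ℝ) : Set Ω :=
  ⋃ z ∈ Finset.range (n + 1) ×ˢ Box d (n + L), {a | κ * T ≤ YY c q ω z.1 T (PB L z.2) a}

theorem exc_le {ω : ℕ → Vx d → Ω → ℝ} (h : IIDField P ω) {c q κ : ℝ} (hq0 : 0 ≤ q) (hq1 : q ≤ 1)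
    (hκ0 : 0 < κ) (hκ1 : κ ≤ 1) (h0 : ∫ a, cen c q (ω 1 0 a) ∂P = 0) (L T n : ℕ) :
    P.real (Exc d L T n κ c q ω) ≤
      (n + 1) * (2 * (n + L) + 1) ^ d * Real.exp (-(κ ^ 2 * T / (4 * L))) := by
  unfold Exc
  refine (measureReal_biUnion_finset_le _ _).trans ?_
  have h1 : ∀ z ∈ Finset.range (n + 1) ×ˢ Box d (n + L),
      P.real {a | κ * T ≤ YY c q ω z.1 T (PB L z.2) a} ≤ Real.exp (-(κ ^ 2 * T / (4 * L))) :=
    fun z _ => YY_tail h hq0 hq1 hκ0 hκ1 h0 z.1 T (card_PB_le L z.2)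
  refine (Finset.sum_le_card_nsmul _ _ _ h1).trans ?_
  rw [Finset.card_product, Finset.card_range, card_Box, nsmul_eq_mul]
  push_cast
  exact le_rfl

end Pool.Agent.MP_f3fa2b_pr
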