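import Pool.Agent.Lib.MP_f3fa2b_pr.Meas

/-!
(C) Stationarity of the environment seen from the walk under `deg(0) μ`.
-/

namespace Pool.Agent.MP_f3fa2b_pr

open MeasureTheory ProbabilityTheory Filter Topology
open scoped ENNReal

variable {d : ℕ}

theorem shift_bond (a : Vx d) (η : Cfg d) (x : Vx d) (s : Step d) :
    shift a η (bond x s) = η (bond (x + a) s) := by
  unfold shift bond
  by_cases h : s.2 = true
  · simp [h]
  · simp only [h]
    have : x - ev s.1 + a = x + a - ev s.1 := by abel
    simp [this]

theorem deg_shift (a : Vx d) (η : Cfg d) (x : Vx d) : deg (shift a η) x = deg η (x + a) := by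
  unfold deg
  simp only [shift_bond]

private theorem shift_shift (x a : Vx d) (η : Cfg d) : shift x (shift a η) = shift (x + a) η := by
  funext b
  unfold shift
  simp only [add_assoc]

private theorem cluster_shift (a : Vx d) (η : Cfg d) (x : Vx d) :
    cluster η (x + a) = (fun y => y + a) '' cluster (shift a η) x := by
  ext y
  constructor
  · intro h
    change Relation.ReflTransGen _ (x + a) y at h
    induction h with
    | refl => exact ⟨x, Relation.ReflTransGen.refl, rfl⟩
    | tail _ h2 ih =>
      obtain ⟨u, hu, rfl⟩ := ih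
      obtain ⟨s, hs, rfl⟩ := h2
      refine ⟨u + vec s, ?_, ?_⟩
      · refine Relation.ReflTransGen.tail hu ⟨s, ?_, rfl⟩
        rw [shift_bond]; exact hs
      · change u + vec s + a = u + a + vec s
        abel
  · rintro ⟨u, hu, rfl⟩
    change Relation.ReflTransGen _ x u at hu
    change Relation.ReflTransGen _ (x + a) (u + a)
    induction hu with
    | refl => exact Relation.ReflTransGen.refl
    | tail _ h2 ih =>
      obtain ⟨s, hs, rfl⟩ := h2
      refine Relation.ReflTransGen.tail ih ⟨s, ?_, ?_⟩
      · rw [shift_bond] at hs; exact hs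
      · abel

theorem infC_shift (a : Vx d) (η : Cfg d) (x : Vx d) : InfC (shift a η) x ↔ InfC η (x + a) := by
  unfold InfC
  rw [cluster_shift]
  refine (Set.infinite_image_iff ?_).symm
  intro u _ v _ h
  exact add_right_cancel h

private theorem meas_shift_aux (a : Vx d) : Measurable (shift a : Cfg d → Cfg d) := by
  refine measurable_pi_lambda _ fun b => ?_
  exact measurable_pi_apply (b.1 + a, b.2)

theorem integral_shift {μ : Measure (Cfg d)} (h : TransInv μ) (a : Vx d) {f : Cfg d → ℝ}
    (hf : Measurable f) : ∫ η, f (shift a η) ∂μ = ∫ η, f η ∂μ := by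
  have h1 : ∫ η, f η ∂(μ.map (shift a)) = ∫ η, f (shift a η) ∂μ :=
    integral_map (meas_shift_aux a).aemeasurable hf.aestronglyMeasurable
  rw [h a] at h1
  exact h1.symm

private def rev (s : Step d) : Step d := (s.1, !s.2)

private theorem rev_rev (s : Step d) : rev (rev s) = s := by
  unfold rev; simp

private theorem bond_rev (s : Step d) : bond (-vec s) s = bond 0 (rev s) := by
  obtain ⟨i, b⟩ := s
  cases b <;> simp [bond, rev, vec]

private theorem deg_mul_walkE (η : Cfg d) (x : Vx d) (F : List (Vx d) → ℝ) :
    (deg η x : ℝ) * walkE η 1 x F =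
      ∑ s : Step d, if η (bond x s) = true then F [x + vec s] else 0 := by
  have h : walkE η 1 x F =
      (∑ s : Step d, if η (bond x s) = true then F [x + vec s] else 0) / deg η x := rfl
  rw [h]
  by_cases hd : deg η x = 0
  · have h0 : ∀ s : Step d, ¬ η (bond x s) = true := by
      intro s hs
      unfold deg at hd
      rw [Finset.card_eq_zero, Finset.filter_eq_empty_iff] at hd
      exact hd (Finset.mem_univ s) hs
    rw [Finset.sum_eq_zero fun s _ => if_neg (h0 s), hd]
    simp
  · have : (deg η x : ℝ) ≠ 0 := Nat.cast_ne_zero.mpr hd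
    field_simp

private theorem meas_ite {f : Cfg d → ℝ} (hf : Measurable f) (b : Bond d) :
    Measurable fun η : Cfg d => if η b = true then f η else 0 :=
  Measurable.ite (meas_open b true) hf measurable_const

private theorem int_ite {μ : Measure (Cfg d)} [IsProbabilityMeasure μ] {f : Cfg d → ℝ}
    (hf : Measurable f) {C : ℝ} (hC : ∀ η, |f η| ≤ C) (b : Bond d) :
    Integrable (fun η : Cfg d => if η b = true then f η else 0) μ := by
  refine Integrable.of_bound (meas_ite hf b).aestronglyMeasurable C (ae_of_all _ fun η => ?_)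
  rw [Real.norm_eq_abs]
  by_cases h : η b = true
  · rw [if_pos h]; exact hC η
  · rw [if_neg h, abs_zero]; exact (abs_nonneg _).trans (hC η)

/-- One step: reversibility and translation invariance. `f η x = f (shift x η) 0` says that `f` is
a function of the environment seen from `x`. -/
theorem stat_one {μ : Measure (Cfg d)} [IsProbabilityMeasure μ] (h : TransInv μ)
    {f : Cfg d → Vx d → ℝ} (hf : ∀ η x, f η x = f (shift x η) 0)
    (hm : ∀ x, Measurable fun η => f η x) {C : ℝ} (hC : ∀ η x, |f η x| ≤ C) :
    ∫ η, (deg η 0 : ℝ) * walkE η 1 0 (fun l => f η (lst 0 l)) ∂μ =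
      ∫ η, (deg η 0 : ℝ) * f η 0 ∂μ := by
  have e1 : ∀ η : Cfg d, (deg η 0 : ℝ) * walkE η 1 0 (fun l => f η (lst 0 l)) =
      ∑ s : Step d, if η (bond 0 s) = true then f η (vec s) else 0 := by
    intro η
    rw [deg_mul_walkE]
    refine Finset.sum_congr rfl fun s _ => ?_
    rw [lst_cons, lst_nil, zero_add]
  have e2 : ∀ η : Cfg d, (deg η 0 : ℝ) * f η 0 =
      ∑ s : Step d, if η (bond 0 (rev s)) = true then f η 0 else 0 := by
    intro η
    have h1 : ∑ s : Step d, (if η (bond 0 (rev s)) = true then f η 0 else 0) =
        ∑ s : Step d, if η (bond 0 s) = true then f η 0 else 0 :=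
      Finset.sum_equiv ⟨rev, rev, rev_rev, rev_rev⟩ (by simp) fun s _ => rfl
    rw [h1, ← Finset.sum_filter, Finset.sum_const, nsmul_eq_mul]
    rfl
  simp only [e1, e2]
  rw [integral_finsetSum _ fun s _ => int_ite (hm _) (fun η => hC η _) _,
    integral_finsetSum _ fun s _ => int_ite (hm _) (fun η => hC η _) _]
  refine Finset.sum_congr rfl fun s _ => ?_
  rw [← integral_shift h (vec s) (meas_ite (hm 0) (bond 0 (rev s)))]
  refine integral_congr_ae (ae_of_all _ fun η => ?_)
  change (if η (bond 0 s) = true then f η (vec s) else 0) =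
    if shift (vec s) η (bond 0 (rev s)) = true then f (shift (vec s) η) 0 else 0
  rw [← bond_rev, shift_bond, neg_add_cancel, ← hf]

/-- The functional `walkE` is covariant. -/
theorem walkE_shift (a : Vx d) (η : Cfg d) (n : ℕ) (x : Vx d) {f : Cfg d → Vx d → ℝ}
    (hf : ∀ η x, f η x = f (shift x η) 0) :
    walkE (shift a η) n x (fun l => f (shift a η) (lst x l)) =
      walkE η n (x + a) (fun l => f η (lst (x + a) l)) := by
  induction n generalizing x with
  | zero =>
    change f (shift a η) (lst x []) = f η (lst (x + a) [])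
    rw [lst_nil, lst_nil, hf, shift_shift, ← hf]
  | succ n ih =>
    change (∑ s : Step d, if shift a η (bond x s) = true then
        walkE (shift a η) n (x + vec s) (fun l => f (shift a η) (lst x ((x + vec s) :: l))) else 0) /
          deg (shift a η) x =
      (∑ s : Step d, if η (bond (x + a) s) = true then
        walkE η n (x + a + vec s) (fun l => f η (lst (x + a) ((x + a + vec s) :: l))) else 0) /
          deg η (x + a)
    rw [deg_shift]
    congr 1
    refine Finset.sum_congr rfl fun s _ => ?_
    simp only [lst_cons]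
    rw [shift_bond, ih, add_right_comm x a (vec s)]

theorem stat {μ : Measure (Cfg d)} [IsProbabilityMeasure μ] (h : TransInv μ)
    {f : Cfg d → Vx d → ℝ} (hf : ∀ η x, f η x = f (shift x η) 0)
    (hm : ∀ x, Measurable fun η => f η x) {C : ℝ} (hC : ∀ η x, |f η x| ≤ C) (t : ℕ) :
    ∫ η, (deg η 0 : ℝ) * walkE η t 0 (fun l => f η (lst 0 l)) ∂μ =
      ∫ η, (deg η 0 : ℝ) * f η 0 ∂μ := by
  induction t with
  | zero => rfl
  | succ t ih =>
    have hC0 : 0 ≤ C := (abs_nonneg _).trans (hC (fun _ => true) 0)
    set g : Cfg d → Vx d → ℝ := fun η x => walkE η t x fun l => f η (lst x l) with hg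
    have g1 : ∀ η x, g η x = g (shift x η) 0 := by
      intro η x
      rw [hg]
      change walkE η t x (fun l => f η (lst x l)) =
        walkE (shift x η) t 0 (fun l => f (shift x η) (lst 0 l))
      rw [walkE_shift x η t 0 hf, zero_add]
    have g2 : ∀ x, Measurable fun η => g η x := fun x => meas_walkE (fun l => hm (lst x l)) t x
    have g3 : ∀ η x, |g η x| ≤ C := by
      intro η x
      have k1 : walkE η t x (fun l => f η (lst x l)) ≤ C :=
        (walkE_mono η t x fun l _ _ => (le_abs_self _).trans (hC η (lst x l))).trans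
          (walkE_const_le η t x hC0)
      have k2 : walkE η t x (fun l => (-1) * f η (lst x l)) ≤ C :=
        (walkE_mono η t x fun l _ _ => by
          rw [neg_one_mul]; exact (neg_le_abs _).trans (hC η (lst x l))).trans
          (walkE_const_le η t x hC0)
      rw [walkE_mul, neg_one_mul] at k2
      exact abs_le.mpr ⟨by change -C ≤ walkE η t x (fun l => f η (lst x l)); linarith, k1⟩
    have e : ∀ η : Cfg d, walkE η (t + 1) 0 (fun l => f η (lst 0 l)) =
        walkE η 1 0 (fun l => g η (lst 0 l)) := by
      intro η
      rw [add_comm t 1, walkE_append]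
      simp only [lst_append, hg]
    simp only [e]
    rw [stat_one h g1 g2 g3]
    exact ih

end Pool.Agent.MP_f3fa2b_pr
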