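import Pool.Agent.Lib.MP_f3fa2b_pr.Walk

/-!
(A) The walk stays in a pipe with large probability.
-/

namespace Pool.Agent.MP_f3fa2b_pr

open MeasureTheory ProbabilityTheory Filter Topology
open scoped ENNReal

variable {d : ℕ} [NeZero d]

/-- At a vertex `v + k e_1` of a pipe the walk goes to the two neighbours `v + (k ± 1) e_1` with
probability `1/2` each. -/
theorem walkE_pipe (η : Cfg d) {L : ℕ} {v : Vx d} (hp : Pipe η L v) {k : ℕ} (h1 : 1 ≤ k)
    (hk : k ≤ L) (n : ℕ) (F : List (Vx d) → ℝ) :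
    walkE η (n + 1) (v + (k : ℤ) • e1) F =
      (walkE η n (v + ((k + 1 : ℕ) : ℤ) • e1) (fun l => F ((v + ((k + 1 : ℕ) : ℤ) • e1) :: l)) +
        walkE η n (v + ((k - 1 : ℕ) : ℤ) • e1) (fun l => F ((v + ((k - 1 : ℕ) : ℤ) • e1) :: l))) / 2 := by
  classical
  set x : Vx d := v + (k : ℤ) • e1 with hx
  have hb : ∀ s : Step d, η (bond x s) = true ↔ s.1 = 0 := hp k h1 hk
  have hdeg : deg η x = 2 := by
    unfold deg
    have : (Finset.univ.filter fun s : Step d => η (bond x s) = true) =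
        {((0 : Fin d), true), ((0 : Fin d), false)} := by
      ext s
      obtain ⟨a, b⟩ := s
      simp only [Finset.mem_filter, Finset.mem_univ, true_and, Finset.mem_insert,
        Finset.mem_singleton, Prod.mk.injEq]
      rw [hb (a, b)]
      cases b <;> simp
    rw [this]
    rw [Finset.card_pair]
    intro h
    exact Bool.noConfusion (Prod.mk.inj h).2
  have hplus : x + vec ((0 : Fin d), true) = v + ((k + 1 : ℕ) : ℤ) • e1 := by
    rw [hx]
    simp only [vec, if_true]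
    rw [show (ev 0 : Vx d) = e1 from rfl]
    push_cast
    rw [add_smul, one_smul, add_assoc]
  have hminus : x + vec ((0 : Fin d), false) = v + ((k - 1 : ℕ) : ℤ) • e1 := by
    rw [hx]
    simp only [vec, Bool.false_eq_true, if_false]
    rw [show (ev 0 : Vx d) = e1 from rfl]
    rw [Nat.cast_sub h1]
    push_cast
    rw [sub_smul, one_smul]
    abel
  have hsum : ∀ G : Step d → ℝ, (∑ s : Step d, if η (bond x s) = true then G s else 0) =
      G ((0 : Fin d), true) + G ((0 : Fin d), false) := by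
    intro G
    rw [Fintype.sum_prod_type]
    rw [Finset.sum_eq_single (0 : Fin d)]
    · rw [Fintype.sum_bool]
      rw [if_pos ((hb _).2 rfl), if_pos ((hb _).2 rfl)]
    · intro a _ ha
      rw [Fintype.sum_bool]
      rw [if_neg (fun h => ha ((hb _).1 h)), if_neg (fun h => ha ((hb _).1 h)), add_zero]
    · intro h
      exact absurd (Finset.mem_univ _) h
  rw [← hplus, ← hminus]
  show (∑ s : Step d, if η (bond x s) = true then
        walkE η n (x + vec s) (fun l => F ((x + vec s) :: l)) else 0) / deg η x = _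
  rw [hsum (fun s => walkE η n (x + vec s) (fun l => F ((x + vec s) :: l))), hdeg]
  norm_num

/-- Survival in a pipe, from the eigenfunction `sin(k π/(L+1))`. -/
theorem stay_sin (η : Cfg d) {L : ℕ} {v : Vx d} (hp : Pipe η L v) (T : ℕ) {k : ℕ} (h1 : 1 ≤ k)
    (hk : k ≤ L) :
    Real.cos (Real.pi / (L + 1)) ^ T * Real.sin (k * (Real.pi / (L + 1))) ≤
      walkE η T (v + (k : ℤ) • e1) fun l => ind (∀ y ∈ l, y ∈ PB L v) := by
  induction T generalizing k with
  | zero =>
    have hz : walkE η 0 (v + (k : ℤ) • e1) (fun l => ind (∀ y ∈ l, y ∈ PB L v)) = 1 := by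
      show ind (∀ y ∈ ([] : List (Vx d)), y ∈ PB L v) = 1
      apply ind_pos
      intro y hy
      exact absurd hy List.not_mem_nil
    rw [hz, pow_zero, one_mul]
    exact Real.sin_le_one _
  | succ T ih =>
    rw [walkE_pipe η hp h1 hk]
    set θ : ℝ := Real.pi / (L + 1) with hθ
    have hL : (0 : ℝ) < (L : ℝ) + 1 := by positivity
    have hLθ : ((L : ℝ) + 1) * θ = Real.pi := by
      rw [hθ]; field_simp
    have key : ∀ i : ℕ, i ≤ L + 1 →
        Real.cos θ ^ T * Real.sin (i * θ) ≤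
          walkE η T (v + (i : ℤ) • e1)
            (fun l => ind (∀ y ∈ (v + (i : ℤ) • e1) :: l, y ∈ PB L v)) := by
      intro i hi
      have hnn : 0 ≤ walkE η T (v + (i : ℤ) • e1)
            (fun l => ind (∀ y ∈ (v + (i : ℤ) • e1) :: l, y ∈ PB L v)) :=
        walkE_nonneg η T _ (fun l => ind_nonneg _)
      by_cases h0 : i = 0
      · have : Real.sin ((i : ℝ) * θ) = 0 := by rw [h0]; simp
        rw [this, mul_zero]; exact hnn
      by_cases hl : i = L + 1
      · have : Real.sin ((i : ℝ) * θ) = 0 := by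
          rw [hl]; push_cast; rw [hLθ, Real.sin_pi]
        rw [this, mul_zero]; exact hnn
      have hi1 : 1 ≤ i := Nat.one_le_iff_ne_zero.2 h0
      have hi2 : i ≤ L := by omega
      have hmem : v + (i : ℤ) • e1 ∈ PB L v :=
        Finset.mem_image.2 ⟨i, Finset.mem_Icc.2 ⟨hi1, hi2⟩, rfl⟩
      refine (ih hi1 hi2).trans (walkE_mono η T _ ?_)
      intro l _ _
      apply ind_mono
      intro h y hy
      rcases List.mem_cons.1 hy with rfl | hy
      · exact hmem
      · exact h y hy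
    have ha := key (k + 1) (by omega)
    have hb := key (k - 1) (by omega)
    have hsin : Real.sin (((k + 1 : ℕ) : ℝ) * θ) + Real.sin (((k - 1 : ℕ) : ℝ) * θ) =
        2 * Real.cos θ * Real.sin (k * θ) := by
      rw [Nat.cast_sub h1]
      push_cast
      rw [add_mul, sub_mul, one_mul, Real.sin_add, Real.sin_sub]
      ring
    have hmul : Real.cos θ ^ (T + 1) * Real.sin (k * θ) =
        (Real.cos θ ^ T * Real.sin (((k + 1 : ℕ) : ℝ) * θ) +
          Real.cos θ ^ T * Real.sin (((k - 1 : ℕ) : ℝ) * θ)) / 2 := by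
      rw [← mul_add, hsin]; ring
    rw [hmul]
    linarith

theorem stay_ge (η : Cfg d) {L : ℕ} {v : Vx d} (hp : Pipe η L v) (T : ℕ) {x : Vx d}
    (hx : x ∈ PB L v) :
    Real.cos (Real.pi / (L + 1)) ^ T * Real.sin (Real.pi / (L + 1)) ≤
      walkE η T x fun l => ind (∀ y ∈ l, y ∈ PB L v) := by
  obtain ⟨k, hk, rfl⟩ := Finset.mem_image.1 hx
  obtain ⟨h1, hkL⟩ := Finset.mem_Icc.1 hk
  refine le_trans ?_ (stay_sin η hp T h1 hkL)
  set θ : ℝ := Real.pi / (L + 1) with hθ
  have hL : (0 : ℝ) < (L : ℝ) + 1 := by positivity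
  have hLθ : ((L : ℝ) + 1) * θ = Real.pi := by
    rw [hθ]; field_simp
  have hθ0 : 0 < θ := by rw [hθ]; exact div_pos Real.pi_pos hL
  have hL1 : (1 : ℝ) ≤ L := by exact_mod_cast h1.trans hkL
  have hk1 : (1 : ℝ) ≤ k := by exact_mod_cast h1
  have hkL' : (k : ℝ) ≤ L := by exact_mod_cast hkL
  have hθ2 : θ ≤ Real.pi / 2 := by
    nlinarith
  have hcos : 0 ≤ Real.cos θ := Real.cos_nonneg_of_mem_Icc ⟨by linarith, hθ2⟩
  refine mul_le_mul_of_nonneg_left ?_ (pow_nonneg hcos T)
  have hmono : ∀ y : ℝ, θ ≤ y → y ≤ Real.pi / 2 → Real.sin θ ≤ Real.sin y := by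
    intro y hy hy2
    exact Real.sin_le_sin_of_le_of_le_pi_div_two (by linarith [Real.pi_pos]) hy2 hy
  by_cases hc : (k : ℝ) * θ ≤ Real.pi / 2
  · exact hmono _ (by nlinarith) hc
  · rw [← Real.sin_pi_sub ((k : ℝ) * θ)]
    apply hmono
    · rw [← hLθ]; nlinarith
    · push Not at hc
      linarith

/-- The numerical input: `L + 1 = 10 j`, `T = 10 j^2 m`. -/
theorem num_cos {j : ℕ} (hj : 1 ≤ j) (m : ℕ) :
    (1 / 2 : ℝ) ^ m ≤ Real.cos (Real.pi / (10 * j)) ^ (10 * j ^ 2 * m) := by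
  have hj0 : (1 : ℝ) ≤ j := by exact_mod_cast hj
  have hjp : (0 : ℝ) < j := by linarith
  have hpi : Real.pi ^ 2 < 10 := by
    have h1 := Real.pi_lt_d2
    have h2 := Real.pi_pos
    nlinarith
  set x : ℝ := Real.pi / (10 * j) with hx
  have hx2 : x ^ 2 ≤ 1 / (10 * (j : ℝ) ^ 2) := by
    rw [hx, div_pow, div_le_div_iff₀ (by positivity) (by positivity)]
    nlinarith [sq_nonneg (j : ℝ), mul_pos hjp hjp]
  have hcos : 1 - 1 / (20 * (j : ℝ) ^ 2) ≤ Real.cos x := by
    have h := Real.one_sub_sq_div_two_le_cos (x := x)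
    have e : 1 / (20 * (j : ℝ) ^ 2) = (1 / (10 * (j : ℝ) ^ 2)) / 2 := by
      field_simp; norm_num
    rw [e]
    linarith
  have hsmall : 1 / (20 * (j : ℝ) ^ 2) ≤ 1 / 20 := by
    apply one_div_le_one_div_of_le (by norm_num)
    nlinarith
  have hnn : (0 : ℝ) ≤ 1 - 1 / (20 * (j : ℝ) ^ 2) := by linarith
  have hbern := one_add_mul_le_pow (a := -(1 / (20 * (j : ℝ) ^ 2))) (by linarith) (10 * j ^ 2)
  have hhalf : (1 / 2 : ℝ) ≤ Real.cos x ^ (10 * j ^ 2) := by
    have e : 1 + ((10 * j ^ 2 : ℕ) : ℝ) * (-(1 / (20 * (j : ℝ) ^ 2))) = 1 / 2 := by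
      push_cast
      field_simp
      norm_num
    rw [e] at hbern
    refine hbern.trans ?_
    rw [← sub_eq_add_neg]
    exact pow_le_pow_left₀ hnn hcos _
  rw [pow_mul]
  exact pow_le_pow_left₀ (by norm_num) hhalf m

end Pool.Agent.MP_f3fa2b_pr
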