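import Pool.Agent.Lib.MP_f3fa2b_pr.Stay
import Pool.Agent.Lib.MP_f3fa2b_pr.Path

/-!
A block which starts at a good point contains a stay with probability at least
`(2d)^{-R} cos^T sin`.
-/

namespace Pool.Agent.MP_f3fa2b_pr

open MeasureTheory ProbabilityTheory Filter Topology
open scoped ENNReal

variable {d : ℕ} [NeZero d]

theorem hasStay_append_left {η : Cfg d} {L T : ℕ} {l : List (Vx d)} (l' : List (Vx d))
    (h : HasStay η L T l) : HasStay η L T (l ++ l') := by
  obtain ⟨v, hp, l1, l2, l3, rfl, hT, hy⟩ := h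
  exact ⟨v, hp, l1, l2, l3 ++ l', by simp [List.append_assoc], hT, hy⟩

theorem hasStay_append_right {η : Cfg d} {L T : ℕ} (l : List (Vx d)) {l' : List (Vx d)}
    (h : HasStay η L T l') : HasStay η L T (l ++ l') := by
  obtain ⟨v, hp, l1, l2, l3, rfl, hT, hy⟩ := h
  exact ⟨v, hp, l ++ l1, l2, l3, by simp [List.append_assoc], hT, hy⟩

theorem deg_pos_of_mem_PB {η : Cfg d} {L : ℕ} {v x : Vx d} (hp : Pipe η L v) (hx : x ∈ PB L v) :
    0 < deg η x := by
  obtain ⟨k, hk, rfl⟩ := Finset.mem_image.1 hx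
  obtain ⟨h1, hkL⟩ := Finset.mem_Icc.1 hk
  have h := (hp k h1 hkL ((0 : Fin d), true)).2 rfl
  unfold deg
  exact Finset.card_pos.2 ⟨_, Finset.mem_filter.2 ⟨Finset.mem_univ _, h⟩⟩

private theorem success_inner (η : Cfg d) {L T : ℕ} {v y : Vx d} (hp : Pipe η L v)
    (hy : y ∈ PB L v) (rest : ℕ) (l0 : List (Vx d)) :
    Real.cos (Real.pi / (L + 1)) ^ T * Real.sin (Real.pi / (L + 1)) ≤
      walkE η (T + rest) y fun l => ind (HasStay η L T (l0 ++ l)) := by
  have hdeg := deg_pos_of_mem_PB hp hy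
  refine (stay_ge η hp T hy).trans ?_
  rw [walkE_append]
  refine walkE_mono η T y fun l hl hpth => ?_
  by_cases hin : ∀ z ∈ l, z ∈ PB L v
  · rw [ind_pos hin]
    have h1 : walkE η rest (lst y l) (fun l' => ind (HasStay η L T (l0 ++ (l ++ l')))) =
        walkE η rest (lst y l) fun _ => 1 := by
      refine walkE_congr η rest _ fun l' _ _ => ?_
      apply ind_pos
      exact ⟨v, hp, l0, l, l', by simp [List.append_assoc], hl, hin⟩
    rw [h1, walkE_const η rest (deg_lst_pos η hdeg hpth)]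
  · rw [ind_neg hin]
    exact walkE_nonneg η rest _ fun _ => ind_nonneg _

theorem success (η : Cfg d) {L R T tb : ℕ} {x : Vx d} (hL : 1 ≤ L) (hg : Good η L R x)
    (htb : R + T ≤ tb) :
    (1 / (2 * d) : ℝ) ^ R *
        (Real.cos (Real.pi / (L + 1)) ^ T * Real.sin (Real.pi / (L + 1))) ≤
      walkE η tb x fun l => ind (HasStay η L T l) := by
  obtain ⟨l0, hl0, hpth, v, hp, hmem⟩ := hg
  obtain ⟨rest, hrest⟩ : ∃ rest, tb = l0.length + (T + rest) := ⟨tb - l0.length - T, by omega⟩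
  have hd1 : (1 : ℝ) ≤ d := by exact_mod_cast Nat.one_le_iff_ne_zero.2 (NeZero.ne d)
  set c : ℝ := Real.cos (Real.pi / (L + 1)) ^ T * Real.sin (Real.pi / (L + 1)) with hc
  have hL1 : (1 : ℝ) ≤ L := by exact_mod_cast hL
  have hθ0 : 0 < Real.pi / (L + 1) := by positivity
  have hθ1 : Real.pi / (L + 1) ≤ Real.pi / 2 :=
    div_le_div_of_nonneg_left Real.pi_pos.le (by norm_num) (by linarith)
  have hc0 : 0 ≤ c := by
    refine mul_nonneg (pow_nonneg (Real.cos_nonneg_of_mem_Icc ⟨by linarith, hθ1⟩) _) ?_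
    exact Real.sin_nonneg_of_nonneg_of_le_pi hθ0.le (by linarith [Real.pi_pos])
  have h1 : (1 / (2 * d) : ℝ) ^ R ≤ (1 / (2 * d) : ℝ) ^ l0.length := by
    refine pow_le_pow_of_le_one (by positivity) ?_ hl0
    rw [div_le_one (by positivity)]
    linarith
  have h2 := path_prob η hpth
  have h3 : c * walkE η l0.length x (fun l => ind (l = l0)) ≤
      walkE η tb x fun l => ind (HasStay η L T l) := by
    rw [hrest, walkE_append, ← walkE_mul]
    refine walkE_mono η l0.length x fun l _ _ => ?_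
    by_cases hl : l = l0
    · rw [ind_pos hl, mul_one, hl]
      exact success_inner η hp hmem rest l0
    · rw [ind_neg hl, mul_zero]
      exact walkE_nonneg η _ _ fun _ => ind_nonneg _
  calc (1 / (2 * d) : ℝ) ^ R * c ≤ walkE η l0.length x (fun l => ind (l = l0)) * c :=
        mul_le_mul_of_nonneg_right (h1.trans h2) hc0
    _ = c * walkE η l0.length x (fun l => ind (l = l0)) := mul_comm _ _
    _ ≤ _ := h3

end Pool.Agent.MP_f3fa2b_pr
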