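import Pool.Agent.Lib.MP_f3fa2b_pr.Base

/-!
Elementary properties of the walk functional `walkE`.
-/

namespace Pool.Agent.MP_f3fa2b_pr

open MeasureTheory ProbabilityTheory Filter Topology
open scoped ENNReal

variable {d : ℕ}

/-- A finite nonnegative combination of values at open paths of length `n`. -/
private def WalkRep (η : Cfg d) (n : ℕ) (x : Vx d) (Φ : (List (Vx d) → ℝ) → ℝ) : Prop :=
  ∃ (S : Finset (List (Vx d))) (w : List (Vx d) → ℝ),
    (∀ l ∈ S, 0 ≤ w l ∧ l.length = n ∧ Pth η x l) ∧
    ∀ F : List (Vx d) → ℝ, Φ F = ∑ l ∈ S, w l * F l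

private theorem WalkRep.add {η : Cfg d} {n : ℕ} {x : Vx d} {Φ Ψ : (List (Vx d) → ℝ) → ℝ}
    (h : WalkRep η n x Φ) (h' : WalkRep η n x Ψ) : WalkRep η n x fun F => Φ F + Ψ F := by
  classical
  obtain ⟨S, w, h1, h2⟩ := h
  obtain ⟨S', w', h1', h2'⟩ := h'
  refine ⟨S ∪ S', fun l => (if l ∈ S then w l else 0) + (if l ∈ S' then w' l else 0),
    fun l hl => ⟨?_, ?_⟩, fun F => ?_⟩
  · refine add_nonneg ?_ ?_
    · split_ifs with h
      · exact (h1 l h).1
      · exact le_rfl
    · split_ifs with h
      · exact (h1' l h).1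
      · exact le_rfl
  · rcases Finset.mem_union.1 hl with h | h
    · exact (h1 l h).2
    · exact (h1' l h).2
  · simp only [add_mul, Finset.sum_add_distrib, ite_mul, zero_mul]
    rw [h2, h2', Finset.sum_ite_mem, Finset.sum_ite_mem, Finset.union_inter_cancel_left,
      Finset.union_inter_cancel_right]

private theorem WalkRep.zero (η : Cfg d) (n : ℕ) (x : Vx d) : WalkRep η n x fun _ => 0 :=
  ⟨∅, fun _ => 0, fun l hl => absurd hl (Finset.notMem_empty l), fun F => by rw [Finset.sum_empty]⟩

private theorem WalkRep.sum {η : Cfg d} {n : ℕ} {x : Vx d} {ι : Type} (t : Finset ι)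
    {Φ : ι → (List (Vx d) → ℝ) → ℝ} (h : ∀ i ∈ t, WalkRep η n x (Φ i)) :
    WalkRep η n x fun F => ∑ i ∈ t, Φ i F := by
  classical
  induction t using Finset.induction_on with
  | empty =>
    simp only [Finset.sum_empty]
    exact WalkRep.zero η n x
  | insert i t hi ih =>
    simp only [Finset.sum_insert hi]
    exact (h i (Finset.mem_insert_self i t)).add
      (ih fun j hj => h j (Finset.mem_insert_of_mem hj))

private theorem WalkRep.div {η : Cfg d} {n : ℕ} {x : Vx d} {Φ : (List (Vx d) → ℝ) → ℝ}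
    (h : WalkRep η n x Φ) {c : ℝ} (hc : 0 ≤ c) : WalkRep η n x fun F => Φ F / c := by
  obtain ⟨S, w, h1, h2⟩ := h
  refine ⟨S, fun l => w l / c, fun l hl => ⟨div_nonneg (h1 l hl).1 hc, (h1 l hl).2⟩, fun F => ?_⟩
  change Φ F / c = _
  rw [h2, Finset.sum_div]
  exact Finset.sum_congr rfl fun l _ => by ring

private theorem WalkRep.cons {η : Cfg d} {n : ℕ} {x : Vx d} {s : Step d}
    (hs : η (bond x s) = true) {Φ : (List (Vx d) → ℝ) → ℝ} (h : WalkRep η n (x + vec s) Φ) :
    WalkRep η (n + 1) x fun F => Φ fun l => F ((x + vec s) :: l) := by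
  classical
  obtain ⟨S, w, h1, h2⟩ := h
  refine ⟨S.image fun l => (x + vec s) :: l, fun l => w l.tail, fun l hl => ?_, fun F => ?_⟩
  · obtain ⟨l', hl', rfl⟩ := Finset.mem_image.1 hl
    obtain ⟨a1, a2, a3⟩ := h1 l' hl'
    exact ⟨a1, by rw [List.length_cons, a2], ⟨⟨s, hs, rfl⟩, a3⟩⟩
  · change (Φ fun l => F ((x + vec s) :: l)) = _
    rw [h2, Finset.sum_image fun a _ b _ hab => (List.cons.inj hab).2]
    rfl

private theorem walkRep (η : Cfg d) (n : ℕ) (x : Vx d) : WalkRep η n x (walkE η n x) := by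
  induction n generalizing x with
  | zero =>
    refine ⟨{[]}, fun _ => 1, fun l hl => ?_, fun F => ?_⟩
    · rw [Finset.mem_singleton.1 hl]
      exact ⟨zero_le_one, rfl, trivial⟩
    · rw [Finset.sum_singleton, one_mul]
      rfl
  | succ n ih =>
    have h1 : WalkRep η (n + 1) x fun F => (∑ s : Step d, if η (bond x s) = true then
        walkE η n (x + vec s) (fun l => F ((x + vec s) :: l)) else 0) / (deg η x : ℝ) := by
      refine WalkRep.div (WalkRep.sum _ fun s _ => ?_) (Nat.cast_nonneg _)
      by_cases hs : η (bond x s) = true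
      · simp only [hs, if_true]
        exact (ih (x + vec s)).cons hs
      · have e : (fun F : List (Vx d) → ℝ => if η (bond x s) = true then
            walkE η n (x + vec s) (fun l => F ((x + vec s) :: l)) else 0) = fun _ => 0 :=
          funext fun F => if_neg hs
        rw [e]
        exact WalkRep.zero η _ x
    exact h1

/-- `walkE` is a finite nonnegative combination of values at open paths of length `n`. -/
theorem walkE_eq_sum (η : Cfg d) (n : ℕ) (x : Vx d) :
    ∃ (S : Finset (List (Vx d))) (w : List (Vx d) → ℝ),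
      (∀ l ∈ S, 0 ≤ w l ∧ l.length = n ∧ Pth η x l) ∧
      ∀ F : List (Vx d) → ℝ, walkE η n x F = ∑ l ∈ S, w l * F l :=
  walkRep η n x

/-- Markov property. -/
theorem walkE_append (η : Cfg d) (m n : ℕ) (x : Vx d) (F : List (Vx d) → ℝ) :
    walkE η (m + n) x F =
      walkE η m x fun l => walkE η n (lst x l) fun l' => F (l ++ l') := by
  induction m generalizing x F with
  | zero =>
    rw [Nat.zero_add]
    rfl
  | succ m ih =>
    have e : m + 1 + n = (m + n) + 1 := by omega
    rw [e]
    simp only [walkE]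
    congr 1
    refine Finset.sum_congr rfl fun s _ => ?_
    by_cases hs : η (bond x s) = true
    · simp only [hs, if_true]
      rw [ih]
      simp only [lst_cons, List.cons_append]
    · rw [if_neg hs, if_neg hs]

theorem walkE_mono (η : Cfg d) (n : ℕ) (x : Vx d) {F G : List (Vx d) → ℝ}
    (h : ∀ l, l.length = n → Pth η x l → F l ≤ G l) : walkE η n x F ≤ walkE η n x G := by
  obtain ⟨S, w, h1, h2⟩ := walkE_eq_sum η n x
  rw [h2, h2]
  refine Finset.sum_le_sum fun l hl => ?_
  exact mul_le_mul_of_nonneg_left (h l (h1 l hl).2.1 (h1 l hl).2.2) (h1 l hl).1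

theorem walkE_congr (η : Cfg d) (n : ℕ) (x : Vx d) {F G : List (Vx d) → ℝ}
    (h : ∀ l, l.length = n → Pth η x l → F l = G l) : walkE η n x F = walkE η n x G :=
  le_antisymm (walkE_mono η n x fun l h1 h2 => (h l h1 h2).le)
    (walkE_mono η n x fun l h1 h2 => (h l h1 h2).ge)

theorem walkE_nonneg (η : Cfg d) (n : ℕ) (x : Vx d) {F : List (Vx d) → ℝ}
    (h : ∀ l, 0 ≤ F l) : 0 ≤ walkE η n x F := by
  obtain ⟨S, w, h1, h2⟩ := walkE_eq_sum η n x
  rw [h2]
  exact Finset.sum_nonneg fun l hl => mul_nonneg (h1 l hl).1 (h l)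

theorem walkE_add (η : Cfg d) (n : ℕ) (x : Vx d) (F G : List (Vx d) → ℝ) :
    walkE η n x (fun l => F l + G l) = walkE η n x F + walkE η n x G := by
  obtain ⟨S, w, h1, h2⟩ := walkE_eq_sum η n x
  rw [h2, h2, h2, ← Finset.sum_add_distrib]
  exact Finset.sum_congr rfl fun l _ => mul_add _ _ _

theorem walkE_mul (η : Cfg d) (n : ℕ) (x : Vx d) (c : ℝ) (F : List (Vx d) → ℝ) :
    walkE η n x (fun l => c * F l) = c * walkE η n x F := by
  obtain ⟨S, w, h1, h2⟩ := walkE_eq_sum η n x
  rw [h2, h2, Finset.mul_sum]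
  exact Finset.sum_congr rfl fun l _ => by ring

/-- The other end of an open bond has positive degree. -/
private theorem walk_deg_pos (η : Cfg d) {x : Vx d} {s : Step d} (hs : η (bond x s) = true) :
    0 < deg η (x + vec s) := by
  refine Finset.card_pos.2 ⟨(s.1, !s.2), Finset.mem_filter.2 ⟨Finset.mem_univ _, ?_⟩⟩
  have e : bond (x + vec s) (s.1, !s.2) = bond x s := by
    obtain ⟨i, b⟩ := s
    cases b
    · simp [bond, vec, sub_eq_add_neg]
    · simp [bond, vec]
  rw [e]
  exact hs

/-- Every point visited by a path which starts at a point of positive degree has positive degree. -/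
theorem deg_lst_pos (η : Cfg d) {x : Vx d} {l : List (Vx d)} (hx : 0 < deg η x) (hl : Pth η x l) :
    0 < deg η (lst x l) := by
  induction l generalizing x with
  | nil => exact hx
  | cons y l ih =>
    rw [lst_cons]
    obtain ⟨⟨s, hs, rfl⟩, h2⟩ := hl
    exact ih (walk_deg_pos η hs) h2

theorem walkE_const (η : Cfg d) (n : ℕ) {x : Vx d} (hx : 0 < deg η x) (c : ℝ) :
    walkE η n x (fun _ => c) = c := by
  induction n generalizing x with
  | zero => rfl
  | succ n ih =>
    simp only [walkE]
    have h1 : (∑ s : Step d, if η (bond x s) = true then walkE η n (x + vec s) (fun _ => c) else 0)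
        = ∑ s : Step d, if η (bond x s) = true then c else 0 := by
      refine Finset.sum_congr rfl fun s _ => ?_
      by_cases hs : η (bond x s) = true
      · simp only [hs, if_true]
        exact ih (walk_deg_pos η hs)
      · rw [if_neg hs, if_neg hs]
    rw [h1, ← Finset.sum_filter, Finset.sum_const, nsmul_eq_mul]
    have h2 : (((Finset.univ.filter fun s : Step d => η (bond x s) = true).card : ℕ) : ℝ) =
        (deg η x : ℝ) := rfl
    rw [h2]
    exact mul_div_cancel_left₀ c (Nat.cast_ne_zero.2 hx.ne')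

theorem walkE_const_le (η : Cfg d) (n : ℕ) (x : Vx d) {c : ℝ} (hc : 0 ≤ c) :
    walkE η n x (fun _ => c) ≤ c := by
  rcases Nat.eq_zero_or_pos (deg η x) with h | h
  · cases n with
    | zero => exact le_rfl
    | succ n =>
      simp only [walkE]
      rw [h, Nat.cast_zero, div_zero]
      exact hc
  · exact (walkE_const η n h c).le

end Pool.Agent.MP_f3fa2b_pr
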